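import Mathlib

/-! Fields of rational functions and base change of the constants. -/

set_option autoImplicit false

namespace Pool.Agent.Q84.UF

open MvPolynomial

/-- `E` is a field of rational functions in finitely many variables over `K`. -/
def Pur (K E : Type) [Field K] [Field E] [Algebra K E] : Prop :=
  ∃ (n : ℕ) (x : Fin n → E), AlgebraicIndependent K x ∧
    IntermediateField.adjoin K (Set.range x) = ⊤

theorem pur_self (K : Type) [Field K] : Pur K K := by
  refine ⟨0, Fin.elim0, algebraicIndependent_empty_type, ?_⟩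
  rw [eq_top_iff]
  intro z _
  exact IntermediateField.algebraMap_mem _ z

theorem pur_of_gen {K E ι : Type} [Finite ι] [Field K] [Field E] [Algebra K E] (x : ι → E)
    (hx : AlgebraicIndependent K x) (h : IntermediateField.adjoin K (Set.range x) = ⊤) :
    Pur K E := by
  have := Fintype.ofFinite ι
  let e := Fintype.equivFin ι
  refine ⟨Fintype.card ι, x ∘ e.symm, hx.comp _ e.symm.injective, ?_⟩
  rw [Set.range_comp, e.symm.surjective.range_eq, Set.image_univ, h]

theorem ai_frac (K ι : Type) [Field K] : AlgebraicIndependent K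
    (fun i : ι => algebraMap (MvPolynomial ι K) (FractionRing (MvPolynomial ι K)) (X i)) :=
  (MvPolynomial.algebraicIndependent_X ι K).map'
    (f := IsScalarTower.toAlgHom K (MvPolynomial ι K) (FractionRing (MvPolynomial ι K)))
    (IsFractionRing.injective _ _)

theorem adj_frac (K ι : Type) [Field K] : IntermediateField.adjoin K
    (Set.range fun i : ι => algebraMap (MvPolynomial ι K) (FractionRing (MvPolynomial ι K))
      (X i)) = ⊤ := by
  rw [eq_top_iff]
  rintro z -
  obtain ⟨p, q, hq, rfl⟩ := IsFractionRing.div_surjective (A := MvPolynomial ι K) z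
  have key : ∀ p : MvPolynomial ι K, algebraMap (MvPolynomial ι K)
      (FractionRing (MvPolynomial ι K)) p ∈ IntermediateField.adjoin K
      (Set.range fun i : ι => algebraMap (MvPolynomial ι K)
        (FractionRing (MvPolynomial ι K)) (X i)) := by
    intro p
    induction p using MvPolynomial.induction_on with
    | C a =>
      have : algebraMap (MvPolynomial ι K) (FractionRing (MvPolynomial ι K)) (C a) =
          algebraMap K _ a := by
        rw [IsScalarTower.algebraMap_apply K (MvPolynomial ι K)
          (FractionRing (MvPolynomial ι K))]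
        rfl
      rw [this]
      exact IntermediateField.algebraMap_mem _ a
    | add p q hp hq => rw [map_add]; exact add_mem hp hq
    | mul_X p i hp =>
      rw [map_mul]
      exact mul_mem hp (IntermediateField.subset_adjoin _ _ ⟨i, rfl⟩)
  exact div_mem (key p) (key q)

theorem pur_frac (K ι : Type) [Finite ι] [Field K] : Pur K (FractionRing (MvPolynomial ι K)) :=
  pur_of_gen _ (ai_frac K ι) (adj_frac K ι)

theorem Pur.trans {K Ω E : Type} [Field K] [Field Ω] [Field E] [Algebra K Ω] [Algebra Ω E]
    [Algebra K E] [IsScalarTower K Ω E] (h1 : Pur K Ω) (h2 : Pur Ω E) : Pur K E := by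
  obtain ⟨m, x, hx, hx'⟩ := h1
  obtain ⟨n, y, hy, hy'⟩ := h2
  have hind : AlgebraicIndependent K (Sum.elim y (algebraMap Ω E ∘ x)) :=
    hx.sumElim_comp hy
  refine pur_of_gen _ hind ?_
  rw [eq_top_iff]
  rintro z -
  obtain ⟨F, hF⟩ : ∃ F, F = IntermediateField.adjoin K
    (Set.range (Sum.elim y (algebraMap Ω E ∘ x))) := ⟨_, rfl⟩
  rw [← hF]
  have h0 : ∀ i, Sum.elim y (algebraMap Ω E ∘ x) i ∈ F := fun i => by
    rw [hF]
    exact IntermediateField.subset_adjoin _ _ ⟨i, rfl⟩
  have h1 : ∀ a : Ω, algebraMap Ω E a ∈ F := by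
    intro a
    have ha : a ∈ IntermediateField.adjoin K (Set.range x) := by rw [hx']; trivial
    have hle : IntermediateField.adjoin K (Set.range x) ≤
        F.comap (IsScalarTower.toAlgHom K Ω E) := by
      rw [IntermediateField.adjoin_le_iff]
      rintro _ ⟨i, rfl⟩
      exact h0 (Sum.inr i)
    exact hle ha
  let F' : IntermediateField Ω E := { F.toSubfield with algebraMap_mem' := h1 }
  have hle : IntermediateField.adjoin Ω (Set.range y) ≤ F' := by
    rw [IntermediateField.adjoin_le_iff]
    rintro _ ⟨i, rfl⟩
    exact h0 (Sum.inl i)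
  have hz : z ∈ IntermediateField.adjoin Ω (Set.range y) := by rw [hy']; trivial
  exact hle hz

/-- Linear independence of polynomials is preserved by extension of the field of coefficients. -/
theorem indep_map {K Ω ι : Type} [Field K] [Field Ω] (ψ : K →+* Ω) {n : ℕ}
    (p : Fin n → MvPolynomial ι K) (hp : LinearIndependent K p) :
    LinearIndependent Ω (fun j => MvPolynomial.map ψ (p j)) := by
  let _ : Algebra K Ω := ψ.toAlgebra
  rw [Fintype.linearIndependent_iff]
  intro ω hω j
  rw [← Module.forall_dual_apply_eq_zero_iff K]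
  intro h
  have h1 : ∑ l, h (ω l) • p l = 0 := by
    ext μ
    rw [coeff_sum, coeff_zero]
    have h2 := congrArg (fun q => h (coeff μ q)) hω
    simp only [coeff_sum, coeff_smul, coeff_map, coeff_zero, map_zero, map_sum, smul_eq_mul] at h2
    rw [← h2]
    refine Finset.sum_congr rfl fun l _ => ?_
    rw [coeff_smul, smul_eq_mul]
    have h3 : ω l * ψ (coeff μ (p l)) = coeff μ (p l) • ω l := by
      rw [Algebra.smul_def, mul_comm]; rfl
    rw [h3, map_smul, smul_eq_mul, mul_comm]
  exact (Fintype.linearIndependent_iff.1 hp) _ h1 j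

/-- base change of the constants -/
theorem bc {K E Ω : Type} [Field K] [Field E] [Algebra K E] [Field Ω] (hE : Pur K E)
    (ψ : K →+* Ω) :
    ∃ (E' : Type) (_ : Field E') (_ : Algebra Ω E') (Φ : E →+* E'),
      (∀ a, Φ (algebraMap K E a) = algebraMap Ω E' (ψ a)) ∧ Pur Ω E' ∧
      ∀ (n : ℕ) (b : Fin n → E), LinearIndependent K b → LinearIndependent Ω (Φ ∘ b) := by
  classical
  obtain ⟨n, x, hx, hx'⟩ := hE
  let e : FractionRing (MvPolynomial (Fin n) K) ≃ₐ[K] E :=
    (hx.aevalEquivField.trans (IntermediateField.equivOfEq hx')).trans IntermediateField.topEquiv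
  let g : MvPolynomial (Fin n) K →+* FractionRing (MvPolynomial (Fin n) Ω) :=
    (algebraMap (MvPolynomial (Fin n) Ω) _).comp (MvPolynomial.map ψ)
  have hg : Function.Injective g :=
    (IsFractionRing.injective _ _).comp (MvPolynomial.map_injective ψ ψ.injective)
  let Φ₀ : FractionRing (MvPolynomial (Fin n) K) →+* FractionRing (MvPolynomial (Fin n) Ω) :=
    IsFractionRing.lift hg
  have hΦ₀ : ∀ p : MvPolynomial (Fin n) K, Φ₀ (algebraMap _ _ p) =
      algebraMap (MvPolynomial (Fin n) Ω) _ (MvPolynomial.map ψ p) := fun p =>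
    IsFractionRing.lift_algebraMap hg p
  refine ⟨FractionRing (MvPolynomial (Fin n) Ω), inferInstance, inferInstance,
    Φ₀.comp (e.symm : E →+* FractionRing (MvPolynomial (Fin n) K)), ?_, pur_frac Ω (Fin n), ?_⟩
  · intro a
    show Φ₀ (e.symm (algebraMap K E a)) = _
    rw [e.symm.commutes, IsScalarTower.algebraMap_apply K (MvPolynomial (Fin n) K), hΦ₀,
      MvPolynomial.algebraMap_eq, MvPolynomial.map_C,
      IsScalarTower.algebraMap_apply Ω (MvPolynomial (Fin n) Ω), MvPolynomial.algebraMap_eq]
  · intro m b hb
    obtain ⟨q, hq⟩ := IsLocalization.exist_integer_multiples_of_finset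
      (nonZeroDivisors (MvPolynomial (Fin n) K))
      (Finset.univ.image fun j => e.symm (b j))
    have h1 : ∀ j, ∃ p : MvPolynomial (Fin n) K, algebraMap _ _ p =
        algebraMap _ (FractionRing (MvPolynomial (Fin n) K)) (q : MvPolynomial (Fin n) K) *
          e.symm (b j) := by
      intro j
      obtain ⟨p, hp⟩ := hq (e.symm (b j)) (Finset.mem_image.2 ⟨j, Finset.mem_univ j, rfl⟩)
      exact ⟨p, by rw [hp, Algebra.smul_def]⟩
    choose p hp using h1
    have hq0 : algebraMap _ (FractionRing (MvPolynomial (Fin n) K))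
        (q : MvPolynomial (Fin n) K) ≠ 0 := by
      rw [Ne, IsFractionRing.to_map_eq_zero_iff]
      exact nonZeroDivisors.ne_zero q.2
    have hpi : LinearIndependent K p := by
      rw [Fintype.linearIndependent_iff]
      intro c hc
      apply (Fintype.linearIndependent_iff.1 hb) c
      have h2 : ∑ j, c j • algebraMap (MvPolynomial (Fin n) K)
          (FractionRing (MvPolynomial (Fin n) K)) (p j) = 0 := by
        have h3 := congrArg (algebraMap (MvPolynomial (Fin n) K)
          (FractionRing (MvPolynomial (Fin n) K))) hc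
        rw [map_sum, map_zero] at h3
        rw [← h3]
        refine Finset.sum_congr rfl fun j _ => ?_
        rw [Algebra.smul_def, Algebra.smul_def, map_mul,
          ← IsScalarTower.algebraMap_apply K (MvPolynomial (Fin n) K)]
      have h4 : algebraMap _ (FractionRing (MvPolynomial (Fin n) K))
          (q : MvPolynomial (Fin n) K) * e.symm (∑ j, c j • b j) = 0 := by
        rw [map_sum, Finset.mul_sum, ← h2]
        refine Finset.sum_congr rfl fun j _ => ?_
        rw [map_smul, hp, mul_smul_comm]
      have h5 := (mul_eq_zero.1 h4).resolve_left hq0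
      exact (map_eq_zero_iff e.symm e.symm.injective).1 h5
    have hmi := indep_map ψ p hpi
    rw [Fintype.linearIndependent_iff]
    intro ω hω
    apply (Fintype.linearIndependent_iff.1 hmi) ω
    apply IsFractionRing.injective (MvPolynomial (Fin n) Ω) (FractionRing (MvPolynomial (Fin n) Ω))
    rw [map_zero, map_sum]
    have h6 : ∀ j, algebraMap (MvPolynomial (Fin n) Ω) (FractionRing (MvPolynomial (Fin n) Ω))
        (ω j • MvPolynomial.map ψ (p j)) = Φ₀ (algebraMap _ _ (q : MvPolynomial (Fin n) K)) *
          (ω j • (Φ₀ (e.symm (b j)))) := by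
      intro j
      rw [Algebra.smul_def, map_mul, ← hΦ₀, hp, map_mul,
        ← IsScalarTower.algebraMap_apply Ω (MvPolynomial (Fin n) Ω), Algebra.smul_def]
      ring
    rw [Finset.sum_congr rfl fun j _ => h6 j, ← Finset.mul_sum]
    have h7 : ∑ j, ω j • Φ₀ (e.symm (b j)) = 0 := hω
    rw [h7, mul_zero]

end Pool.Agent.Q84.UF
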