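import Pool.Agent.Q84.UF.Inter

/-! The intersection theorem. -/

set_option autoImplicit false

namespace Pool.Agent.Q84.UF

open MvPolynomial

variable {k K : Type} [Field k] [Field K] [Algebra k K]

/-- Let `K` be the function field of a variety `X` and `L` that of the base of a fibration
`X ⇢ B`. The generic fibre, and its base change `X ×_B X` to `K`, is unirational over `K`: there are
a field `E` of rational functions over `K` and a homomorphism `φ : K → E`, the identity on `L`, which
maps elements linearly independent over `L` to elements linearly independent over `K` (so that the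
homomorphism from `K ⊗_L K` to `E` is injective). -/
def Uni (L : IntermediateField k K) : Prop :=
  ∃ (E : Type) (_ : Field E) (_ : Algebra K E) (φ : K →+* E), Pur K E ∧
    (∀ a ∈ L, φ a = algebraMap K E a) ∧
    ∀ (n : ℕ) (b : Fin n → K), LinearIndependent L b → LinearIndependent K (φ ∘ b)

/-- the points which are used -/
def Good (M : IntermediateField k K) (E : Type) [Field E] [Algebra K E] (φ : K →+* E) : Prop :=
  Pur K E ∧ (∀ a ∈ M, φ a = algebraMap K E a) ∧ Dg E φ

/-- a point of rank at least `r` -/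
def Rk (M : IntermediateField k K) (r : ℕ) : Prop :=
  ∃ (E : Type) (_ : Field E) (_ : Algebra K E) (φ : K →+* E), Good M E φ ∧
    ∃ a : Fin r → K, AlgebraicIndependent K (φ ∘ a)

theorem rk_bound {M : IntermediateField k K} {r : ℕ} (h : Rk M r) :
    ∃ a : Fin r → K, AlgebraicIndependent k a := by
  obtain ⟨E, _, _, φ, ⟨-, hfix, -⟩, a, ha⟩ := h
  refine ⟨a, ?_⟩
  rw [algebraicIndependent_iff]
  intro p hp
  have h1 : aeval (φ ∘ a) (MvPolynomial.map (algebraMap k K) p) = φ (aeval a p) := by
    rw [aeval_def, aeval_def, MvPolynomial.hom_eval₂, MvPolynomial.eval₂_map]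
    congr 1
    ext x
    exact (hfix _ (M.algebraMap_mem x)).symm
  rw [hp, map_zero] at h1
  have h2 := (algebraicIndependent_iff.1 ha) _ h1
  exact (map_eq_zero_iff _ (MvPolynomial.map_injective _ (algebraMap k K).injective)).1 h2

theorem dg_of {L : IntermediateField k K} {E : Type} [Field E] [Algebra K E] {φ : K →+* E}
    (hfix : ∀ a ∈ L, φ a = algebraMap K E a)
    (hind : ∀ (n : ℕ) (b : Fin n → K), LinearIndependent L b → LinearIndependent K (φ ∘ b)) :
    Dg E φ := by
  intro ι _ c a h
  obtain ⟨r, s, κ, -, hs, hκ⟩ := pivot (K := L) a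
  have h3 : ∑ l, (∑ j, c j * (κ j l : K)) • (φ ∘ (a ∘ s)) l = 0 := by
    rw [← h]
    have h4 : ∀ j, c j • φ (a j) = ∑ l, (c j * (κ j l : K)) • φ (a (s l)) := by
      intro j
      rw [hκ j, map_sum, Finset.smul_sum]
      refine Finset.sum_congr rfl fun l _ => ?_
      have h5 : φ (κ j l • a (s l)) = (κ j l : K) • φ (a (s l)) := by
        rw [Algebra.smul_def, Algebra.smul_def, map_mul]
        congr 1
        exact hfix _ (κ j l).2
      rw [h5, mul_smul]
    rw [Finset.sum_congr rfl fun j _ => h4 j, Finset.sum_comm]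
    refine Finset.sum_congr rfl fun l _ => ?_
    rw [Finset.sum_smul]
    rfl
  have h5 := Fintype.linearIndependent_iff.1 (hind r _ hs) _ h3
  have h6 : ∀ j, c j * a j = ∑ l, (c j * (κ j l : K)) * a (s l) := by
    intro j
    rw [hκ j, Finset.mul_sum]
    refine Finset.sum_congr rfl fun l _ => ?_
    rw [Algebra.smul_def]
    show c j * ((κ j l : K) * a (s l)) = _
    ring
  rw [Finset.sum_congr rfl fun j _ => h6 j, Finset.sum_comm]
  refine Finset.sum_eq_zero fun l _ => ?_
  rw [← Finset.sum_mul, h5 l, zero_mul]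

theorem mem_of_fix {L : IntermediateField k K} {E : Type} [Field E] [Algebra K E] {φ : K →+* E}
    (hind : ∀ (n : ℕ) (b : Fin n → K), LinearIndependent L b → LinearIndependent K (φ ∘ b))
    {c : K} (hc : φ c = algebraMap K E c) : c ∈ L := by
  by_contra hcL
  have h1 : LinearIndependent L ![1, c] := by
    rw [LinearIndependent.pair_iff]
    intro s t hst
    rw [Algebra.smul_def, Algebra.smul_def, mul_one] at hst
    have ht : t = 0 := by
      by_contra ht
      apply hcL
      have ht' : (t : K) ≠ 0 := fun h => ht (Subtype.ext h)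
      have h2 : c = ((-s / t : L) : K) := by
        have h3 : (s : K) + t * c = 0 := hst
        push_cast
        field_simp
        linear_combination h3
      rw [h2]
      exact (-s / t : L).2
    rw [ht, map_zero, zero_mul, add_zero] at hst
    exact ⟨Subtype.ext hst, ht⟩
  have h2 := hind 2 _ h1
  have h3 := Fintype.linearIndependent_iff.1 h2 ![-c, 1] (by
    rw [Fin.sum_univ_two]
    simp [hc, Algebra.smul_def])
  have h4 := h3 1
  simp at h4

/-- a second point with fewer relations has the same relations -/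
theorem back {M : IntermediateField k K} {E E' : Type} [Field E] [Algebra K E] [Field E']
    [Algebra K E'] {φ : K →+* E} {φ' : K →+* E'} {r : ℕ} (a : Fin r → K)
    (ha : AlgebraicIndependent K (φ ∘ a))
    (hmax : ∀ r', Rk M r' → r' ≤ r) (hg : Good M E' φ') (h : RelLe φ' φ) : RelLe φ φ' := by
  classical
  have hle := fun d => h.ev d
  let a' : Fin r → MonoidAlgebra K K := fun i => MonoidAlgebra.single (a i) 1
  have hc : ∀ {E : Type} [Field E] [Algebra K E] (φ : K →+* E), ev φ ∘ a' = φ ∘ a := by
    intro E _ _ φ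
    funext i
    show ev φ (MonoidAlgebra.single (a i) 1) = _
    rw [ev_single, one_smul]
    rfl
  have hev : ∀ {E : Type} [Field E] [Algebra K E] (φ : K →+* E) (P : MvPolynomial (Fin r) K),
      ev φ (aeval a' P) = aeval (φ ∘ a) P := by
    intro E _ _ φ P
    rw [← AlgHom.comp_apply, MvPolynomial.comp_aeval, ← hc]
    rfl
  have ha1 : AlgebraicIndependent K (φ' ∘ a) := by
    rw [algebraicIndependent_iff]
    intro P hP
    rw [← hev] at hP
    have h1 := hle _ hP
    rw [hev] at h1
    exact (algebraicIndependent_iff.1 ha) P h1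
  have halg : ∀ b : K, IsAlgebraic (Algebra.adjoin K (Set.range (φ' ∘ a))) (φ' b) := by
    intro b
    by_contra hb
    have h1 := (ha1.option_iff_transcendental (φ' b)).2 hb
    have h2 : AlgebraicIndependent K (φ' ∘ (fun i : Fin (r + 1) =>
        (finSuccEquivLast i).elim b a)) := by
      have h3 := h1.comp (finSuccEquivLast (n := r)) (finSuccEquivLast (n := r)).injective
      convert h3 using 1
      funext i
      simp only [Function.comp_apply]
      cases finSuccEquivLast i <;> rfl
    have h4 := hmax (r + 1) ⟨E', inferInstance, inferInstance, φ', hg, _, h2⟩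
    omega
  refine RelLe.of_ev fun d hd => stable (ev φ) (ev φ') hle a' (by rw [hc]; exact ha) ?_ d hd
  intro d
  rw [hc]
  induction d using MonoidAlgebra.induction_linear with
  | zero => rw [map_zero]; exact isAlgebraic_zero
  | add f g hf hg => rw [map_add]; exact hf.add hg
  | single b c =>
    rw [ev_single, Algebra.smul_def]
    refine IsAlgebraic.mul ?_ (halg b)
    exact isAlgebraic_algebraMap (R := Algebra.adjoin K (Set.range (φ' ∘ a)))
      (algebraMap K _ c)

/-- **The intersection theorem.** -/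
theorem inter {N : ℕ} (hN : ∀ (r : ℕ) (a : Fin r → K), AlgebraicIndependent k a → r ≤ N)
    {I : Type} (L : I → IntermediateField k K) (hL : ∀ i, Uni (L i)) : Uni (⨅ i, L i) := by
  classical
  obtain ⟨M, hM⟩ : ∃ M, M = ⨅ i, L i := ⟨_, rfl⟩
  rw [← hM]
  have hML : ∀ i, ∀ x ∈ M, x ∈ L i := by
    intro i x hx
    rw [hM] at hx
    exact (iInf_le L i) hx
  have h0 : Rk M 0 := ⟨K, inferInstance, inferInstance, RingHom.id K,
    ⟨pur_self K, fun _ _ => rfl, fun ι _ c a h => h⟩, Fin.elim0,
    algebraicIndependent_empty_type⟩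
  have hb : ∀ r, Rk M r → r ≤ N := by
    intro r hr
    obtain ⟨a, ha⟩ := rk_bound hr
    exact hN r a ha
  obtain ⟨r, hr⟩ : ∃ r, r = Nat.findGreatest (Rk M) N := ⟨_, rfl⟩
  have hrr : Rk M r := by
    rw [hr]
    exact Nat.findGreatest_spec (Nat.zero_le N) h0
  have hmax : ∀ r', Rk M r' → r' ≤ r := by
    intro r' h
    rw [hr]
    exact Nat.le_findGreatest (hb r' h) h
  obtain ⟨E, _, _, φ, hg, a, ha⟩ := hrr
  have hgP := hg.1
  have hgF := hg.2.1
  have hgD := hg.2.2
  -- the key statement
  have key : ∀ i, ∃ (Ei : Type) (_ : Field Ei) (_ : Algebra K Ei) (φi : K →+* Ei)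
      (E1 : Type) (_ : Field E1) (_ : Algebra Ei E1) (_ : Algebra K E1) (Φ : E →+* E1),
      (∀ c, φi c = algebraMap K Ei c → c ∈ L i) ∧
      (∀ c : K, algebraMap K E1 c = algebraMap Ei E1 (algebraMap K Ei c)) ∧
      (∀ c, Φ (algebraMap K E c) = algebraMap Ei E1 (φi c)) ∧
      (∀ (n : ℕ) (b : Fin n → E), LinearIndependent K b → LinearIndependent Ei (Φ ∘ b)) ∧
      RelLe φ (Φ.comp φ) := by
    intro i
    obtain ⟨Ei, _, _, φi, hPi, hFi, hBi⟩ := hL i
    have hDi := dg_of hFi hBi
    obtain ⟨E1, _, _, Φ, hΦ, hP1, hbc⟩ := bc hgP φi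
    let _ : Algebra K E1 := ((algebraMap Ei E1).comp (algebraMap K Ei)).toAlgebra
    have hT1 : IsScalarTower K Ei E1 := IsScalarTower.of_algebraMap_eq fun _ => rfl
    have hsm : ∀ (c : K) (x : E1), c • x = (algebraMap K Ei c) • x := by
      intro c x
      rw [Algebra.smul_def, Algebra.smul_def]
      rfl
    have hχ : Good M E1 (Φ.comp φ) := by
      refine ⟨hPi.trans hP1, fun m hm => ?_, ?_⟩
      · show Φ (φ m) = algebraMap Ei E1 (algebraMap K Ei m)
        rw [hgF m hm, hΦ, hFi m (hML i m hm)]
      · intro ι _ c b h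
        have h1 := del_right φi φ hgD Φ hΦ hbc (fun j => algebraMap K Ei (c j)) b (by
          rw [← h]
          exact Finset.sum_congr rfl fun j _ => (hsm _ _).symm)
        apply hDi ι c b
        rw [← h1]
        exact Finset.sum_congr rfl fun j _ => Algebra.smul_def _ _
    obtain ⟨E2, _, _, Φ2, hΦ2, hP2, hbc2⟩ := bc hχ.1 φ
    let _ : Algebra K E2 := ((algebraMap E E2).comp (algebraMap K E)).toAlgebra
    have hT2 : IsScalarTower K E E2 := IsScalarTower.of_algebraMap_eq fun _ => rfl
    have hsm2 : ∀ (c : K) (x : E2), c • x = (algebraMap K E c) • x := by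
      intro c x
      rw [Algebra.smul_def, Algebra.smul_def]
      rfl
    have hdel : RelLe (Φ2.comp (Φ.comp φ)) φ := by
      intro ι _ c b h
      have h1 := del_right φ (Φ.comp φ) hχ.2.2 Φ2 hΦ2 hbc2 (fun j => algebraMap K E (c j)) b (by
        rw [← h]
        exact Finset.sum_congr rfl fun j _ => (hsm2 _ _).symm)
      rw [← h1]
      exact Finset.sum_congr rfl fun j _ => Algebra.smul_def _ _
    have hχ2 : Good M E2 (Φ2.comp (Φ.comp φ)) := by
      refine ⟨hgP.trans hP2, fun m hm => ?_, fun ι _ c b h => hgD ι c b (hdel ι c b h)⟩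
      show Φ2 ((Φ.comp φ) m) = algebraMap E E2 (algebraMap K E m)
      rw [hχ.2.1 m hm, hΦ2, hgF m hm]
    have h1 : RelLe φ (Φ2.comp (Φ.comp φ)) := back a ha hmax hχ2 hdel
    have h2 : RelLe (Φ2.comp (Φ.comp φ)) (Φ.comp φ) := by
      intro ι _ c b h
      refine del_left φ hgD (Φ.comp φ) Φ2 hΦ2 hbc2 c b ?_
      rw [← h]
      exact Finset.sum_congr rfl fun j _ => (hsm2 _ _).symm
    exact ⟨Ei, inferInstance, inferInstance, φi, E1, inferInstance, inferInstance, inferInstance,
      Φ, fun c hc => mem_of_fix hBi hc, fun c => rfl, hΦ, hbc,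
      fun ι _ c b h => h2 ι c b (h1 ι c b h)⟩
  refine ⟨E, inferInstance, inferInstance, φ, hgP, hgF, fun n b hbM => ?_⟩
  obtain ⟨r', s, c, hs, hind, hc⟩ := pivot (K := K) (fun l => φ (b l))
  have hcM : ∀ l j, c l j ∈ M := by
    intro l j
    rw [hM, ← SetLike.mem_coe, IntermediateField.coe_iInf, Set.mem_iInter]
    intro i
    rw [SetLike.mem_coe]
    obtain ⟨Ei, _, _, φi, E1, _, _, _, Φ, hmem, halg, hΦ, hbc, hrel⟩ := key i
    apply hmem
    have h1 := hrel (Option (Fin r')) (fun o => o.elim (-1) (c l))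
      (fun o => o.elim (b l) (fun j => b (s j))) (by
        rw [Fintype.sum_option]
        simp only [Option.elim]
        rw [hc l, neg_smul, one_smul, neg_add_cancel])
    rw [Fintype.sum_option] at h1
    simp only [Option.elim] at h1
    have h2 : Φ (φ (b l)) = ∑ j, (φi (c l j)) • Φ (φ (b (s j))) := by
      rw [hc l, map_sum]
      refine Finset.sum_congr rfl fun j _ => ?_
      rw [Algebra.smul_def, map_mul, hΦ, ← Algebra.smul_def]
    have h3 : ∑ j, (φi (c l j) - algebraMap K Ei (c l j)) •
        (Φ ∘ ((fun l => φ (b l)) ∘ s)) j = 0 := by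
      simp only [sub_smul, Finset.sum_sub_distrib]
      rw [sub_eq_zero]
      have h4 : ∑ j, (algebraMap K Ei (c l j)) • (Φ ∘ ((fun l => φ (b l)) ∘ s)) j =
          ∑ j, c l j • (Φ.comp φ) (b (s j)) := by
        refine Finset.sum_congr rfl fun j _ => ?_
        rw [Algebra.smul_def, Algebra.smul_def, halg]
        rfl
      rw [h4]
      have h5 : ∑ j, (φi (c l j)) • (Φ ∘ ((fun l => φ (b l)) ∘ s)) j = Φ (φ (b l)) := h2.symm
      rw [h5]
      have h6 : (-1 : K) • (Φ.comp φ) (b l) = - Φ (φ (b l)) := by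
        rw [neg_smul, one_smul]
        rfl
      rw [h6] at h1
      linear_combination -h1
    have h7 := Fintype.linearIndependent_iff.1 (hbc r' _ hind) _ h3 j
    exact sub_eq_zero.1 h7
  have hbl : ∀ l, b l = ∑ j, c l j * b (s j) := by
    intro l
    apply φ.injective
    rw [hc l, map_sum]
    refine Finset.sum_congr rfl fun j _ => ?_
    rw [map_mul, hgF _ (hcM l j), Algebra.smul_def]
  have hsurj : Function.Surjective s := by
    intro l
    by_contra hl
    have h1 : l ∉ Set.range s := hl
    apply hbM.notMem_span_image h1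
    rw [hbl l]
    refine Submodule.sum_mem _ fun j _ => ?_
    have h2 : c l j * b (s j) = (⟨c l j, hcM l j⟩ : M) • b (s j) := by
      rw [Algebra.smul_def]
      rfl
    rw [h2]
    exact Submodule.smul_mem _ _ (Submodule.subset_span ⟨s j, ⟨j, rfl⟩, rfl⟩)
  let e := Equiv.ofBijective s ⟨hs, hsurj⟩
  have h8 := hind.comp e.symm e.symm.injective
  have h9 : φ ∘ b = ((fun l => φ (b l)) ∘ s) ∘ e.symm := by
    funext l
    show φ (b l) = φ (b (s (e.symm l)))
    rw [show s (e.symm l) = l from e.apply_symm_apply l]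
  rw [h9]
  exact h8

end Pool.Agent.Q84.UF
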