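import Pool.Agent.Q84.UF.Spec
import Pool.Agent.Q84.UF.Main
import Pool.Agent.Y742.HC.Uni

/-! From the function field to points over the ground field. -/

set_option autoImplicit false

namespace Pool.Agent.Q84.UF

open MvPolynomial

/-- common denominators -/
theorem clrs {R K : Type} [CommRing R] [IsDomain R] [Field K] [Algebra R K] [IsFractionRing R K]
    {m : ℕ} (S : Finset ℕ) (Q : ℕ → MvPolynomial (Fin m) K) :
    ∃ b : R, b ≠ 0 ∧ ∃ Q' : ℕ → MvPolynomial (Fin m) R, ∀ l ∈ S,
      MvPolynomial.map (algebraMap R K) (Q' l) = C (algebraMap R K b) * Q l := by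
  classical
  induction S using Finset.induction_on with
  | empty => exact ⟨1, one_ne_zero, fun _ => 0, fun l hl => absurd hl (Finset.notMem_empty l)⟩
  | insert a S ha ih =>
    obtain ⟨b, hb, Q', hQ'⟩ := ih
    obtain ⟨c, hc, q, hq⟩ := clr (R := R) (Q a)
    refine ⟨b * c, mul_ne_zero hb hc, fun l => if l = a then C b * q else C c * Q' l, ?_⟩
    intro l hl
    rcases Finset.mem_insert.1 hl with rfl | hl'
    · beta_reduce
      rw [if_pos rfl, map_mul, map_C, hq, map_mul, C_mul]
      ring
    · have hla : l ≠ a := fun h => ha (h ▸ hl')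
      beta_reduce
      rw [if_neg hla, map_mul, map_C, hQ' l hl', map_mul, C_mul]
      ring

theorem ai_of_ind {k K E : Type} [Field k] [Field K] [Algebra k K] [Field E] [Algebra K E]
    {n : ℕ} {y : Fin n → K} (hy : AlgebraicIndependent k y) {φ : K →+* E}
    (hind : ∀ (n : ℕ) (b : Fin n → K), LinearIndependent (⊥ : IntermediateField k K) b →
      LinearIndependent K (φ ∘ b)) : AlgebraicIndependent K (φ ∘ y) := by
  classical
  rw [algebraicIndependent_iff]
  intro P hP
  let e := P.support.equivFin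
  let b : Fin P.support.card → K := fun i =>
    aeval y (monomial (e.symm i : Fin n →₀ ℕ) (1 : k))
  have hb : LinearIndependent k b := by
    have h1 := (MvPolynomial.basisMonomials (Fin n) k).linearIndependent.map'
      (aeval y : MvPolynomial (Fin n) k →ₐ[k] K).toLinearMap
      (LinearMap.ker_eq_bot_of_injective hy)
    have h2 := h1.comp (fun i : Fin P.support.card => (e.symm i : Fin n →₀ ℕ))
      (Subtype.val_injective.comp e.symm.injective)
    have h3 : b = ((aeval y : MvPolynomial (Fin n) k →ₐ[k] K).toLinearMap ∘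
        basisMonomials (Fin n) k) ∘ fun i : Fin P.support.card => (e.symm i : Fin n →₀ ℕ) := by
      funext i
      simp [b]
    rw [h3]
    exact h2
  have hb' : LinearIndependent (⊥ : IntermediateField k K) b := by
    rw [Fintype.linearIndependent_iff] at hb ⊢
    intro g hg i
    have h3 : ∀ i, ∃ a : k, algebraMap k K a = (g i : K) := fun i =>
      IntermediateField.mem_bot.1 (g i).2
    choose a ha using h3
    have h4 := hb a (by
      rw [← hg]
      refine Finset.sum_congr rfl fun i _ => ?_
      rw [Algebra.smul_def, Algebra.smul_def, ha]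
      rfl) i
    apply Subtype.ext
    rw [← ha, h4, map_zero]
    rfl
  have h5 := Fintype.linearIndependent_iff.1 (hind _ b hb') (fun i => coeff (e.symm i) P) (by
    rw [← hP]
    conv_rhs => rw [P.as_sum, map_sum, ← Finset.sum_coe_sort]
    rw [← Equiv.sum_comp e.symm]
    refine Finset.sum_congr rfl fun i _ => ?_
    rw [aeval_monomial, Algebra.smul_def]
    congr 1
    show φ (aeval y (monomial (e.symm i : Fin n →₀ ℕ) (1 : k))) = _
    rw [aeval_monomial, map_one, one_mul, Finsupp.prod, Finsupp.prod, map_prod]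
    exact Finset.prod_congr rfl fun j _ => map_pow _ _ _)
  by_contra hne
  obtain ⟨μ, hμ⟩ := MvPolynomial.ne_zero_iff.1 hne
  have h6 := h5 (e ⟨μ, MvPolynomial.mem_support_iff.2 hμ⟩)
  rw [Equiv.symm_apply_apply] at h6
  exact hμ h6

theorem down {k K : Type} [Field k] [Field K] [Algebra k K] {N : ℕ} (x : Fin N → K)
    (hx : IntermediateField.adjoin k (Set.range x) = ⊤)
    (h : Uni (⊥ : IntermediateField k K)) :
    ∃ G : MvPolynomial (Fin N) k, aeval x G ≠ 0 ∧
      ∀ (L : Type) [Field L] [Algebra k L] (c₀ : Fin N → L),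
      (∀ P : MvPolynomial (Fin N) k, aeval x P = 0 → aeval c₀ P = 0) →
      aeval c₀ G ≠ 0 → ∃ n : ℕ, Nonempty (K →ₐ[k] FractionRing (MvPolynomial (Fin n) L)) := by
  classical
  obtain ⟨E, _, _, φ, ⟨m, t, ht, ht'⟩, hfix, hind⟩ := h
  -- the ring of constants
  let R : Subalgebra k K := (aeval x : MvPolynomial (Fin N) k →ₐ[k] K).range
  have hRF : IsFractionRing R K := by
    refine IsFractionRing.of_field R K (fun z => ?_)
    have hz : z ∈ IntermediateField.adjoin k (Set.range x) := by rw [hx]; trivial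
    rw [IntermediateField.mem_adjoin_range_iff] at hz
    obtain ⟨r, s, hrs⟩ := hz
    exact ⟨⟨aeval x r, r, rfl⟩, ⟨aeval x s, s, rfl⟩, hrs⟩
  have htB : IsTranscendenceBasis K t := by
    rw [ht.isTranscendenceBasis_iff_isAlgebraic, ← IntermediateField.isAlgebraic_adjoin_iff_top,
      ht']
    exact ⟨fun a => isAlgebraic_algebraMap (⟨a, trivial⟩ : (⊤ : IntermediateField K E))⟩
  -- a transcendence basis of K over k
  obtain ⟨n, u, hu⟩ : ∃ (n : ℕ) (u : Fin n → Fin N), IsTranscendenceBasis k (x ∘ u) := by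
    have halg : Algebra.IsAlgebraic (Algebra.adjoin k (Set.range x)) K := by
      rw [← IntermediateField.isAlgebraic_adjoin_iff_top, hx]
      exact ⟨fun a => isAlgebraic_algebraMap (⟨a, trivial⟩ : (⊤ : IntermediateField k K))⟩
    obtain ⟨s, hs, hs'⟩ := exists_isTranscendenceBasis_subset (R := k) (Set.range x)
    have hfin : s.Finite := (Set.finite_range x).subset hs
    have : Finite s := hfin
    let e := Finite.equivFin s
    choose v hv using fun a : s => hs a.2
    refine ⟨Nat.card s, fun i => v (e.symm i), ?_⟩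
    have h1 : x ∘ (fun i => v (e.symm i)) = ((↑) : s → K) ∘ e.symm := by
      funext i
      exact hv _
    rw [h1]
    exact hs'.comp_equiv e.symm
  obtain ⟨y, hy⟩ : ∃ y, y = x ∘ u := ⟨_, rfl⟩
  rw [← hy] at hu
  have hφy : AlgebraicIndependent K (φ ∘ y) := ai_of_ind hu.1 hind
  -- completed to a transcendence basis of E
  obtain ⟨v, w, hv, hwi, hw⟩ : ∃ (v : Fin m → E) (w : Fin n → Fin m), IsTranscendenceBasis K v ∧
      Function.Injective w ∧ ∀ i, φ (y i) = v (w i) := by
    have halg : Algebra.IsAlgebraic (Algebra.adjoin K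
        (Set.range (φ ∘ y) ∪ Set.range t : Set E)) E := by
      rw [← IntermediateField.isAlgebraic_adjoin_iff_top]
      have h1 : IntermediateField.adjoin K (Set.range (φ ∘ y) ∪ Set.range t : Set E) = ⊤ := by
        rw [eq_top_iff, ← ht']
        exact IntermediateField.adjoin.mono _ _ _ Set.subset_union_right
      rw [h1]
      exact ⟨fun a => isAlgebraic_algebraMap (⟨a, trivial⟩ : (⊤ : IntermediateField K E))⟩
    obtain ⟨U, hU1, hU2, hU⟩ := exists_isTranscendenceBasis_between (R := K)
      (Set.range (φ ∘ y)) (Set.range (φ ∘ y) ∪ Set.range t) Set.subset_union_left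
      (show AlgebraicIndepOn K id (Set.range (φ ∘ y)) from hφy.coe_range)
    have hc := hU.cardinalMk_eq htB
    rw [Cardinal.mk_fin] at hc
    have hUf : Finite U := Cardinal.lt_aleph0_iff_finite.1 (by
      rw [hc]; exact Cardinal.natCast_lt_aleph0)
    have hcard : Nat.card U = m := by
      have := congrArg Cardinal.toNat hc
      simpa [Nat.card] using this
    let e : U ≃ Fin m := (Finite.equivFin U).trans (finCongr hcard)
    refine ⟨(↑) ∘ e.symm, fun i => e ⟨φ (y i), hU1 ⟨i, rfl⟩⟩, hU.comp_equiv e.symm, ?_, ?_⟩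
    · intro i j hij
      have h2 := congrArg Subtype.val (e.injective hij)
      exact hφy.injective h2
    · intro i
      simp
  -- the relations
  have hrel : ∀ i : Fin m, ∃ (d : ℕ) (G : ℕ → MvPolynomial (Fin m) R) (l₀ : ℕ), l₀ ≤ d ∧
      vl R (K := K) v (G l₀) ≠ 0 ∧
      ∑ l ∈ Finset.range (d + 1), vl R (K := K) v (G l) * t i ^ l = 0 := by
    intro i
    have hal : Algebra.IsAlgebraic (Algebra.adjoin K (Set.range v)) E := hv.isAlgebraic
    obtain ⟨q, hq0, hq⟩ := hal.isAlgebraic (t i)
    have hQ : ∀ l, ∃ Q : MvPolynomial (Fin m) K, aeval v Q = (q.coeff l : E) := by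
      intro l
      have h1 : ∀ z ∈ Algebra.adjoin K (Set.range v), ∃ Q : MvPolynomial (Fin m) K,
          aeval v Q = z := by
        intro z hz
        rw [Algebra.adjoin_range_eq_range_aeval] at hz
        exact hz
      exact h1 _ (q.coeff l).2
    choose Q hQ using hQ
    obtain ⟨b, hb, Q', hQ'⟩ := clrs (R := R) (Finset.range (q.natDegree + 1)) Q
    have hb' : algebraMap K E (algebraMap R K b) ≠ 0 := by
      rw [Ne, map_eq_zero_iff _ (algebraMap K E).injective, IsFractionRing.to_map_eq_zero_iff]
      exact hb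
    have hval : ∀ l ∈ Finset.range (q.natDegree + 1), vl R (K := K) v (Q' l) =
        algebraMap K E (algebraMap R K b) * (q.coeff l : E) := by
      intro l hl
      rw [vl_apply, hQ' l hl, map_mul, aeval_C, hQ]
    refine ⟨q.natDegree, Q', q.natDegree, le_rfl, ?_, ?_⟩
    · rw [hval _ (Finset.self_mem_range_succ _)]
      refine mul_ne_zero hb' fun h0 => ?_
      exact (Polynomial.leadingCoeff_ne_zero.2 hq0) (Subtype.ext h0)
    · rw [Polynomial.aeval_eq_sum_range] at hq
      rw [Finset.sum_congr rfl fun l hl => by rw [hval l hl, mul_assoc], ← Finset.mul_sum]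
      have h2 : ∑ l ∈ Finset.range (q.natDegree + 1), (q.coeff l : E) * t i ^ l = 0 := by
        rw [← hq]
        exact Finset.sum_congr rfl fun l _ => by rw [Algebra.smul_def]; rfl
      rw [h2, mul_zero]
  choose d G l₀ hl₀ hG hrel using hrel
  -- the specialization
  let T : Finset E := Finset.univ.image (fun i => φ (x i)) ∪ Finset.univ.image v ∪
    Finset.univ.image fun i => vl R (K := K) v (G i (l₀ i))
  obtain ⟨g, hg, hspec⟩ := spec (R := R) ht ht' T
  obtain ⟨G₀, hG₀⟩ : ∃ G₀ : MvPolynomial (Fin N) k, aeval x G₀ = (g : K) := g.2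
  refine ⟨G₀, ?_, fun L _ _ c₀ hc₀ hc₁ => ?_⟩
  · rw [hG₀]
    exact fun h0 => hg (Subtype.ext h0)
  let ρ : MvPolynomial (Fin N) k →ₐ[k] R := (aeval x : MvPolynomial (Fin N) k →ₐ[k] K).rangeRestrict
  have hρs : Function.Surjective ρ := AlgHom.rangeRestrict_surjective _
  obtain ⟨σ, hσ⟩ : ∃ σ : R →+* L, ∀ P, σ (ρ P) = aeval c₀ P := by
    have hker : RingHom.ker (ρ : MvPolynomial (Fin N) k →+* R) ≤
        RingHom.ker ((aeval c₀ : MvPolynomial (Fin N) k →ₐ[k] L) :
          MvPolynomial (Fin N) k →+* L) := by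
      intro P hP
      rw [RingHom.mem_ker] at hP ⊢
      exact hc₀ P (congrArg Subtype.val hP)
    exact ⟨(ρ : MvPolynomial (Fin N) k →+* R).liftOfRightInverse _
      (Function.rightInverse_surjInv hρs) ⟨_, hker⟩, fun P =>
      (ρ : MvPolynomial (Fin N) k →+* R).liftOfRightInverse_comp_apply _
        (Function.rightInverse_surjInv hρs) ⟨_, hker⟩ P⟩
  have hσk : ∀ a : k, σ (algebraMap k R a) = algebraMap k L a := by
    intro a
    have h1 := hσ (C a)
    rw [aeval_C] at h1
    rw [← h1]
    congr 1
    exact (ρ.commutes a).symm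
  have hσg : σ g ≠ 0 := by
    have h1 : g = ρ G₀ := Subtype.ext hG₀.symm
    rw [h1, hσ]
    exact hc₁
  obtain ⟨O, _, j, α, τ, hj, hjα, hτα, hO⟩ := hspec L σ hσg
  refine ⟨m, ?_⟩
  have hz : ∀ i, ∃ z : O, j z = φ (x i) := fun i => by
    obtain ⟨z, hz, -⟩ := hO (φ (x i)) (by simp [T])
    exact ⟨z, hz⟩
  choose z hz using hz
  have hv' : ∀ i, ∃ z : O, j z = v i := fun i => by
    obtain ⟨z, hz, -⟩ := hO (v i) (by simp [T])
    exact ⟨z, hz⟩
  choose v' hv' using hv'
  let κ : k →+* O := (α.comp MvPolynomial.C).comp (algebraMap k R)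
  have hjκ : ∀ a, j (κ a) = φ (algebraMap k K a) := by
    intro a
    show j (α (C (algebraMap k R a))) = _
    rw [hjα, vl_apply, map_C, aeval_C, hfix _ ((⊥ : IntermediateField k K).algebraMap_mem a)]
    rfl
  have hτκ : ∀ a, τ (κ a) = algebraMap k (FractionRing (MvPolynomial (Fin m) L)) a := by
    intro a
    show τ (α (C (algebraMap k R a))) = _
    rw [hτα, map_C, hσk, ← MvPolynomial.algebraMap_eq,
      ← IsScalarTower.algebraMap_apply L (MvPolynomial (Fin m) L)]
    exact (IsScalarTower.algebraMap_apply k L _ a).symm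
  obtain ⟨c, hc⟩ : ∃ c : Fin N → FractionRing (MvPolynomial (Fin m) L), c = fun i => τ (z i) :=
    ⟨_, rfl⟩
  have hevj : ∀ P : MvPolynomial (Fin N) k, j (eval₂ κ z P) = φ (aeval x P) := by
    intro P
    rw [MvPolynomial.hom_eval₂, aeval_def, MvPolynomial.hom_eval₂]
    congr 1
    · ext a
      exact hjκ a
    · funext i
      exact hz i
  have hevτ : ∀ P : MvPolynomial (Fin N) k, τ (eval₂ κ z P) = aeval c P := by
    intro P
    rw [MvPolynomial.hom_eval₂, aeval_def, hc]
    congr 1
    ext a
    exact hτκ a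
  have H1 : ∀ P : MvPolynomial (Fin N) k, aeval x P = 0 → aeval c P = 0 := by
    intro P hP
    rw [← hevτ]
    have h1 : eval₂ κ z P = 0 := hj (by rw [hevj, hP, map_zero, map_zero])
    rw [h1, map_zero]
  obtain ⟨vt, hvt⟩ : ∃ vt : Fin m → FractionRing (MvPolynomial (Fin m) L),
    vt = fun i => τ (v' i) := ⟨_, rfl⟩
  have hW : ∀ p : MvPolynomial (Fin m) R,
      j (eval₂ (α.comp MvPolynomial.C) v' p) = vl R (K := K) v p := by
    intro p
    rw [MvPolynomial.hom_eval₂, vl_apply, aeval_def, MvPolynomial.eval₂_map]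
    congr 1
    · ext a
      show j (α (C a)) = _
      rw [hjα, vl_apply, map_C, aeval_C]
      rfl
    · funext i
      exact hv' i
  have hWτ : ∀ p : MvPolynomial (Fin m) R,
      τ (eval₂ (α.comp MvPolynomial.C) v' p) = aeval vt (MvPolynomial.map σ p) := by
    intro p
    rw [MvPolynomial.hom_eval₂, aeval_def, MvPolynomial.eval₂_map, hvt]
    congr 1
    ext a
    show τ (α (C a)) = _
    rw [hτα, map_C, ← MvPolynomial.algebraMap_eq,
      ← IsScalarTower.algebraMap_apply L (MvPolynomial (Fin m) L)]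
    rfl
  have halg : ∀ i, IsAlgebraic (Algebra.adjoin L (Set.range vt))
      (algebraMap (MvPolynomial (Fin m) L) (FractionRing (MvPolynomial (Fin m) L)) (X i)) := by
    intro i
    have hαX : j (α (X i)) = t i := by rw [hjα, vl_apply, map_X, aeval_X]
    have hτX : τ (α (X i)) = algebraMap (MvPolynomial (Fin m) L) _ (X i) := by rw [hτα, map_X]
    obtain ⟨W, hWd⟩ : ∃ W : ℕ → O, W = fun l => eval₂ (α.comp MvPolynomial.C) v' (G i l) :=
      ⟨_, rfl⟩
    have hWj : ∀ l, j (W l) = vl R (K := K) v (G i l) := fun l => by rw [hWd]; exact hW _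
    have h1 : ∑ l ∈ Finset.range (d i + 1), W l * α (X i) ^ l = 0 := by
      apply hj
      rw [map_sum, map_zero, ← hrel i]
      refine Finset.sum_congr rfl fun l _ => ?_
      rw [map_mul, map_pow, hWj, hαX]
    have h2 : ∑ l ∈ Finset.range (d i + 1), τ (W l) *
        (algebraMap (MvPolynomial (Fin m) L) _ (X i)) ^ l = 0 := by
      rw [← map_zero τ, ← h1, map_sum]
      refine Finset.sum_congr rfl fun l _ => ?_
      rw [map_mul, map_pow, hτX]
    have hmem : ∀ l, τ (W l) ∈ Algebra.adjoin L (Set.range vt) := by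
      intro l
      rw [Algebra.adjoin_range_eq_range_aeval, hWd]
      exact ⟨MvPolynomial.map σ (G i l), (hWτ _).symm⟩
    have hne : τ (W (l₀ i)) ≠ 0 := by
      obtain ⟨e, he, hu⟩ := hO (vl R (K := K) v (G i (l₀ i))) (by simp [T])
      have h3 : W (l₀ i) = e := hj (by rw [he, hWj])
      rw [h3]
      exact ((hu (hG i)).map τ).ne_zero
    refine ⟨∑ l ∈ Finset.range (d i + 1), Polynomial.monomial l ⟨τ (W l), hmem l⟩, ?_, ?_⟩
    · intro h0
      have h4 := congrArg (fun p => Polynomial.coeff p (l₀ i)) h0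
      simp only [Polynomial.finset_sum_coeff, Polynomial.coeff_monomial, Polynomial.coeff_zero,
        Finset.sum_ite_eq', Finset.mem_range] at h4
      rw [if_pos (by have := hl₀ i; omega)] at h4
      exact hne (congrArg Subtype.val h4)
    · rw [map_sum, ← h2]
      refine Finset.sum_congr rfl fun l _ => ?_
      rw [Polynomial.aeval_monomial]
      rfl
  have hXB : IsTranscendenceBasis L (fun i : Fin m =>
      algebraMap (MvPolynomial (Fin m) L) (FractionRing (MvPolynomial (Fin m) L)) (X i)) := by
    rw [(ai_frac L (Fin m)).isTranscendenceBasis_iff_isAlgebraic,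
      ← IntermediateField.isAlgebraic_adjoin_iff_top, adj_frac]
    exact ⟨fun a => isAlgebraic_algebraMap (⟨a, trivial⟩ :
      (⊤ : IntermediateField L (FractionRing (MvPolynomial (Fin m) L))))⟩
  have hAlg : Algebra.IsAlgebraic (Algebra.adjoin L (Set.range vt))
      (FractionRing (MvPolynomial (Fin m) L)) := by
    rw [← IntermediateField.isAlgebraic_adjoin_iff_top]
    have h3 := IntermediateField.isAlgebraic_adjoin (K := IntermediateField.adjoin L (Set.range vt))
      (S := Set.range fun i : Fin m => algebraMap (MvPolynomial (Fin m) L)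
        (FractionRing (MvPolynomial (Fin m) L)) (X i)) (by
        rintro _ ⟨i, rfl⟩
        exact (IntermediateField.isAlgebraic_adjoin_iff.2 (halg i)).isIntegral)
    refine ⟨fun e => ?_⟩
    have h4 : e ∈ IntermediateField.adjoin L (Set.range fun i : Fin m =>
        algebraMap (MvPolynomial (Fin m) L) (FractionRing (MvPolynomial (Fin m) L)) (X i)) := by
      rw [adj_frac]; trivial
    have h5 : IntermediateField.adjoin L (Set.range fun i : Fin m =>
        algebraMap (MvPolynomial (Fin m) L) (FractionRing (MvPolynomial (Fin m) L)) (X i)) ≤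
        (IntermediateField.adjoin (IntermediateField.adjoin L (Set.range vt))
          (Set.range fun i : Fin m => algebraMap (MvPolynomial (Fin m) L)
            (FractionRing (MvPolynomial (Fin m) L)) (X i))).restrictScalars L := by
      rw [IntermediateField.adjoin_le_iff]
      exact IntermediateField.subset_adjoin _ _
    have h6 := h3.isAlgebraic ⟨e, h5 h4⟩
    exact (isAlgebraic_algebraMap_iff (Subtype.val_injective)).2 h6
  have hvB : IsTranscendenceBasis L vt :=
    Algebra.IsAlgebraic.isTranscendenceBasis_of_le_trdeg_of_finite L vt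
      (hXB.cardinalMk_eq_trdeg).le
  have hcu : AlgebraicIndependent k (c ∘ u) := by
    have h1 : c ∘ u = vt ∘ w := by
      funext i
      rw [hc, hvt]
      show τ (z (u i)) = τ (v' (w i))
      congr 1
      apply hj
      rw [hz, hv', ← hw i, hy]
      rfl
    rw [h1]
    exact (hvB.1.comp w hwi).restrictScalars (algebraMap k L).injective
  have H2 : ∀ P : MvPolynomial (Fin N) k, aeval c P = 0 → aeval x P = 0 := by
    intro P hP
    by_contra hne
    obtain ⟨q, hq0, hq⟩ := (hu.isAlgebraic.isAlgebraic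
      (aeval x P)).exists_nonzero_coeff_and_aeval_eq_zero (mem_nonZeroDivisors_of_ne_zero hne)
    have hQ : ∀ l, ∃ Q : MvPolynomial (Fin n) k, aeval y Q = (q.coeff l : K) := by
      intro l
      have h1 : ∀ z ∈ Algebra.adjoin k (Set.range y), ∃ Q : MvPolynomial (Fin n) k,
          aeval y Q = z := by
        intro z hz
        rw [Algebra.adjoin_range_eq_range_aeval] at hz
        exact hz
      exact h1 _ (q.coeff l).2
    choose Q hQ using hQ
    obtain ⟨H, hH⟩ : ∃ H : MvPolynomial (Fin N) k,
      H = ∑ l ∈ Finset.range (q.natDegree + 1), rename u (Q l) * P ^ l := ⟨_, rfl⟩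
    have h1 : aeval x H = 0 := by
      rw [hH, map_sum, ← hq, Polynomial.aeval_eq_sum_range]
      refine Finset.sum_congr rfl fun l _ => ?_
      rw [map_mul, map_pow, aeval_rename, ← hy, hQ, Algebra.smul_def]
      rfl
    have h2 := H1 H h1
    rw [hH, map_sum, Finset.sum_range_succ'] at h2
    simp only [map_mul, map_pow, hP, pow_zero, mul_one, pow_succ, mul_zero,
      Finset.sum_const_zero, zero_add, aeval_rename] at h2
    have h3 : Q 0 = 0 := hcu (by rw [map_zero]; exact h2)
    apply hq0
    apply Subtype.ext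
    rw [← hQ 0, h3, map_zero]
    rfl
  exact Pool.Agent.Y742.HC.embed (c := c) hx H1 H2

end Pool.Agent.Q84.UF
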