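import Pool.Agent.Q84.UF.Types
import Pool.Agent.Q84.UF.Down
import Pool.Agent.Y742.HC.Fin
import Pool.Agent.Y742.HC.FinL

/-! Criteria for unirationality. -/

set_option autoImplicit false

namespace Pool.Agent.Q84.UF

open MvPolynomial

section

variable {k K : Type} [Field k] [Field K] [Algebra k K]

theorem bound (hfg : ∃ S : Finset K, IntermediateField.adjoin k (S : Set K) = ⊤) :
    ∃ N : ℕ, ∀ (r : ℕ) (a : Fin r → K), AlgebraicIndependent k a → r ≤ N := by
  obtain ⟨n, y, hy⟩ : ∃ (n : ℕ) (y : Fin n → K), IsTranscendenceBasis k y := by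
    obtain ⟨S, hS⟩ := hfg
    have halg : Algebra.IsAlgebraic (Algebra.adjoin k (S : Set K)) K := by
      rw [← IntermediateField.isAlgebraic_adjoin_iff_top, hS]
      exact ⟨fun a => isAlgebraic_algebraMap (⟨a, trivial⟩ : (⊤ : IntermediateField k K))⟩
    obtain ⟨s, hs, hs'⟩ := exists_isTranscendenceBasis_subset (R := k) (S : Set K)
    have hfin : s.Finite := S.finite_toSet.subset hs
    have : Finite s := hfin
    let e := Finite.equivFin s
    exact ⟨Nat.card s, fun i => (e.symm i : K), hs'.comp_equiv e.symm⟩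
  refine ⟨n, fun r a ha => ?_⟩
  have h1 := ha.cardinalMk_le_trdeg
  rw [← hy.cardinalMk_eq_trdeg, Cardinal.mk_fin, Cardinal.mk_fin] at h1
  exact_mod_cast h1

theorem gens (hfg : ∃ S : Finset K, IntermediateField.adjoin k (S : Set K) = ⊤) :
    ∃ (N : ℕ) (x : Fin N → K), IntermediateField.adjoin k (Set.range x) = ⊤ := by
  obtain ⟨S, hS⟩ := hfg
  let e := S.equivFin
  refine ⟨S.card, fun i => (e.symm i : K), ?_⟩
  have h1 : Set.range (fun i => ((e.symm i : S) : K)) = (S : Set K) := by
    ext z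
    constructor
    · rintro ⟨i, rfl⟩
      exact (e.symm i).2
    · intro hz
      exact ⟨e ⟨z, hz⟩, by simp⟩
  rw [h1, hS]

theorem goodL_of_uni (hfg : ∃ S : Finset K, IntermediateField.adjoin k (S : Set K) = ⊤)
    (h : Uni (⊥ : IntermediateField k K)) : Pool.Agent.Y742.HC.GoodL k K := by
  obtain ⟨N, x, hx⟩ := gens hfg
  obtain ⟨G, hG, h'⟩ := down x hx h
  exact ⟨N, x, G, hG, h'⟩

theorem closed_of_uni [IsAlgClosed k]
    (hfg : ∃ S : Finset K, IntermediateField.adjoin k (S : Set K) = ⊤)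
    (h : Uni (⊥ : IntermediateField k K)) :
    ∃ n : ℕ, Nonempty (K →ₐ[k] RF n k) := by
  obtain ⟨N, x, hx⟩ := gens hfg
  obtain ⟨G, hG, h'⟩ := down x hx h
  obtain ⟨c, hc, hc'⟩ := Pool.Agent.Y742.HC.exists_pt x G hG
  exact h' k c hc hc'

theorem uni_bot_of {n : ℕ} (ι : K →ₐ[k] RF n k) : Uni (⊥ : IntermediateField k K) := by
  obtain ⟨E, _, _, Φ, hΦ, hP, hind⟩ := bc (pur_frac k (Fin n)) (algebraMap k K)
  refine ⟨E, inferInstance, inferInstance, Φ.comp (ι : K →+* RF n k), hP, ?_, ?_⟩
  · intro a ha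
    obtain ⟨b, rfl⟩ := IntermediateField.mem_bot.1 ha
    show Φ (ι (algebraMap k K b)) = _
    rw [ι.commutes, hΦ]
  · intro m b hb
    have h1 : LinearIndependent k b := by
      rw [Fintype.linearIndependent_iff] at hb ⊢
      intro g hg i
      have h2 := hb (fun i => algebraMap k (⊥ : IntermediateField k K) (g i)) (by
        rw [← hg]
        refine Finset.sum_congr rfl fun i _ => ?_
        rw [Algebra.smul_def, Algebra.smul_def]
        rfl) i
      exact (map_eq_zero_iff _ (algebraMap k (⊥ : IntermediateField k K)).injective).1 h2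
    have h2 : LinearIndependent k (ι ∘ b) :=
      h1.map' ι.toLinearMap (LinearMap.ker_eq_bot_of_injective ι.toRingHom.injective)
    exact hind m _ h2

theorem pur_iso {E : Type} [Field E] [Algebra K E] (h : Pur K E) :
    ∃ n : ℕ, Nonempty (RF n K ≃ₐ[K] E) := by
  obtain ⟨n, x, hx, hx'⟩ := h
  exact ⟨n, ⟨(hx.aevalEquivField.trans (IntermediateField.equivOfEq hx')).trans
    IntermediateField.topEquiv⟩⟩

/-- A family of unirational subvarieties through the general point: a rational map
`f : X × 𝔸^n ⇢ X` such that the diagonal is in the closure of the image of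
`(x, t) ↦ (x, f (x, t))`. -/
def IsMove {n : ℕ} (φ : K →ₐ[k] RF n K) : Prop :=
  ∀ (m : ℕ) (c a : Fin m → K), ∑ j, algebraMap K (RF n K) (c j) * φ (a j) = 0 →
    ∑ j, c j * a j = 0

theorem IsMove.dg {n : ℕ} {φ : K →ₐ[k] RF n K} (h : IsMove φ) :
    Dg (RF n K) (φ : K →+* RF n K) := by
  intro ι _ c a hs
  let e := Fintype.equivFin ι
  have h1 := h (Fintype.card ι) (c ∘ e.symm) (a ∘ e.symm) (by
    rw [← hs, ← e.symm.sum_comp]
    refine Finset.sum_congr rfl fun j _ => ?_
    rw [Algebra.smul_def]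
    rfl)
  rw [← h1, ← e.symm.sum_comp]
  rfl

/-- the field of the common invariants of a family of moves -/
def invariants {I : Type} {n : I → ℕ} (φ : ∀ i, K →ₐ[k] RF (n i) K) : IntermediateField k K where
  carrier := {c | ∀ i, φ i c = algebraMap K (RF (n i) K) c}
  mul_mem' := by
    intro a b ha hb i
    rw [map_mul, ha i, hb i, map_mul]
  add_mem' := by
    intro a b ha hb i
    rw [map_add, ha i, hb i, map_add]
  algebraMap_mem' := by
    intro a i
    rw [(φ i).commutes, ← IsScalarTower.algebraMap_apply]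
  inv_mem' := by
    intro a ha i
    rw [map_inv₀, ha i, map_inv₀]

theorem mem_invariants {I : Type} {n : I → ℕ} {φ : ∀ i, K →ₐ[k] RF (n i) K} {c : K} :
    c ∈ invariants φ ↔ ∀ i, φ i c = algebraMap K (RF (n i) K) c := Iff.rfl

theorem uni_invariants (hfg : ∃ S : Finset K, IntermediateField.adjoin k (S : Set K) = ⊤)
    {I : Type} {n : I → ℕ} (φ : ∀ i, K →ₐ[k] RF (n i) K) (h : ∀ i, IsMove (φ i)) :
    Uni (invariants φ) := by
  obtain ⟨N, hN⟩ := bound hfg
  exact moves hN (invariants φ) (fun i => RF (n i) K) (fun i => (φ i : K →+* RF (n i) K))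
    (fun i => pur_frac K (Fin (n i))) (fun i => (h i).dg) (fun c => Iff.rfl)

theorem move_of_uni {M : IntermediateField k K} (h : Uni M) :
    ∃ (n : ℕ) (φ : K →ₐ[k] RF n K), IsMove φ ∧
      ∀ c, φ c = algebraMap K (RF n K) c ↔ c ∈ M := by
  obtain ⟨E, _, _, φ, hP, hfix, hind⟩ := h
  have hD := dg_of hfix hind
  obtain ⟨n, ⟨e⟩⟩ := pur_iso hP
  have hk : ∀ a : k, e.symm (φ (algebraMap k K a)) = algebraMap k (RF n K) a := by
    intro a
    rw [hfix _ (M.algebraMap_mem a), e.symm.commutes, ← IsScalarTower.algebraMap_apply]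
  refine ⟨n, { (e.symm : E →+* RF n K).comp φ with commutes' := hk }, ?_, fun c => ?_⟩
  · intro m c a hs
    apply hD (Fin m) c a
    have h1 : ∀ j, algebraMap K (RF n K) (c j) * e.symm (φ (a j)) = e.symm (c j • φ (a j)) := by
      intro j
      rw [map_smul, Algebra.smul_def]
    have h2 : e.symm (∑ j, c j • φ (a j)) = 0 := by
      rw [map_sum, ← Finset.sum_congr rfl fun j _ => h1 j]
      exact hs
    exact (map_eq_zero_iff e.symm e.symm.injective).1 h2
  · show e.symm (φ c) = _ ↔ _
    constructor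
    · intro h1
      apply mem_of_fix hind
      have h2 := congrArg e h1
      rwa [e.apply_symm_apply, e.commutes] at h2
    · intro h1
      rw [hfix c h1, e.symm.commutes]

/-- fibrations and moves -/
theorem HasMove.of_uni {L : IntermediateField k K} (h : Uni L) : HasMove L K := by
  obtain ⟨E, _, _, φ, hP, hfix, hind⟩ := h
  exact ⟨E, inferInstance, inferInstance, φ, hP, fun a => hfix _ a.2, dg_of hfix hind,
    fun c hc => isAlgebraic_algebraMap (⟨c, mem_of_fix hind hc⟩ : L)⟩

theorem uni_bot_of_moves (hfg : ∃ S : Finset K, IntermediateField.adjoin k (S : Set K) = ⊤)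
    {I : Type} (L : I → IntermediateField k K) (hL : ∀ i, HasMove (L i) K)
    (hinv : ∀ c : K, (∀ i, IsAlgebraic (L i) c) → c ∈ Set.range (algebraMap k K)) :
    Uni (⊥ : IntermediateField k K) := by
  obtain ⟨N, hN⟩ := bound hfg
  choose E h1 h2 φ hP hfix hD hal using hL
  refine moves hN ⊥ E φ hP hD fun c => ⟨fun hc i => ?_, fun hc => ?_⟩
  · obtain ⟨a, rfl⟩ := IntermediateField.mem_bot.1 hc
    exact hfix i (algebraMap k (L i) a)
  · rw [IntermediateField.mem_bot]
    exact hinv c fun i => hal i c (hc i)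

end

end Pool.Agent.Q84.UF
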