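import Pool.Agent.Q84.UF.HStep
import Pool.Agent.Q84.UF.Final
import Pool.Agent.Y742.HC.All

/-! The Hilbert property of varieties with fibrations without common invariants. -/

set_option autoImplicit false

namespace Pool.Agent.Q84.UF

open AlgebraicGeometry CategoryTheory W560.HP Pool.Agent.TH178.HI Pool.Agent.Y742.HC

section

variable {k K Ω₀ : Type} [Field k] [CharZero k] [Field K] [Algebra k K] [Field Ω₀]
  [Algebra K Ω₀] [Algebra k Ω₀] [IsScalarTower k K Ω₀]

/-- In a unirational extension there is a realizable extension of `K` which is, for each of the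
fibrations, generated by elements algebraic over the base. -/
theorem criterionR (hfg : ∃ S : Finset K, IntermediateField.adjoin k (S : Set K) = ⊤)
    (hΩ : Pure (⊤ : IntermediateField k Ω₀)) [Algebra.EssFiniteType K Ω₀] {I : Type}
    (L : I → IntermediateField k K) (hL : ∀ i, UniR (L i)) :
    ∃ M : IntermediateField K Ω₀, M ≤ algebraicClosure K Ω₀ ∧ FiniteDimensional K M ∧
      Realizable k M ∧
      ∀ i, M ≤ IntermediateField.adjoin K {z : Ω₀ | z ∈ M ∧ IsAlgebraic (L i) z} := by
  have hfin := finite_closure K Ω₀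
  have hex : ∃ d : ℕ, ∃ M : IntermediateField K Ω₀, M ≤ algebraicClosure K Ω₀ ∧
      Realizable k M ∧ Module.finrank K M = d :=
    ⟨_, algebraicClosure K Ω₀, le_rfl, realizable_closure hΩ, rfl⟩
  classical
  obtain ⟨M, hMA, hMr, hMd⟩ := Nat.find_spec hex
  have hmin : ∀ M' : IntermediateField K Ω₀, M' ≤ algebraicClosure K Ω₀ → Realizable k M' →
      Module.finrank K M ≤ Module.finrank K M' := by
    intro M' h1 h2
    rw [hMd]
    exact Nat.find_min' hex ⟨M', h1, h2, rfl⟩
  have hMfin : FiniteDimensional K M :=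
    FiniteDimensional.of_injective (IntermediateField.inclusion hMA).toLinearMap
      (IntermediateField.inclusion hMA).injective
  have hMalg : Algebra.IsAlgebraic K M := Algebra.IsAlgebraic.of_finite K M
  refine ⟨M, hMA, hMfin, hMr, fun i => ?_⟩
  let M₁ : IntermediateField K M := IntermediateField.adjoin K (algOver M (L i))
  have hr : Realizable k M₁ := hstep hfg (hL i) hMr
  have hle : IntermediateField.lift M₁ ≤ M := IntermediateField.lift_le M₁
  have hr' : Realizable k (IntermediateField.lift M₁) :=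
    hr.equiv ((IntermediateField.liftAlgEquiv M₁).symm.restrictScalars k)
  have hfr := hmin (IntermediateField.lift M₁) (hle.trans hMA) hr'
  have heq : IntermediateField.lift M₁ = M := IntermediateField.eq_of_le_of_finrank_le hle hfr
  have h2 : IntermediateField.lift M₁ ≤
      IntermediateField.adjoin K {z : Ω₀ | z ∈ M ∧ IsAlgebraic (L i) z} := by
    rw [IntermediateField.lift_adjoin, IntermediateField.adjoin_le_iff]
    rintro _ ⟨z, hz, rfl⟩
    refine IntermediateField.subset_adjoin _ _ ⟨z.2, ?_⟩
    have h3 : IsAlgebraic (L i) z := hz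
    exact h3.algebraMap
  rwa [heq] at h2

end

/-- The cover. -/
theorem covR {k K : Type} [Field k] [CharZero k] [Field K] [Algebra k K]
    (hfg : ∃ S : Finset K, IntermediateField.adjoin k (S : Set K) = ⊤) {ι : Type} [Finite ι]
    (φ : K →ₐ[k] FractionRing (MvPolynomial ι k)) {I : Type} (L : I → IntermediateField k K)
    (hL : ∀ i, UniR (L i)) :
    ∃ (M : Type) (_ : Field M) (_ : Algebra k M) (_ : Algebra K M) (_ : IsScalarTower k K M)
      (_ : FiniteDimensional K M),
      (∀ a : M, IsAlgebraic k a → a ∈ Set.range (algebraMap k M)) ∧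
      (∀ i, IntermediateField.adjoin K {z : M | IsAlgebraic (L i) z} = ⊤) ∧ Realizable k M := by
  let Ω := FractionRing (MvPolynomial ι k)
  let _ : Algebra K Ω := φ.toRingHom.toAlgebra
  have : IsScalarTower k K Ω := IsScalarTower.of_algebraMap_eq fun a => (φ.commutes a).symm
  have hess : Algebra.EssFiniteType k Ω := by
    have h1 : Algebra.EssFiniteType k (MvPolynomial ι k) := inferInstance
    have h2 : Algebra.EssFiniteType (MvPolynomial ι k) Ω :=
      .of_isLocalization _ (nonZeroDivisors _)
    exact .comp k (MvPolynomial ι k) Ω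
  have hess' : Algebra.EssFiniteType K Ω := .of_comp k _ _
  obtain ⟨M, -, h2, h3, h4⟩ := criterionR (k := k) (K := K) (Ω₀ := Ω) hfg (pure_frac k ι) L hL
  refine ⟨M, inferInstance, inferInstance, inferInstance, inferInstance, h2, ?_, ?_, h3⟩
  · intro a ha
    have h5 : IsAlgebraic k (a : Ω) := ha.algHom (M.val.restrictScalars k)
    obtain ⟨c, hc⟩ := alg_frac (a : Ω) h5
    refine ⟨c, ?_⟩
    apply Subtype.ext
    rw [← hc]
    rfl
  · intro i
    have h5 := h4 i
    have h6 : IntermediateField.lift (IntermediateField.adjoin K {z : M | IsAlgebraic (L i) z}) =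
        M := by
      refine le_antisymm (IntermediateField.lift_le _) ?_
      rw [IntermediateField.lift_adjoin]
      refine h5.trans ?_
      apply IntermediateField.adjoin.mono
      rintro z ⟨hz, hza⟩
      refine ⟨⟨z, hz⟩, ?_, rfl⟩
      exact (isAlgebraic_algebraMap_iff (R := L i) (S := M) (A := Ω)
        (algebraMap M Ω).injective).1 hza
    have h7 : IntermediateField.lift (IntermediateField.adjoin K {z : M | IsAlgebraic (L i) z}) =
        IntermediateField.lift (⊤ : IntermediateField K M) := by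
      rw [h6, IntermediateField.lift_top]
    exact IntermediateField.lift_injective M h7

/-- The theorem for schemes. -/
theorem hilbR (k : Type) [Field k] [CharZero k]
    (hk : ∃ S : Finset k, IntermediateField.adjoin ℚ (S : Set k) = ⊤) (K : Type) [Field K]
    [Algebra k K] (X : Scheme.{0}) (p : X ⟶ Spec (CommRingCat.of k)) [IsIntegral X]
    [LocallyOfFiniteType p] (e : X.functionField ≃+* K)
    (he : ∀ a : k, e (toFF k X p a) = algebraMap k K a)
    (hd : Pool.Agent.Y742.HC.DensePoints k X p) {I : Type} (L : I → IntermediateField k K)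
    (hL : ∀ i, UniR (L i))
    (hinv : ∀ a : K, (∀ i, a ∈ L i) → a ∈ Set.range (algebraMap k K)) :
    (∃ n : ℕ, Nonempty (K →ₐ[k] FractionRing (MvPolynomial (Fin n) k))) ∧
    ((∀ (M : Type) [Field M] [Algebra k M] [Algebra K M] [IsScalarTower k K M]
      [FiniteDimensional K M], (∀ a : M, IsAlgebraic k a → a ∈ Set.range (algebraMap k M)) →
      (∀ i, IntermediateField.adjoin K {z : M | IsAlgebraic (L i) z} = ⊤) →
      (∀ P : FF.Place k K, (∃ i, Horizontal (L i) P) → UnramifiedAt M P) →
      Function.Surjective (algebraMap K M)) →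
      HilbertProperty k X p ∧
      ((∀ x : X, IsIntegrallyClosed (X.presheaf.stalk x)) → HilbertPropertyIso k X p)) ∧
    ((∀ P : FF.Place k K, PlaceOn k X e P → ∃ i, Horizontal (L i) P) →
      (∀ (M : Type) [Field M] [Algebra k M] [Algebra K M] [IsScalarTower k K M]
        [FiniteDimensional K M], (∀ a : M, IsAlgebraic k a → a ∈ Set.range (algebraMap k M)) →
        (∀ P : FF.Place k K, PlaceOn k X e P → UnramifiedAt M P) →
        Function.Surjective (algebraMap K M)) →
      HilbertProperty k X p ∧
      ((∀ x : X, IsIntegrallyClosed (X.presheaf.stalk x)) → HilbertPropertyIso k X p)) := by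
  have hfg := sFgs k X p K ⟨e, he⟩
  obtain ⟨N₀, hN₀⟩ := bound hfg
  have hbot : (⨅ i, L i) = ⊥ := by
    rw [eq_bot_iff]
    intro a ha
    rw [IntermediateField.mem_bot]
    apply hinv
    intro i
    exact (iInf_le L i) ha
  have hU := inter hN₀ L (fun i => (hL i).uni)
  rw [hbot] at hU
  obtain ⟨N, x, G, hG, h⟩ := goodL_of_uni hfg hU
  obtain ⟨c₀, hc₁, hc₂⟩ := Pool.Agent.Y780.HC.sPts k X p K ⟨e, he⟩ hd N x G hG
  obtain ⟨n, ⟨φ⟩⟩ := h k c₀ hc₁ hc₂
  obtain ⟨M, _, _, _, _, _, hM1, hM2, hM3⟩ := covR hfg φ L hL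
  have hram : ∀ P : FF.Place k K, (∃ i, Horizontal (L i) P) → UnramifiedAt M P := by
    rintro P ⟨i, hi⟩ Q n hn hQ
    exact Pool.Agent.Y500.HC.sUnr k K M (L i) (hM2 i) P Q n hi ⟨hn, hQ⟩
  have hfin : Function.Surjective (algebraMap K M) → HilbertProperty k X p ∧
      ((∀ x : X, IsIntegrallyClosed (X.presheaf.stalk x)) → HilbertPropertyIso k X p) := by
    intro hs
    have hr : Realizable k K := hM3.equiv
      ((AlgEquiv.ofBijective (IsScalarTower.toAlgHom k K M)
        ⟨(algebraMap K M).injective, hs⟩))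
    have h4 : HilbertProperty k X p := hr.hilbert hk X p ⟨e, he⟩
    exact ⟨h4, fun hn => iso_of_hp Pool.Agent.W376.HP.nrm k X p hn h4⟩
  refine ⟨⟨n, ⟨φ⟩⟩, fun hM => hfin (hM M hM1 hM2 hram), fun hP hM => hfin (hM M hM1 ?_)⟩
  exact fun P hPX => hram P (hP P hPX)

end Pool.Agent.Q84.UF
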