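import Pool.Agent.Q84.UF.Pre
import Pool.Agent.W803.HP.Bc2
import Pool.Agent.W21.HP.Bc
import Pool.Agent.W417.HP.BC1

/-! Descent of realizable fields along a fibration. -/

set_option autoImplicit false

namespace Pool.Agent.Q84.UF

open MvPolynomial Pool.Agent.TH178.HI

/-- algebraic elements are mapped to algebraic elements -/
theorem alg_image {F₁ F₂ A B : Type} [Field F₁] [Field F₂] [Field A] [Field B] [Algebra F₁ A]
    [Algebra F₂ B] (f : A →+* B)
    (h : ∀ a : F₁, f (algebraMap F₁ A a) ∈ Set.range (algebraMap F₂ B)) {b : A}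
    (hb : IsAlgebraic F₁ b) : IsAlgebraic F₂ (f b) := by
  obtain ⟨q, hq, hq0⟩ := hb
  have h1 : q.map (f.comp (algebraMap F₁ A)) ∈ Polynomial.lifts (algebraMap F₂ B) := by
    rw [Polynomial.lifts_iff_coeff_lifts]
    intro n
    rw [Polynomial.coeff_map]
    exact h _
  rw [Polynomial.mem_lifts] at h1
  obtain ⟨q', hq'⟩ := h1
  refine ⟨q', ?_, ?_⟩
  · rintro rfl
    rw [Polynomial.map_zero] at hq'
    exact hq ((Polynomial.map_eq_zero _).1 hq'.symm)
  · have h2 := Polynomial.hom_eval₂ q (algebraMap F₁ A) f b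
    have h3 : Polynomial.eval₂ (algebraMap F₁ A) b q = 0 := hq0
    rw [h3, map_zero] at h2
    rw [Polynomial.aeval_def, ← Polynomial.eval_map, hq', Polynomial.eval_map]
    exact h2.symm

/-- independence from linear independence -/
theorem ai_up {A B Ω E : Type} [Field A] [Field B] [Algebra A B] [Field Ω] [Field E]
    [Algebra Ω E] (Φ : B →+* E)
    (hbc : ∀ (n : ℕ) (b : Fin n → B), LinearIndependent A b → LinearIndependent Ω (Φ ∘ b))
    {ι : Type} {x : ι → B} (hx : AlgebraicIndependent A x) : AlgebraicIndependent Ω (Φ ∘ x) := by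
  classical
  rw [algebraicIndependent_iff]
  intro P hP
  let e := P.support.equivFin
  let b : Fin P.support.card → B := fun i =>
    aeval x (monomial (e.symm i : ι →₀ ℕ) (1 : A))
  have hb : LinearIndependent A b := by
    have h1 := (MvPolynomial.basisMonomials ι A).linearIndependent.map'
      (aeval x : MvPolynomial ι A →ₐ[A] B).toLinearMap
      (LinearMap.ker_eq_bot_of_injective hx)
    have h2 := h1.comp (fun i : Fin P.support.card => (e.symm i : ι →₀ ℕ))
      (Subtype.val_injective.comp e.symm.injective)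
    have h3 : b = ((aeval x : MvPolynomial ι A →ₐ[A] B).toLinearMap ∘
        basisMonomials ι A) ∘ fun i : Fin P.support.card => (e.symm i : ι →₀ ℕ) := by
      funext i
      simp [b]
    rw [h3]
    exact h2
  have h1 := hbc _ b hb
  have h2 : ∑ i, coeff (e.symm i : ι →₀ ℕ) P • (Φ ∘ b) i = 0 := by
    rw [← hP]
    conv_rhs => rw [P.as_sum, map_sum, ← Finset.sum_coe_sort]
    rw [← e.symm.sum_comp]
    refine Finset.sum_congr rfl fun i _ => ?_
    rw [aeval_monomial, Algebra.smul_def]
    congr 1
    show Φ (aeval x (monomial (e.symm i : ι →₀ ℕ) (1 : A))) = _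
    rw [aeval_monomial, map_one, one_mul, Finsupp.prod, map_prod, Finsupp.prod]
    refine Finset.prod_congr rfl fun j _ => ?_
    rw [map_pow]
    rfl
  have h3 := Fintype.linearIndependent_iff.1 h1 _ h2
  ext m
  rw [coeff_zero]
  by_contra hm
  have hm' : m ∈ P.support := by rwa [mem_support_iff]
  have h4 := h3 (e ⟨m, hm'⟩)
  rw [e.symm_apply_apply] at h4
  exact hm h4

/-- base change of the constants, with the variables -/
theorem bcT {K E Ω : Type} [Field K] [Field E] [Algebra K E] [Field Ω] (hE : Pur K E)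
    (ψ : K →+* Ω) :
    ∃ (n : ℕ) (t : Fin n → E) (E' : Type) (_ : Field E') (_ : Algebra Ω E') (Φ : E →+* E'),
      IntermediateField.adjoin K (Set.range t) = ⊤ ∧
      (∀ a, Φ (algebraMap K E a) = algebraMap Ω E' (ψ a)) ∧
      AlgebraicIndependent Ω (Φ ∘ t) ∧
      ∀ (n : ℕ) (b : Fin n → E), LinearIndependent K b → LinearIndependent Ω (Φ ∘ b) := by
  obtain ⟨E', i1, i2, Φ, h1, -, h3⟩ := bc hE ψ
  obtain ⟨n, t, ht, ht'⟩ := hE
  exact ⟨n, t, E', i1, i2, Φ, ht', h1, ai_up Φ h3 ht, h3⟩

/-- The generic fibre of the fibration has, over `K`, a unirational parametrization with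
geometrically irreducible general fibres: there are a field `E` of rational functions over `K` and a
homomorphism `φ : K → E`, the identity on `L`, which maps elements linearly independent over `L` to
elements linearly independent over `K`, such that the subfield of `E` generated by `K` and `φ(K)`
is algebraically closed in `E`. -/
def UniR {k K : Type} [Field k] [Field K] [Algebra k K] (L : IntermediateField k K) : Prop :=
  ∃ (E : Type) (_ : Field E) (_ : Algebra K E) (φ : K →+* E), Pur K E ∧
    (∀ a ∈ L, φ a = algebraMap K E a) ∧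
    (∀ (n : ℕ) (b : Fin n → K), LinearIndependent L b → LinearIndependent K (φ ∘ b)) ∧
    ∀ z : E, IsAlgebraic (IntermediateField.adjoin K (Set.range φ)) z →
      z ∈ IntermediateField.adjoin K (Set.range φ)

section

variable {k K M : Type} [Field k] [Field K] [Algebra k K] [Field M] [Algebra K M] [Algebra k M]
  [IsScalarTower k K M]

theorem adjoin_le_of {A B E' : Type} [Field A] [Field B] [Field E'] [Algebra A E'] [Algebra B E']
    (F : IntermediateField B E') (hA : ∀ a : A, algebraMap A E' a ∈ F) {S : Set E'} (hS : S ⊆ F)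
    {x : E'} (hx : x ∈ IntermediateField.adjoin A S) : x ∈ F := by
  induction hx using IntermediateField.adjoin_induction with
  | mem x hx => exact hS hx
  | algebraMap x => exact hA x
  | add x y _ _ hx hy => exact add_mem hx hy
  | mul x y _ _ hx hy => exact mul_mem hx hy
  | inv x _ hx => exact inv_mem hx

theorem alg_adj {E' : Type} [Field E'] [Algebra k E'] (K₀ Kc : IntermediateField k E')
    (u S : Set E') (hS : ∀ a ∈ S, IsAlgebraic (IntermediateField.adjoin K₀ u) a)
    (hK : Kc ≤ IntermediateField.adjoin k ((K₀ : Set E') ∪ S)) (x : E') (hx : x ∈ Kc) :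
    IsAlgebraic (IntermediateField.adjoin K₀ u) x := by
  have h1 := hK hx
  have h0 : ∀ a ∈ K₀, a ∈ algebraicClosure (IntermediateField.adjoin K₀ u) E' := by
    intro a ha
    rw [mem_algebraicClosure_iff]
    have h2 : a ∈ IntermediateField.adjoin K₀ u :=
      (IntermediateField.adjoin K₀ u).algebraMap_mem ⟨a, ha⟩
    exact isAlgebraic_algebraMap (⟨a, h2⟩ : IntermediateField.adjoin K₀ u)
  have h2 : x ∈ algebraicClosure (IntermediateField.adjoin K₀ u) E' := by
    refine adjoin_le_of _ (fun a => h0 _ (K₀.algebraMap_mem a)) ?_ h1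
    rintro a (ha | ha)
    · exact h0 a ha
    · exact mem_algebraicClosure_iff.2 (hS a ha)
  exact mem_algebraicClosure_iff.1 h2

/-- **Descent along a fibration.** -/
theorem hstep [CharZero k] [Algebra.IsAlgebraic K M]
    (hfg : ∃ S : Finset K, IntermediateField.adjoin k (S : Set K) = ⊤)
    {L : IntermediateField k K} (hL : UniR L) (hM : Realizable k M) :
    Realizable k (IntermediateField.adjoin K (algOver M L)) := by
  classical
  obtain ⟨E₀, _, _, Ω, y, hΩ, hyΩ, hcl⟩ := hM
  obtain ⟨E, _, _, φ, hP, hfix, hind, hrel⟩ := hL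
  have hU : Uni L := ⟨E, inferInstance, inferInstance, φ, hP, hfix, hind⟩
  let ψ : K →+* E₀ := (y : M →+* E₀).comp (algebraMap K M)
  obtain ⟨n, t, E', _, _, Φ, ht, hΦ, hT, hbc⟩ := bcT hP ψ
  let _ : Algebra k E' := ((algebraMap E₀ E').comp (algebraMap k E₀)).toAlgebra
  have tw : IsScalarTower k E₀ E' := IsScalarTower.of_algebraMap_eq fun _ => rfl
  have cE' : CharZero E' := charZero_of_injective_algebraMap (algebraMap k E').injective
  let j : E₀ →ₐ[k] E' := IsScalarTower.toAlgHom k E₀ E'
  let _ : Algebra k E := ((algebraMap K E).comp (algebraMap k K)).toAlgebra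
  have twE : IsScalarTower k K E := IsScalarTower.of_algebraMap_eq fun _ => rfl
  have hψk : ∀ a : k, ψ (algebraMap k K a) = algebraMap k E₀ a := by
    intro a
    show y (algebraMap K M (algebraMap k K a)) = _
    rw [← IsScalarTower.algebraMap_apply, y.commutes]
  let Φk : E →ₐ[k] E' := { Φ with
    commutes' := fun a => by
      show Φ (algebraMap K E (algebraMap k K a)) = algebraMap E₀ E' (algebraMap k E₀ a)
      rw [hΦ, hψk] }
  let lam : M →ₐ[k] E' := j.comp y
  let α : K →ₐ[k] E' := lam.comp (IsScalarTower.toAlgHom k K M)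
  let φk : K →ₐ[k] E := { φ with commutes' := fun a => hfix _ (L.algebraMap_mem a) }
  let β : K →ₐ[k] E' := Φk.comp φk
  have hα : ∀ a, Φ (algebraMap K E a) = α a := fun a => hΦ a
  have hβ : ∀ a, β a = Φ (φ a) := fun _ => rfl
  have hαβ : ∀ a ∈ L, β a = α a := by
    intro a ha
    rw [hβ, hfix a ha, hα]
  let Ωj := Ω.map j
  let B := β.fieldRange
  let Λ := (LamK M L).map lam
  let T : Fin n → E' := Φ ∘ t
  have hlamΩ : ∀ z, lam z ∈ Ωj := fun z => ⟨y z, hyΩ ⟨z, rfl⟩, rfl⟩
  have hαΩ : ∀ a, α a ∈ Ωj := fun a => hlamΩ _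
  -- (a)
  let N : IntermediateField k E := (IntermediateField.adjoin K (Set.range φ)).restrictScalars k
  let K₀ := N.map Φk
  let F₀ := Φk.fieldRange
  have hK₀F₀ : K₀ ≤ F₀ := by
    rintro _ ⟨z, -, rfl⟩
    exact ⟨z, rfl⟩
  have hBK₀ : B ≤ K₀ := by
    rintro _ ⟨a, rfl⟩
    exact ⟨φ a, IntermediateField.subset_adjoin K (Set.range φ) ⟨a, rfl⟩, rfl⟩
  have hαK₀ : ∀ a, α a ∈ K₀ := fun a =>
    ⟨algebraMap K E a, (IntermediateField.adjoin K (Set.range φ)).algebraMap_mem a, hα a⟩
  have hK₀le : K₀ ≤ Ωj ⊔ B := by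
    rintro _ ⟨z, hz, rfl⟩
    have hz' : z ∈ IntermediateField.adjoin K (Set.range φ) := hz
    have hC : z ∈ (Ωj ⊔ B).comap Φk := by
      refine adjoin_le_of ((Ωj ⊔ B).comap Φk) (fun a => ?_) ?_ hz'
      · show Φ (algebraMap K E a) ∈ Ωj ⊔ B
        rw [hα]
        exact (le_sup_left : Ωj ≤ Ωj ⊔ B) (hαΩ a)
      · rintro _ ⟨a, rfl⟩
        exact (le_sup_right : B ≤ Ωj ⊔ B) ⟨a, rfl⟩
    exact hC
  have hcl₀ : ∀ x ∈ F₀, IsAlgebraic K₀ x → x ∈ K₀ := by
    rintro _ ⟨z, rfl⟩ hx
    have h1 : IsAlgebraic N z := isAlgebraic_of_map Φk N hx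
    exact ⟨z, hrel z h1, rfl⟩
  have hpure : Pure (Ω.map (IsScalarTower.toAlgHom k E₀ E') ⊔
      IntermediateField.adjoin k (Set.range T)) := pure_supT hΩ hT
  obtain ⟨ι, hι, X, hX, hXΩ⟩ := hΩ
  let Xj : ι → E' := j ∘ X
  have hΩj : Ωj = IntermediateField.adjoin k (Set.range Xj) := by
    show Ω.map j = _
    rw [← hXΩ, IntermediateField.adjoin_map, Set.range_comp]
  let _ : Algebra K E' := (α : K →+* E').toAlgebra
  let _ : Algebra K E₀ := ψ.toAlgebra
  have twK : IsScalarTower K E₀ E' := IsScalarTower.of_algebraMap_eq fun _ => rfl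
  have twk : IsScalarTower k K E' := IsScalarTower.of_algebraMap_eq fun a => (α.commutes a).symm
  obtain ⟨u, hu⟩ := (AlgebraicIndependent.matroid K E').exists_isBasis (Set.range Xj)
    (Set.subset_univ _)
  rw [AlgebraicIndependent.matroid_isBasis_iff] at hu
  obtain ⟨hu1, hu2, hu3⟩ := hu
  have hufin : u.Finite := (Set.finite_range Xj).subset hu2
  have hF₀ : F₀ = (IntermediateField.adjoin K (Set.range T)).restrictScalars k := by
    apply le_antisymm
    · rintro _ ⟨z, rfl⟩
      have hz : z ∈ IntermediateField.adjoin K (Set.range t) := by rw [ht]; trivial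
      have hC : z ∈ ((IntermediateField.adjoin K (Set.range T)).restrictScalars k).comap Φk := by
        refine adjoin_le_of _ (fun a => ?_) ?_ hz
        · have h1 : Φ (algebraMap K E a) ∈ IntermediateField.adjoin K (Set.range T) := by
            rw [hα]
            exact (IntermediateField.adjoin K (Set.range T)).algebraMap_mem a
          exact h1
        · rintro _ ⟨i, rfl⟩
          exact IntermediateField.subset_adjoin K (Set.range T) ⟨i, rfl⟩
      exact hC
    · intro x hx
      refine adjoin_le_of F₀ (fun a => ?_) ?_ hx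
      · exact ⟨algebraMap K E a, hα a⟩
      · rintro _ ⟨i, rfl⟩
        exact ⟨t i, rfl⟩
  have hindF₀ : AlgebraicIndependent F₀ (fun a : u => (a : E')) := by
    have h4 := ind_tower hT hu1 (fun a ha => by
      obtain ⟨i, hi⟩ := hu2 ha
      exact ⟨X i, hi⟩)
    rw [hF₀]
    exact h4
  have hbcA := Pool.Agent.W21.HP.bc Pool.Agent.W417.HP.bc1 Pool.Agent.W803.HP.bc2 k E' K₀ F₀
    (Ωj ⊔ B) hK₀F₀ hK₀le hcl₀ (by
      refine ⟨(Set.finite_range Xj).toFinset, ?_⟩
      rw [Set.Finite.coe_toFinset, ← hΩj]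
      apply le_antisymm
      · exact sup_le le_sup_right (hBK₀.trans le_sup_left)
      · exact sup_le hK₀le le_sup_left) (by
      refine ⟨hufin.toFinset, ?_, ?_, ?_⟩
      · rw [Set.Finite.coe_toFinset]
        intro a ha
        obtain ⟨i, rfl⟩ := hu2 ha
        apply (le_sup_left : Ωj ≤ Ωj ⊔ B)
        rw [hΩj]
        exact IntermediateField.subset_adjoin _ _ ⟨i, rfl⟩
      · exact hindF₀.comp (fun x : hufin.toFinset => (⟨(x : E'), hufin.mem_toFinset.1 x.2⟩ : u))
          (fun a b h => by
            have h' := congrArg Subtype.val h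
            exact Subtype.ext h')
      · rw [Set.Finite.coe_toFinset]
        refine alg_adj K₀ (Ωj ⊔ B) u (Set.range Xj) (fun a ha => ?_) ?_
        · have h4 := IntermediateField.isAlgebraic_adjoin_iff.2 (hu3 a ha)
          refine alg_image (F₂ := IntermediateField.adjoin K₀ u) (RingHom.id E') (fun z => ?_) h4
          have h5 : (z : E') ∈ IntermediateField.adjoin K₀ u :=
            adjoin_le_of (IntermediateField.adjoin K₀ u)
              (fun a => (IntermediateField.adjoin K₀ u).algebraMap_mem ⟨_, hαK₀ a⟩)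
              (fun w hw => IntermediateField.subset_adjoin K₀ u hw) z.2
          exact ⟨⟨z, h5⟩, rfl⟩
        · refine sup_le ?_ ?_
          · rw [hΩj]
            exact IntermediateField.adjoin.mono k _ _ Set.subset_union_right
          · intro z hz
            exact IntermediateField.subset_adjoin _ _ (Or.inl (hBK₀ hz)))
  -- (b)
  obtain ⟨S, hS⟩ := hfg
  have hSL : IntermediateField.adjoin L (S : Set K) = ⊤ := by
    rw [eq_top_iff]
    rintro z -
    have hz : z ∈ IntermediateField.adjoin k (S : Set K) := by rw [hS]; trivial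
    exact adjoin_le_of (IntermediateField.adjoin L (S : Set K))
      (fun a => (IntermediateField.adjoin L (S : Set K)).algebraMap_mem (algebraMap k L a))
      (IntermediateField.subset_adjoin L (S : Set K)) hz
  have hSalg : Algebra.IsAlgebraic (Algebra.adjoin L (S : Set K)) K := by
    rw [← IntermediateField.isAlgebraic_adjoin_iff_top, hSL]
    exact ⟨fun a => isAlgebraic_algebraMap (⟨a, trivial⟩ : (⊤ : IntermediateField L K))⟩
  obtain ⟨s, hs, hs'⟩ := exists_isTranscendenceBasis_subset (R := L) (S : Set K)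
  have hsfin : s.Finite := S.finite_toSet.subset hs
  have hv : AlgebraicIndependent E₀ (Φ ∘ (φ ∘ ((↑) : s → K))) :=
    ai_up Φ hbc (ai_up φ hind hs'.1)
  have hvΩ : AlgebraicIndependent Ωj (Φ ∘ (φ ∘ ((↑) : s → K))) := by
    let ρ : Ωj →+* E₀ :=
      (algebraMap Ω E₀).comp (IntermediateField.equivMap Ω j).symm.toRingEquiv.toRingHom
    have he : ∀ u : Ωj, j (ρ u) = u := by
      intro u
      obtain ⟨e, rfl⟩ := (IntermediateField.equivMap Ω j).surjective u
      show j (((IntermediateField.equivMap Ω j).symm (IntermediateField.equivMap Ω j e) : Ω) : E₀) = _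
      rw [AlgEquiv.symm_apply_apply]
      rfl
    let _ : Algebra Ωj E₀ := ρ.toAlgebra
    have : IsScalarTower Ωj E₀ E' := IsScalarTower.of_algebraMap_eq fun u => (he u).symm
    exact hv.restrictScalars ρ.injective
  have hΛΩ : Λ ≤ Ωj := by
    rintro _ ⟨z, -, rfl⟩
    exact hlamΩ z
  have hΛcl : RelCl Λ Ωj := by
    rintro _ ⟨ω, hω, rfl⟩ hx
    have h1 : IsAlgebraic ((LamK M L).map y) ω := by
      apply isAlgebraic_of_map j
      rw [IntermediateField.map_map]
      exact hx
    have hle : (LamK M L).map y ≤ y.fieldRange := by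
      rintro _ ⟨z, -, rfl⟩
      exact ⟨z, rfl⟩
    obtain ⟨m, rfl⟩ := hcl ω hω (isAlgebraic_mono hle h1)
    exact ⟨m, LamK_closed (isAlgebraic_of_map y _ h1), rfl⟩
  have hαΛ : ∀ a ∈ L, α a ∈ Λ := fun a ha => ⟨_, algebraMap_mem_LamK ha, rfl⟩
  have hbcB := Pool.Agent.W21.HP.bc Pool.Agent.W417.HP.bc1 Pool.Agent.W803.HP.bc2 k E' Λ Ωj
    (Λ ⊔ B) hΛΩ le_sup_left hΛcl (by
      refine ⟨S.image β, ?_⟩
      have hB : B = IntermediateField.adjoin k ((S.image β : Finset E') : Set E') := by
        show β.fieldRange = _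
        rw [AlgHom.fieldRange_eq_map, ← hS, IntermediateField.adjoin_map, Finset.coe_image]
      rw [← hB]) (by
      have hT₂ : (Set.range (Φ ∘ (φ ∘ ((↑) : s → K)))).Finite := by
        have := hsfin.to_subtype
        exact Set.finite_range _
      have hT₂B : Set.range (Φ ∘ (φ ∘ ((↑) : s → K))) ⊆ B := by
        rintro _ ⟨a, rfl⟩
        exact ⟨(a : K), rfl⟩
      refine ⟨hT₂.toFinset, ?_, ?_, ?_⟩
      · rw [Set.Finite.coe_toFinset]
        exact hT₂B.trans (le_sup_right : B ≤ Λ ⊔ B)
      · exact (hvΩ.coe_range).comp (fun x : hT₂.toFinset => (⟨(x : E'), hT₂.mem_toFinset.1 x.2⟩ :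
          Set.range (Φ ∘ (φ ∘ ((↑) : s → K))))) (fun a b h => by
            have h' := congrArg Subtype.val h
            exact Subtype.ext h')
      · rw [Set.Finite.coe_toFinset]
        refine alg_adj Λ (Λ ⊔ B) _ (B : Set E') (fun b hb => ?_) ?_
        · obtain ⟨a, rfl⟩ := hb
          have h4 : IsAlgebraic (IntermediateField.adjoin L (Set.range ((↑) : s → K))) a :=
            IntermediateField.isAlgebraic_adjoin_iff.2 (hs'.isAlgebraic.isAlgebraic a)
          refine alg_image (F₂ := IntermediateField.adjoin Λ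
            (Set.range (Φ ∘ (φ ∘ ((↑) : s → K))))) (β : K →+* E') (fun z => ?_) h4
          have h5 : β (z : K) ∈ IntermediateField.adjoin Λ
              (Set.range (Φ ∘ (φ ∘ ((↑) : s → K)))) := by
            have h6 : (z : K) ∈ ((IntermediateField.adjoin Λ
                (Set.range (Φ ∘ (φ ∘ ((↑) : s → K))))).restrictScalars k).comap β := by
              refine adjoin_le_of _ (fun a => ?_) ?_ z.2
              · have h7 : β (a : K) ∈ IntermediateField.adjoin Λ
                    (Set.range (Φ ∘ (φ ∘ ((↑) : s → K)))) := by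
                  rw [hαβ _ a.2]
                  exact (IntermediateField.adjoin Λ _).algebraMap_mem ⟨_, hαΛ _ a.2⟩
                exact h7
              · rintro _ ⟨a, rfl⟩
                exact IntermediateField.subset_adjoin Λ _ ⟨a, rfl⟩
            exact h6
          exact ⟨⟨_, h5⟩, rfl⟩
        · refine sup_le ?_ ?_
          · intro z hz
            exact IntermediateField.subset_adjoin _ _ (Or.inl hz)
          · intro z hz
            exact IntermediateField.subset_adjoin _ _ (Or.inr hz))
  -- (c)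
  obtain ⟨g, hg1, hg2⟩ := hom_ext (M := M) hU (β : K →+* E') (lam : M →+* E') hαβ
  let gk : IntermediateField.adjoin K (algOver M L) →ₐ[k] E' := { g with
    commutes' := fun a => by
      show g (algebraMap k _ a) = _
      rw [IsScalarTower.algebraMap_apply k K (IntermediateField.adjoin K (algOver M L)), hg1]
      exact β.commutes a }
  have hrange : gk.fieldRange = Λ ⊔ B := by
    apply le_antisymm
    · have h1 : ∀ (z : M) (hz : z ∈ IntermediateField.adjoin K (algOver M L)),
          gk ⟨z, hz⟩ ∈ Λ ⊔ B := by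
        intro z hz
        induction hz using IntermediateField.adjoin_induction with
        | mem x hx =>
          have h2 : gk ⟨x, IntermediateField.subset_adjoin _ _ hx⟩ = lam x := hg2 _ hx
          rw [h2]
          exact (le_sup_left : Λ ≤ Λ ⊔ B) ⟨x, mem_LamK.mpr hx, rfl⟩
        | algebraMap x =>
          have h2 : gk (algebraMap K (IntermediateField.adjoin K (algOver M L)) x) = β x := hg1 x
          have h3 := (le_sup_right : B ≤ Λ ⊔ B) ⟨x, rfl⟩
          exact h2 ▸ h3
        | add x y hx hy h2 h3 =>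
          have h4 := map_add gk ⟨x, hx⟩ ⟨y, hy⟩
          have h5 := add_mem h2 h3
          rw [← h4] at h5
          exact h5
        | mul x y hx hy h2 h3 =>
          have h4 := map_mul gk ⟨x, hx⟩ ⟨y, hy⟩
          have h5 := mul_mem h2 h3
          rw [← h4] at h5
          exact h5
        | inv x hx h2 =>
          have h4 := map_inv₀ gk ⟨x, hx⟩
          have h5 := inv_mem h2
          rw [← h4] at h5
          exact h5
      rintro _ ⟨z, rfl⟩
      exact h1 z.1 z.2
    · refine sup_le ?_ ?_
      · rintro _ ⟨z, hz, rfl⟩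
        exact ⟨⟨z, IntermediateField.subset_adjoin _ _ (mem_LamK.mp hz)⟩,
          hg2 _ (mem_LamK.mp hz)⟩
      · rintro _ ⟨a, rfl⟩
        exact ⟨algebraMap K _ a, hg1 a⟩
  -- (d)
  have hBΩ' : B ≤ Ωj ⊔ IntermediateField.adjoin k (Set.range T) := by
    intro x hx
    have h1 : x ∈ F₀ := hK₀F₀ (hBK₀ hx)
    rw [hF₀] at h1
    refine adjoin_le_of _ (fun a => ?_) ?_ h1
    · exact (le_sup_left : Ωj ≤ _) (hαΩ a)
    · exact (IntermediateField.subset_adjoin k (Set.range T)).trans
        (le_sup_right : IntermediateField.adjoin k (Set.range T) ≤ Ωj ⊔ _)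
  refine ⟨E', inferInstance, inferInstance, Ωj ⊔ IntermediateField.adjoin k (Set.range T), gk,
    ?_, ?_, ?_⟩
  · exact hpure
  · rw [hrange]
    exact sup_le (hΛΩ.trans le_sup_left) hBΩ'
  · rw [hrange]
    intro x hx hax
    have h1 : IsAlgebraic (Ωj ⊔ B : IntermediateField k E') x :=
      isAlgebraic_mono (sup_le (hΛΩ.trans le_sup_left) le_sup_right) hax
    have h2 : x ∈ F₀ ⊔ (Ωj ⊔ B) := by
      refine (sup_le (le_sup_left.trans le_sup_right) ?_ :
        Ωj ⊔ IntermediateField.adjoin k (Set.range T) ≤ F₀ ⊔ (Ωj ⊔ B)) hx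
      rw [IntermediateField.adjoin_le_iff]
      rintro _ ⟨i, rfl⟩
      exact (le_sup_left : F₀ ≤ _) ⟨t i, rfl⟩
    have h3 := hbcA x h2 h1
    refine hbcB x ?_ hax
    exact (sup_le le_sup_left (le_sup_right.trans le_sup_right) :
      Ωj ⊔ B ≤ Ωj ⊔ (Λ ⊔ B)) h3

end

theorem UniR.uni {k K : Type} [Field k] [Field K] [Algebra k K] {L : IntermediateField k K}
    (h : UniR L) : Uni L := by
  obtain ⟨E, _, _, φ, h1, h2, h3, -⟩ := h
  exact ⟨E, inferInstance, inferInstance, φ, h1, h2, h3⟩

end Pool.Agent.Q84.UF
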