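import Pool.Agent.Q84.UF.Base

/-! Intersections of subfields over which the field is unirational over itself. -/

set_option autoImplicit false

namespace Pool.Agent.Q84.UF

open MvPolynomial

/-- choice of an independent subfamily -/
theorem pivot {K V ι : Type} [Field K] [AddCommGroup V] [Module K V] [Finite ι] (v : ι → V) :
    ∃ (r : ℕ) (s : Fin r → ι) (c : ι → Fin r → K), Function.Injective s ∧
      LinearIndependent K (v ∘ s) ∧ ∀ l, v l = ∑ j, c l j • v (s j) := by
  obtain ⟨κ, a, ha, hspan, hind⟩ := exists_linearIndependent' K v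
  have hfin : Finite κ := Finite.of_injective a ha
  have := Fintype.ofFinite κ
  let e := Fintype.equivFin κ
  have h : ∀ l, ∃ c : Fin (Fintype.card κ) → K, v l = ∑ j, c j • v (a (e.symm j)) := by
    intro l
    have h1 : v l ∈ Submodule.span K (Set.range (v ∘ a)) := by
      rw [hspan]
      exact Submodule.subset_span ⟨l, rfl⟩
    obtain ⟨c, hc⟩ := (Submodule.mem_span_range_iff_exists_fun K).1 h1
    refine ⟨c ∘ e.symm, ?_⟩
    rw [← hc]
    exact (Equiv.sum_comp e.symm (fun i => c i • (v ∘ a) i)).symm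
  choose c hc using h
  exact ⟨_, a ∘ e.symm, c, ha.comp e.symm.injective, hind.comp _ e.symm.injective, hc⟩

section

variable {K : Type} [Field K]

/-- the diagonal condition -/
def Dg (E : Type) [Field E] [Algebra K E] (φ : K →+* E) : Prop :=
  ∀ (ι : Type) [Fintype ι] (c a : ι → K), ∑ j, c j • φ (a j) = 0 → ∑ j, c j * a j = 0

/-- comparison of the linear relations -/
def RelLe {E E' : Type} [Field E] [Algebra K E] [Field E'] [Algebra K E'] (φ : K →+* E)
    (φ' : K →+* E') : Prop :=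
  ∀ (ι : Type) [Fintype ι] (c a : ι → K), ∑ j, c j • φ (a j) = 0 → ∑ j, c j • φ' (a j) = 0

/-- composition with a base change: deletion of the last step -/
theorem del_right {Ω E E' : Type} [Field Ω] [Field E] [Algebra K E] [Field E'] [Algebra Ω E']
    (ψ : K →+* Ω) (φ : K →+* E) (hφ : Dg E φ) (Φ : E →+* E')
    (hΦ : ∀ a, Φ (algebraMap K E a) = algebraMap Ω E' (ψ a))
    (hbc : ∀ (n : ℕ) (b : Fin n → E), LinearIndependent K b → LinearIndependent Ω (Φ ∘ b))
    {ι : Type} [Fintype ι] (c : ι → Ω) (a : ι → K) (h : ∑ j, c j • Φ (φ (a j)) = 0) :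
    ∑ j, c j * ψ (a j) = 0 := by
  obtain ⟨r, s, κ, -, hs, hκ⟩ := pivot (K := K) (fun j => φ (a j))
  have h1 : ∀ j, a j = ∑ l, κ j l * a (s l) := by
    classical
    intro j
    have h2 := hφ (Option (Fin r)) (fun o => o.elim (-1) (κ j)) (fun o => o.elim (a j)
      (fun l => a (s l))) (by
        rw [Fintype.sum_option]
        simp only [Option.elim]
        rw [hκ j, neg_smul, one_smul, neg_add_cancel])
    rw [Fintype.sum_option] at h2
    simp only [Option.elim] at h2
    linear_combination -h2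
  have h3 : ∑ l, (∑ j, c j * ψ (κ j l)) • (Φ ∘ ((fun j => φ (a j)) ∘ s)) l = 0 := by
    rw [← h]
    have h4 : ∀ j, c j • Φ (φ (a j)) = ∑ l, (c j * ψ (κ j l)) • Φ (φ (a (s l))) := by
      intro j
      rw [hκ j, map_sum, Finset.smul_sum]
      refine Finset.sum_congr rfl fun l _ => ?_
      rw [Algebra.smul_def (κ j l), map_mul, hΦ, mul_smul, Algebra.smul_def (ψ (κ j l))]
    rw [Finset.sum_congr rfl fun j _ => h4 j, Finset.sum_comm]
    refine Finset.sum_congr rfl fun l _ => ?_
    rw [Finset.sum_smul]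
    rfl
  have h5 := Fintype.linearIndependent_iff.1 (hbc r _ hs) _ h3
  have h6 : ∀ j, c j * ψ (a j) = ∑ l, (c j * ψ (κ j l)) * ψ (a (s l)) := by
    intro j
    rw [h1 j, map_sum, Finset.mul_sum]
    refine Finset.sum_congr rfl fun l _ => ?_
    rw [map_mul]
    ring
  rw [Finset.sum_congr rfl fun j _ => h6 j, Finset.sum_comm]
  refine Finset.sum_eq_zero fun l _ => ?_
  rw [← Finset.sum_mul, h5 l, zero_mul]

/-- deletion of the first step -/
theorem del_left {Ω E E' : Type} [Field Ω] [Algebra K Ω] [Field E] [Algebra K E] [Field E']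
    [Algebra Ω E'] (ψ : K →+* Ω) (hψ : Dg Ω ψ) (φ : K →+* E) (Φ : E →+* E')
    (hΦ : ∀ a, Φ (algebraMap K E a) = algebraMap Ω E' (ψ a))
    (hbc : ∀ (n : ℕ) (b : Fin n → E), LinearIndependent K b → LinearIndependent Ω (Φ ∘ b))
    {ι : Type} [Fintype ι] (c : ι → K) (a : ι → K)
    (h : ∑ j, (algebraMap K Ω (c j)) • Φ (φ (a j)) = 0) :
    ∑ j, c j • φ (a j) = 0 := by
  obtain ⟨r, s, κ, -, hs, hκ⟩ := pivot (K := K) (fun j => φ (a j))
  have h3 : ∑ l, (∑ j, algebraMap K Ω (c j) * ψ (κ j l)) • (Φ ∘ ((fun j => φ (a j)) ∘ s)) l =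
      0 := by
    rw [← h]
    have h4 : ∀ j, algebraMap K Ω (c j) • Φ (φ (a j)) =
        ∑ l, (algebraMap K Ω (c j) * ψ (κ j l)) • Φ (φ (a (s l))) := by
      intro j
      rw [hκ j, map_sum, Finset.smul_sum]
      refine Finset.sum_congr rfl fun l _ => ?_
      rw [Algebra.smul_def (κ j l), map_mul, hΦ, mul_smul, Algebra.smul_def (ψ (κ j l))]
    rw [Finset.sum_congr rfl fun j _ => h4 j, Finset.sum_comm]
    refine Finset.sum_congr rfl fun l _ => ?_
    rw [Finset.sum_smul]
    rfl
  have h5 := Fintype.linearIndependent_iff.1 (hbc r _ hs) _ h3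
  have h7 : ∀ l, ∑ j, c j * κ j l = 0 := by
    intro l
    apply hψ ι c (fun j => κ j l)
    rw [← h5 l]
    exact Finset.sum_congr rfl fun j _ => Algebra.smul_def _ _
  have h6 : ∀ j, c j • φ (a j) = ∑ l, (c j * κ j l) • φ (a (s l)) := by
    intro j
    rw [hκ j, Finset.smul_sum]
    exact Finset.sum_congr rfl fun l _ => (mul_smul _ _ _).symm
  rw [Finset.sum_congr rfl fun j _ => h6 j, Finset.sum_comm]
  refine Finset.sum_eq_zero fun l _ => ?_
  rw [← Finset.sum_smul, h7 l, zero_smul]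

/-- two prime ideals, one in the other, with quotients of the same transcendence degree -/
theorem stable {D E E' : Type} [CommRing D] [Algebra K D] [Field E] [Algebra K E]
    [Field E'] [Algebra K E'] (f : D →ₐ[K] E) (f' : D →ₐ[K] E')
    (hle : ∀ d, f' d = 0 → f d = 0) {r : ℕ} (a : Fin r → D)
    (ha : AlgebraicIndependent K (f ∘ a))
    (halg : ∀ d, IsAlgebraic (Algebra.adjoin K (Set.range (f' ∘ a))) (f' d)) (d : D)
    (hd : f d = 0) : f' d = 0 := by
  by_contra hne
  obtain ⟨q, hq0, hq⟩ := (halg d).exists_nonzero_coeff_and_aeval_eq_zero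
    (mem_nonZeroDivisors_of_ne_zero hne)
  have hQ : ∀ m, ∃ Q : MvPolynomial (Fin r) K, aeval (f' ∘ a) Q = (q.coeff m : E') := by
    intro m
    have h1 : ∀ z ∈ Algebra.adjoin K (Set.range (f' ∘ a)), ∃ Q : MvPolynomial (Fin r) K,
        aeval (f' ∘ a) Q = z := by
      intro z hz
      rw [Algebra.adjoin_range_eq_range_aeval] at hz
      exact hz
    exact h1 _ (q.coeff m).2
  choose Q hQ using hQ
  have hcomp : ∀ (g : D →ₐ[K] E) (P : MvPolynomial (Fin r) K),
      g (aeval a P) = aeval (g ∘ a) P := by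
    intro g P
    rw [← AlgHom.comp_apply, MvPolynomial.comp_aeval]
    rfl
  have hcomp' : ∀ (P : MvPolynomial (Fin r) K), f' (aeval a P) = aeval (f' ∘ a) P := by
    intro P
    rw [← AlgHom.comp_apply, MvPolynomial.comp_aeval]
    rfl
  obtain ⟨G, hG⟩ : ∃ G : D, G = ∑ m ∈ Finset.range (q.natDegree + 1), aeval a (Q m) * d ^ m :=
    ⟨_, rfl⟩
  have h1 : f' G = 0 := by
    rw [hG, map_sum, ← hq, Polynomial.aeval_eq_sum_range]
    refine Finset.sum_congr rfl fun m _ => ?_
    rw [map_mul, map_pow, hcomp', hQ, Algebra.smul_def]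
    rfl
  have h2 := hle G h1
  rw [hG, map_sum, Finset.sum_range_succ'] at h2
  simp only [map_mul, map_pow, hd, pow_zero, mul_one, pow_succ, mul_zero,
    Finset.sum_const_zero, zero_add, hcomp] at h2
  have h3 : Q 0 = 0 := by
    apply ha
    rw [map_zero]
    exact h2
  apply hq0
  apply Subtype.ext
  rw [← hQ 0, h3, map_zero]
  rfl

/-- the algebra of all formal combinations -/
noncomputable def ev {E : Type} [Field E] [Algebra K E] (φ : K →+* E) :
    MonoidAlgebra K K →ₐ[K] E := MonoidAlgebra.lift K E K (φ : K →* E)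

theorem ev_single {E : Type} [Field E] [Algebra K E] (φ : K →+* E) (a c : K) :
    ev φ (MonoidAlgebra.single a c) = c • φ a := by
  unfold ev
  rw [MonoidAlgebra.lift_single]
  rfl

theorem RelLe.ev {E E' : Type} [Field E] [Algebra K E] [Field E'] [Algebra K E']
    {φ : K →+* E} {φ' : K →+* E'} (h : RelLe φ φ') (d : MonoidAlgebra K K)
    (hd : UF.ev φ d = 0) : UF.ev φ' d = 0 := by
  classical
  have h1 : ∀ {E : Type} [Field E] [Algebra K E] (φ : K →+* E),
      UF.ev φ d = ∑ j : d.coeff.support, d.coeff j • φ j := by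
    intro E _ _ φ
    unfold UF.ev
    rw [MonoidAlgebra.lift_apply, Finsupp.sum, ← Finset.sum_coe_sort]
    rfl
  rw [h1] at hd ⊢
  exact h _ _ _ hd

theorem RelLe.of_ev {E E' : Type} [Field E] [Algebra K E] [Field E'] [Algebra K E']
    {φ : K →+* E} {φ' : K →+* E'} (h : ∀ d, UF.ev φ d = 0 → UF.ev φ' d = 0) : RelLe φ φ' := by
  intro ι _ c a hd
  have h1 : ∀ {E : Type} [Field E] [Algebra K E] (φ : K →+* E),
      UF.ev φ (∑ j, MonoidAlgebra.single (a j) (c j)) = ∑ j, c j • φ (a j) := by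
    intro E _ _ φ
    rw [map_sum]
    exact Finset.sum_congr rfl fun j _ => ev_single φ _ _
  have h2 := h (∑ j, MonoidAlgebra.single (a j) (c j)) (by rw [h1]; exact hd)
  rwa [h1] at h2

end

end Pool.Agent.Q84.UF
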