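import Pool.Agent.Q84.UF.Ram
import Pool.Agent.Q84.UF.HCrit

/-! The Hilbert property of varieties with families of unirational subvarieties. -/

set_option autoImplicit false

namespace Pool.Agent.Q84.UF

open AlgebraicGeometry CategoryTheory W560.HP Pool.Agent.TH178.HI Pool.Agent.Y742.HC

section

variable {k K Ω₀ : Type} [Field k] [CharZero k] [Field K] [Algebra k K] [Field Ω₀]
  [Algebra K Ω₀] [Algebra k Ω₀] [IsScalarTower k K Ω₀]

/-- In a unirational extension there is a realizable extension of `K` to which all the families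
lift. -/
theorem criterionL (hΩ : Pure (⊤ : IntermediateField k Ω₀)) [Algebra.EssFiniteType K Ω₀]
    {I : Type} {n : I → ℕ} (φ : ∀ i, K →ₐ[k] RF (n i) K) (hφ : ∀ i, PMove (φ i)) :
    ∃ M : IntermediateField K Ω₀, M ≤ algebraicClosure K Ω₀ ∧ FiniteDimensional K M ∧
      Realizable k M ∧ ∀ i, Lifts (φ i) M := by
  have hfin := finite_closure K Ω₀
  have hex : ∃ d : ℕ, ∃ M : IntermediateField K Ω₀, M ≤ algebraicClosure K Ω₀ ∧
      Realizable k M ∧ Module.finrank K M = d :=
    ⟨_, algebraicClosure K Ω₀, le_rfl, realizable_closure hΩ, rfl⟩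
  classical
  obtain ⟨M, hMA, hMr, hMd⟩ := Nat.find_spec hex
  have hmin : ∀ M' : IntermediateField K Ω₀, M' ≤ algebraicClosure K Ω₀ → Realizable k M' →
      Module.finrank K M ≤ Module.finrank K M' := by
    intro M' h1 h2
    rw [hMd]
    exact Nat.find_min' hex ⟨M', h1, h2, rfl⟩
  have hMfin : FiniteDimensional K M :=
    FiniteDimensional.of_injective (IntermediateField.inclusion hMA).toLinearMap
      (IntermediateField.inclusion hMA).injective
  refine ⟨M, hMA, hMfin, hMr, fun i => ?_⟩
  obtain ⟨M₁, hr, hl⟩ := lstep (M := M) (hφ i) hMr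
  have hle : IntermediateField.lift M₁ ≤ M := IntermediateField.lift_le M₁
  have hr' : Realizable k (IntermediateField.lift M₁) :=
    hr.equiv ((IntermediateField.liftAlgEquiv M₁).symm.restrictScalars k)
  have hfr := hmin (IntermediateField.lift M₁) (hle.trans hMA) hr'
  have heq : IntermediateField.lift M₁ = M := IntermediateField.eq_of_le_of_finrank_le hle hfr
  apply hl
  apply IntermediateField.lift_injective M
  rw [heq, IntermediateField.lift_top]

end

/-- The cover. -/
theorem covL {k K : Type} [Field k] [CharZero k] [Field K] [Algebra k K] {ι : Type} [Finite ι]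
    (φ₀ : K →ₐ[k] FractionRing (MvPolynomial ι k)) {I : Type} {n : I → ℕ}
    (φ : ∀ i, K →ₐ[k] RF (n i) K) (hφ : ∀ i, PMove (φ i)) :
    ∃ (M : Type) (_ : Field M) (_ : Algebra k M) (_ : Algebra K M) (_ : IsScalarTower k K M)
      (_ : FiniteDimensional K M),
      (∀ a : M, IsAlgebraic k a → a ∈ Set.range (algebraMap k M)) ∧
      (∀ i, Lifts (φ i) M) ∧ Realizable k M := by
  let Ω := FractionRing (MvPolynomial ι k)
  let _ : Algebra K Ω := φ₀.toRingHom.toAlgebra
  have : IsScalarTower k K Ω := IsScalarTower.of_algebraMap_eq fun a => (φ₀.commutes a).symm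
  have hess : Algebra.EssFiniteType k Ω := by
    have h1 : Algebra.EssFiniteType k (MvPolynomial ι k) := inferInstance
    have h2 : Algebra.EssFiniteType (MvPolynomial ι k) Ω :=
      .of_isLocalization _ (nonZeroDivisors _)
    exact .comp k (MvPolynomial ι k) Ω
  have hess' : Algebra.EssFiniteType K Ω := .of_comp k _ _
  obtain ⟨M, -, h2, h3, h4⟩ := criterionL (k := k) (K := K) (Ω₀ := Ω) (pure_frac k ι) φ hφ
  refine ⟨M, inferInstance, inferInstance, inferInstance, inferInstance, h2, ?_, h4, h3⟩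
  intro a ha
  have h5 : IsAlgebraic k (a : Ω) := ha.algHom (M.val.restrictScalars k)
  obtain ⟨c, hc⟩ := alg_frac (a : Ω) h5
  refine ⟨c, ?_⟩
  apply Subtype.ext
  rw [← hc]
  rfl

/-- The theorem for schemes. -/
theorem hilbL (k : Type) [Field k] [CharZero k]
    (hk : ∃ S : Finset k, IntermediateField.adjoin ℚ (S : Set k) = ⊤) (K : Type) [Field K]
    [Algebra k K] (X : Scheme.{0}) (p : X ⟶ Spec (CommRingCat.of k)) [IsIntegral X]
    [LocallyOfFiniteType p] (e : X.functionField ≃+* K)
    (he : ∀ a : k, e (toFF k X p a) = algebraMap k K a)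
    (hd : Pool.Agent.Y742.HC.DensePoints k X p) {I : Type} {n : I → ℕ}
    (φ : ∀ i, K →ₐ[k] RF (n i) K) (hφ : ∀ i, PMove (φ i))
    (hinv : ∀ c : K, (∀ i, φ i c = algebraMap K (RF (n i) K) c) →
      c ∈ Set.range (algebraMap k K)) :
    (∃ (M : Type) (_ : Field M) (_ : Algebra k M) (_ : Algebra K M) (_ : IsScalarTower k K M)
      (_ : FiniteDimensional K M),
      (∀ a : M, IsAlgebraic k a → a ∈ Set.range (algebraMap k M)) ∧
      (∀ i, Lifts (φ i) M) ∧
      (∀ P : FF.Place k K, (∃ i, Meets (φ i) P) → UnramifiedAt M P) ∧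
      (∀ (Y : Scheme.{0}) (q : Y ⟶ Spec (CommRingCat.of k)) [IsIntegral Y]
        [LocallyOfFiniteType q], (∃ g : Y.functionField ≃+* M,
          ∀ a : k, g (toFF k Y q a) = algebraMap k M a) → HilbertProperty k Y q) ∧
      (Function.Surjective (algebraMap K M) → HilbertProperty k X p)) ∧
    ((∀ P : FF.Place k K, PlaceOn k X e P → ∃ i, Meets (φ i) P) →
      (∀ (M : Type) [Field M] [Algebra k M] [Algebra K M] [IsScalarTower k K M]
        [FiniteDimensional K M], (∀ a : M, IsAlgebraic k a → a ∈ Set.range (algebraMap k M)) →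
        (∀ P : FF.Place k K, PlaceOn k X e P → UnramifiedAt M P) →
        Function.Surjective (algebraMap K M)) →
      HilbertProperty k X p ∧
      ((∀ x : X, IsIntegrallyClosed (X.presheaf.stalk x)) → HilbertPropertyIso k X p)) := by
  have hfg := sFgs k X p K ⟨e, he⟩
  have hU := uni_invariants hfg φ (fun i => (hφ i).isMove)
  have hbot : invariants φ = ⊥ := by
    rw [eq_bot_iff]
    intro a ha
    rw [IntermediateField.mem_bot]
    exact hinv a (mem_invariants.1 ha)
  rw [hbot] at hU
  obtain ⟨N, x, G, hG, h⟩ := goodL_of_uni hfg hU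
  obtain ⟨c₀, hc₁, hc₂⟩ := Pool.Agent.Y780.HC.sPts k X p K ⟨e, he⟩ hd N x G hG
  obtain ⟨m, ⟨φ₀⟩⟩ := h k c₀ hc₁ hc₂
  obtain ⟨M, _, _, _, _, _, hM1, hM2, hM3⟩ := covL φ₀ φ hφ
  have hun : ∀ P : FF.Place k K, (∃ i, Meets (φ i) P) → UnramifiedAt M P := by
    rintro P ⟨i, hi⟩
    exact unr_of_lifts (hφ i) (hM2 i) hi
  have hfin : Function.Surjective (algebraMap K M) → HilbertProperty k X p := by
    intro hs
    have hr : Realizable k K := hM3.equiv
      ((AlgEquiv.ofBijective (IsScalarTower.toAlgHom k K M)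
        ⟨(algebraMap K M).injective, hs⟩))
    exact hr.hilbert hk X p ⟨e, he⟩
  refine ⟨⟨M, inferInstance, inferInstance, inferInstance, inferInstance, inferInstance, hM1,
    hM2, hun, fun Y q _ _ hY => hM3.hilbert hk Y q hY, hfin⟩, fun hP hM => ?_⟩
  have h4 := hfin (hM M hM1 fun P hPX => hun P (hP P hPX))
  exact ⟨h4, fun hn => iso_of_hp Pool.Agent.W376.HP.nrm k X p hn h4⟩

end Pool.Agent.Q84.UF
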