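import Pool.Agent.Q84.UF.Main
import Pool.Agent.TH178.HI.CritFin

/-! Linear disjointness over the base of a fibration. -/

set_option autoImplicit false

namespace Pool.Agent.Q84.UF

open MvPolynomial Pool.Agent.TH178.HI

theorem mem_of_alg_closed {F E : Type} [Field F] [IsAlgClosed F] [Field E] [Algebra F E] {z : E}
    (hz : IsAlgebraic F z) : z ∈ Set.range (algebraMap F E) := by
  have h1 := IsAlgClosed.degree_eq_one_of_irreducible F (minpoly.irreducible hz.isIntegral)
  exact minpoly.mem_range_of_degree_eq_one F z h1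

section

variable {k K M : Type} [Field k] [Field K] [Algebra k K] [Field M] [Algebra K M]

/-- elements of `K` which are linearly independent over `L` remain so over the elements algebraic
over `L` -/
theorem ld [Algebra.IsAlgebraic K M] {L : IntermediateField k K} (h : Uni L) {n : ℕ}
    (b : Fin n → K) (hb : LinearIndependent L b) (c : Fin n → M) (hc : ∀ j, IsAlgebraic L (c j))
    (h0 : ∑ j, c j * algebraMap K M (b j) = 0) (j : Fin n) : c j = 0 := by
  obtain ⟨E, _, _, φ, hP, hfix, hind⟩ := h
  let Kc := AlgebraicClosure K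
  obtain ⟨E', _, _, Φ, hΦ, -, hbc⟩ := bc hP (algebraMap K Kc)
  let Ê := AlgebraicClosure E'
  let ψ : K →+* Ê := (algebraMap E' Ê).comp (Φ.comp φ)
  let _ : Algebra K Ê := ψ.toAlgebra
  let ρ : M →ₐ[K] Ê := IsAlgClosed.lift
  have hρ : ∀ a : K, ρ (algebraMap K M a) = algebraMap E' Ê (Φ (φ a)) := fun a => ρ.commutes a
  let _ : Algebra Kc Ê := ((algebraMap E' Ê).comp (algebraMap Kc E')).toAlgebra
  have hd : ∀ j, ∃ d : Kc, algebraMap E' Ê (algebraMap Kc E' d) = ρ (c j) := by
    intro j
    have h1 : IsAlgebraic Kc (ρ (c j)) := by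
      obtain ⟨q, hq, hq0⟩ := hc j
      refine ⟨q.map ((algebraMap K Kc).comp (algebraMap L K)), ?_, ?_⟩
      · rwa [Ne, Polynomial.map_eq_zero]
      · rw [Polynomial.aeval_def, Polynomial.eval₂_map]
        have h2 := Polynomial.hom_eval₂ q (algebraMap L M) (ρ : M →+* Ê) (c j)
        have h3 : Polynomial.eval₂ (algebraMap L M) (c j) q = 0 := hq0
        rw [h3, map_zero] at h2
        have h4 : (algebraMap Kc Ê).comp ((algebraMap K Kc).comp (algebraMap L K)) =
            (ρ : M →+* Ê).comp (algebraMap L M) := by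
          ext a
          show algebraMap E' Ê (algebraMap Kc E' (algebraMap K Kc (a : K))) =
            ρ (algebraMap K M (a : K))
          rw [hρ, hfix _ a.2, hΦ]
        rw [h4]
        exact h2.symm
    obtain ⟨d, hd⟩ := mem_of_alg_closed h1
    exact ⟨d, hd⟩
  choose d hd using hd
  have h2 : ∑ j, d j • (Φ ∘ (φ ∘ b)) j = 0 := by
    apply (algebraMap E' Ê).injective
    rw [map_zero, map_sum]
    have h3 := congrArg ρ h0
    rw [map_sum, map_zero] at h3
    rw [← h3]
    refine Finset.sum_congr rfl fun j _ => ?_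
    rw [map_mul, hρ, ← hd, Algebra.smul_def, map_mul]
    rfl
  have h3 := Fintype.linearIndependent_iff.1 (hbc n _ (hind n b hb)) d h2 j
  have h5 : ρ (c j) = 0 := by rw [← hd, h3, map_zero, map_zero]
  exact (map_eq_zero_iff ρ ρ.injective).1 h5

/-- homomorphisms of the field generated by `K` and the elements algebraic over `L` -/
theorem hom_ext [Algebra.IsAlgebraic K M] {L : IntermediateField k K} (h : Uni L) {E : Type}
    [Field E] (χ : K →+* E) (y : M →+* E) (hy : ∀ a ∈ L, χ a = y (algebraMap K M a)) :
    ∃ g : IntermediateField.adjoin K (algOver M L) →+* E,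
      (∀ a, g (algebraMap K _ a) = χ a) ∧
      ∀ z : IntermediateField.adjoin K (algOver M L), IsAlgebraic L (z : M) → g z = y z := by
  classical
  let S := algOver M L
  let M₁ := IntermediateField.adjoin K S
  let z₁ : S → M₁ := fun s => ⟨(s : M), IntermediateField.subset_adjoin K S s.2⟩
  let ev : MvPolynomial S K →ₐ[K] M₁ := aeval z₁
  let ev' : MvPolynomial S K →+* E := eval₂Hom χ (fun s => y (s : M))
  have hsurj : Function.Surjective ev := by
    intro z
    have h1 : (z : M) ∈ Algebra.adjoin K S := by
      rw [← IntermediateField.adjoin_toSubalgebra_of_isAlgebraic (fun x hx =>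
        (Algebra.IsAlgebraic.isAlgebraic x))]
      exact z.2
    have h2 : (z : M) ∈ Algebra.adjoin K (Set.range ((↑) : S → M)) := by
      rwa [Subtype.range_coe]
    rw [Algebra.adjoin_range_eq_range_aeval] at h2
    obtain ⟨P, hP⟩ := h2
    refine ⟨P, Subtype.ext ?_⟩
    rw [← hP]
    have h3 : (M₁.val : M₁ →ₐ[K] M).comp ev = aeval ((↑) : S → M) := by
      apply MvPolynomial.algHom_ext
      intro s
      simp [ev, z₁]
    exact DFunLike.congr_fun h3 P
  have hev : ∀ P, ((ev P : M₁) : M) = aeval ((↑) : S → M) P := by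
    intro P
    have h3 : (M₁.val : M₁ →ₐ[K] M).comp ev = aeval ((↑) : S → M) := by
      apply MvPolynomial.algHom_ext
      intro s
      simp [ev, z₁]
    exact DFunLike.congr_fun h3 P
  have hker : RingHom.ker (ev : MvPolynomial S K →+* M₁) ≤ RingHom.ker ev' := by
    intro P hP
    rw [RingHom.mem_ker] at hP ⊢
    have h0 : aeval ((↑) : S → M) P = 0 := by
      rw [← hev]
      exact congrArg Subtype.val hP
    obtain ⟨r, s, c, -, hs, hc⟩ := pivot (K := L) (fun m : P.support => coeff (m : S →₀ ℕ) P)
    let mon : P.support → M := fun m => (m : S →₀ ℕ).prod fun s e => (s : M) ^ e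
    have h1 : ∑ m : P.support, algebraMap K M (coeff (m : S →₀ ℕ) P) * mon m = 0 := by
      rw [← h0, aeval_def, eval₂_eq, Finset.sum_coe_sort P.support
        (fun m => algebraMap K M (coeff m P) * m.prod fun s e => (s : M) ^ e)]
      refine Finset.sum_congr rfl fun m _ => ?_
      rfl
    have h2 : ∑ j, (∑ m : P.support, algebraMap L M (c m j) * mon m) *
        algebraMap K M ((fun m : P.support => coeff (m : S →₀ ℕ) P) (s j)) = 0 := by
      rw [← h1]
      have h3 : ∀ m : P.support, algebraMap K M (coeff (m : S →₀ ℕ) P) * mon m =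
          ∑ j, algebraMap L M (c m j) * mon m *
            algebraMap K M ((fun m : P.support => coeff (m : S →₀ ℕ) P) (s j)) := by
        intro m
        have h4 : coeff (m : S →₀ ℕ) P = ∑ j, c m j • coeff (s j : S →₀ ℕ) P := hc m
        rw [h4, map_sum, Finset.sum_mul]
        refine Finset.sum_congr rfl fun j _ => ?_
        have h5 : algebraMap K M (c m j • coeff (s j : S →₀ ℕ) P) =
            algebraMap L M (c m j) * algebraMap K M (coeff (s j : S →₀ ℕ) P) := by
          rw [Algebra.smul_def, map_mul]
          rfl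
        rw [h5]
        ring
      rw [Finset.sum_congr rfl fun m _ => h3 m, Finset.sum_comm]
      refine Finset.sum_congr rfl fun j _ => ?_
      rw [Finset.sum_mul]
    have hmon : ∀ m : P.support, IsAlgebraic L (mon m) := by
      intro m
      have h3 : ∀ m : S →₀ ℕ, IsAlgebraic L (m.prod fun s e => (s : M) ^ e) := by
        intro m
        rw [Finsupp.prod]
        have h4 : (∏ s ∈ m.support, (s : M) ^ m s) ∈ algebraicClosure L M := by
          refine prod_mem fun s _ => pow_mem ?_ _
          rw [mem_algebraicClosure_iff]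
          exact s.2
        exact mem_algebraicClosure_iff.1 h4
      exact h3 m
    have h4 := ld (M := M) h _ hs _ (fun j => by
      have h5 : ∑ m : P.support, algebraMap L M (c m j) * mon m ∈ algebraicClosure L M := by
        refine sum_mem fun m _ => mul_mem ?_ ?_
        · exact (algebraicClosure L M).algebraMap_mem _
        · rw [mem_algebraicClosure_iff]
          exact hmon m
      exact mem_algebraicClosure_iff.1 h5) h2
    have h5 : ev' P = ∑ m : P.support, χ (coeff (m : S →₀ ℕ) P) * y (mon m) := by
      show eval₂ χ (fun s : S => y (s : M)) P = _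
      rw [eval₂_eq, Finset.sum_coe_sort P.support
        (fun m => χ (coeff m P) * y (m.prod fun s e => (s : M) ^ e))]
      refine Finset.sum_congr rfl fun m _ => ?_
      rw [Finsupp.prod, map_prod]
      congr 1
      refine Finset.prod_congr rfl fun s _ => ?_
      rw [map_pow]
    rw [h5]
    have h6 : ∀ m : P.support, χ (coeff (m : S →₀ ℕ) P) * y (mon m) =
        ∑ j, χ (coeff (s j : S →₀ ℕ) P) * y (algebraMap L M (c m j) * mon m) := by
      intro m
      have h4 : coeff (m : S →₀ ℕ) P = ∑ j, c m j • coeff (s j : S →₀ ℕ) P := hc m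
      rw [h4, map_sum, Finset.sum_mul]
      refine Finset.sum_congr rfl fun j _ => ?_
      have h7 : χ (c m j • coeff (s j : S →₀ ℕ) P) =
          y (algebraMap L M (c m j)) * χ (coeff (s j : S →₀ ℕ) P) := by
        rw [Algebra.smul_def, map_mul]
        congr 1
        exact hy _ (c m j).2
      rw [h7, map_mul]
      ring
    rw [Finset.sum_congr rfl fun m _ => h6 m, Finset.sum_comm]
    refine Finset.sum_eq_zero fun j _ => ?_
    rw [← Finset.mul_sum, ← map_sum, h4 j, map_zero, mul_zero]
  let g : M₁ →+* E := (ev : MvPolynomial S K →+* M₁).liftOfRightInverse _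
      (Function.rightInverse_surjInv hsurj) ⟨ev', hker⟩
  have hg : ∀ P, g (ev P) = ev' P := fun P =>
    (ev : MvPolynomial S K →+* M₁).liftOfRightInverse_comp_apply _
        (Function.rightInverse_surjInv hsurj) ⟨ev', hker⟩ P
  refine ⟨g, fun a => ?_, fun z hz => ?_⟩
  · have h1 := hg (C a)
    have h2 : ev (C a) = algebraMap K M₁ a := ev.commutes a
    rw [h2] at h1
    rw [h1]
    show eval₂ χ (fun s : S => y (s : M)) (C a) = _
    rw [eval₂_C]
  · have h1 := hg (X ⟨(z : M), hz⟩)
    have h2 : ev (X ⟨(z : M), hz⟩) = z := by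
      show aeval z₁ (X _) = _
      rw [aeval_X]
    rw [h2] at h1
    rw [h1]
    show eval₂ χ (fun s : S => y (s : M)) (X _) = _
    rw [eval₂_X]

end

end Pool.Agent.Q84.UF
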