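import Pool.Agent.Q84.UF.LocR
import Pool.Agent.Q84.UF.HStep

/-! Families of unirational subvarieties lift to minimal covers. -/

set_option autoImplicit false

namespace Pool.Agent.Q84.UF

open MvPolynomial Pool.Agent.TH178.HI

/-- A family of unirational subvarieties through the general point: a rational map
`f : X × 𝔸^n ⇢ X`, defined at the generic point of `X × 0`, with `f (x, 0) = x`. In terms of the
function field `K` of `X`: a homomorphism `φ : K → K(t)` such that each `φ a` is a quotient of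
polynomials, defined at `t = 0` and with the value `a` there. -/
def PMove {k K : Type} [Field k] [Field K] [Algebra k K] {n : ℕ} (φ : K →ₐ[k] RF n K) : Prop :=
  ∀ a : K, ∃ P Q : MvPolynomial (Fin n) K, constantCoeff Q ≠ 0 ∧
    φ a * algebraMap _ (RF n K) Q = algebraMap _ (RF n K) P ∧
    constantCoeff P = a * constantCoeff Q

/-- The family lifts to the cover `Y → X` with function field `M` of `Y`: there is a rational map
`g : Y × 𝔸^n ⇢ Y` over `f` with `g (y, 0) = y`. -/
def Lifts {k K : Type} [Field k] [Field K] [Algebra k K] {n : ℕ} (φ : K →ₐ[k] RF n K) (M : Type)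
    [Field M] [Algebra k M] [Algebra K M] : Prop :=
  ∃ ε : M →ₐ[k] RF n M, PMove ε ∧ ∀ a : K, ε (algebraMap K M a) = chg (algebraMap K M) (φ a)

section

variable {k K M : Type} [Field k] [Field K] [Algebra k K] [Field M] [Algebra k M]

/-- extension of scalars over `k` -/
noncomputable def chgA {n : ℕ} (ψ : K →ₐ[k] M) : RF n K →ₐ[k] RF n M :=
  { chg (ψ : K →+* M) with
    commutes' := fun c => by
      show chg (ψ : K →+* M) (algebraMap k (RF n K) c) = algebraMap k (RF n M) c
      rw [IsScalarTower.algebraMap_apply k K (RF n K), chg_C,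
        IsScalarTower.algebraMap_apply k M (RF n M)]
      congr 1
      exact ψ.commutes c }

theorem chgA_apply {n : ℕ} (ψ : K →ₐ[k] M) (z : RF n K) :
    chgA ψ z = chg (ψ : K →+* M) z := rfl

theorem PMove.isMove {n : ℕ} {φ : K →ₐ[k] RF n K} (h : PMove φ) : IsMove φ := by
  have h' : Sp (φ : K →+* RF n K) (RingHom.id K) := h
  obtain ⟨r, h1, h2⟩ := h'.exists
  intro m c a hs
  have h3 : a0 n K (∑ j, algebraMap (MvPolynomial (Fin n) K) (A0 n K) (C (c j)) * r (a j)) = 0 := by
    rw [map_sum, ← hs]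
    refine Finset.sum_congr rfl fun j _ => ?_
    rw [map_mul, a0_map, h1]
    rfl
  have h4 := a0_inj (h3.trans (map_zero _).symm)
  have h5 := congrArg (e0 n K) h4
  rw [map_sum, map_zero] at h5
  rw [← h5]
  refine Finset.sum_congr rfl fun j _ => ?_
  rw [map_mul, e0_map, h2, constantCoeff_C]
  rfl

theorem pure_sup {E₀ E' : Type} [Field E₀] [Algebra k E₀] [Field E'] [Algebra k E']
    [Algebra E₀ E'] [IsScalarTower k E₀ E'] {Ω : IntermediateField k E₀} (hΩ : Pure Ω) {n : ℕ}
    {T : Fin n → E'} (hT : AlgebraicIndependent E₀ T) :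
    Pure (Ω.map (IsScalarTower.toAlgHom k E₀ E') ⊔ IntermediateField.adjoin k (Set.range T)) := by
  obtain ⟨ι, hι, X, hX, rfl⟩ := hΩ
  have h1 : AlgebraicIndependent k (Sum.elim T (algebraMap E₀ E' ∘ X)) := hX.sumElim_comp hT
  refine ⟨Fin n ⊕ ι, inferInstance, _, h1, ?_⟩
  rw [Set.Sum.elim_range, IntermediateField.adjoin_union, IntermediateField.adjoin_map, sup_comm,
    Set.range_comp]
  rfl

theorem ind_map {E₀ E' : Type} [Field E₀] [Algebra k E₀] [Field E'] [Algebra k E']
    [Algebra E₀ E'] [IsScalarTower k E₀ E'] (Ω : IntermediateField k E₀) {n : ℕ}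
    {T : Fin n → E'} (hT : AlgebraicIndependent E₀ T) :
    AlgebraicIndependent (Ω.map (IsScalarTower.toAlgHom k E₀ E')) T := by
  let j := IsScalarTower.toAlgHom k E₀ E'
  let ρ : Ω.map j →+* E₀ :=
    (algebraMap Ω E₀).comp (IntermediateField.equivMap Ω j).symm.toRingEquiv.toRingHom
  have he : ∀ u : Ω.map j, j (ρ u) = u := by
    intro u
    obtain ⟨e, rfl⟩ := (IntermediateField.equivMap Ω j).surjective u
    show j (((IntermediateField.equivMap Ω j).symm (IntermediateField.equivMap Ω j e) : Ω) : E₀) = _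
    rw [AlgEquiv.symm_apply_apply]
    rfl
  let _ : Algebra (Ω.map j) E₀ := ρ.toAlgebra
  have : IsScalarTower (Ω.map j) E₀ E' := IsScalarTower.of_algebraMap_eq fun u => (he u).symm
  exact hT.restrictScalars ρ.injective

/-- base change of a relatively algebraically closed subfield -/
theorem rel_T [CharZero k] {E₀ E' : Type} [Field E₀] [Algebra k E₀] [Field E'] [Algebra k E']
    [Algebra E₀ E'] [IsScalarTower k E₀ E'] {K₀ Ω : IntermediateField k E₀} (hK : K₀ ≤ Ω)
    (hcl : RelCl K₀ Ω) {n : ℕ} {T : Fin n → E'} (hT : AlgebraicIndependent E₀ T) :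
    RelCl (K₀.map (IsScalarTower.toAlgHom k E₀ E') ⊔ IntermediateField.adjoin k (Set.range T))
      (Ω.map (IsScalarTower.toAlgHom k E₀ E') ⊔ IntermediateField.adjoin k (Set.range T)) := by
  classical
  have hTΩ := ind_map Ω hT
  have h1 := Pool.Agent.W21.HP.bc Pool.Agent.W417.HP.bc1 Pool.Agent.W803.HP.bc2 k E'
    (K₀.map (IsScalarTower.toAlgHom k E₀ E')) (Ω.map (IsScalarTower.toAlgHom k E₀ E'))
    (K₀.map (IsScalarTower.toAlgHom k E₀ E') ⊔ IntermediateField.adjoin k (Set.range T))
    (IntermediateField.map_mono _ hK) le_sup_left (by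
      rintro _ ⟨x, hx, rfl⟩ hx'
      exact ⟨x, hcl x hx (isAlgebraic_of_map _ _ hx'), rfl⟩)
    ⟨(Set.finite_range T).toFinset, by rw [Set.Finite.coe_toFinset]⟩ (by
      refine ⟨(Set.finite_range T).toFinset, ?_, ?_, ?_⟩
      · rw [Set.Finite.coe_toFinset]
        exact (IntermediateField.subset_adjoin k (Set.range T)).trans
          (le_sup_right : IntermediateField.adjoin k (Set.range T) ≤ _ ⊔ _)
      · exact (hTΩ.coe_range).comp (fun x : (Set.finite_range T).toFinset =>
          (⟨(x : E'), (Set.finite_range T).mem_toFinset.1 x.2⟩ : Set.range T)) (fun a b h => by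
            have h' := congrArg Subtype.val h
            exact Subtype.ext h')
      · rw [Set.Finite.coe_toFinset]
        refine alg_adj _ _ _ (Set.range T) (fun a ha => ?_) ?_
        · exact isAlgebraic_algebraMap (⟨a, IntermediateField.subset_adjoin _ _ ha⟩ :
            IntermediateField.adjoin (K₀.map (IsScalarTower.toAlgHom k E₀ E')) (Set.range T))
        · refine sup_le ?_ ?_
          · intro z hz
            exact IntermediateField.subset_adjoin _ _ (Or.inl hz)
          · exact IntermediateField.adjoin.mono k _ _ Set.subset_union_right)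
  intro x hx hx'
  refine h1 x ?_ hx'
  exact (sup_le le_sup_left (le_sup_right.trans le_sup_right) :
    Ω.map (IsScalarTower.toAlgHom k E₀ E') ⊔ IntermediateField.adjoin k (Set.range T) ≤
    Ω.map (IsScalarTower.toAlgHom k E₀ E') ⊔ (K₀.map (IsScalarTower.toAlgHom k E₀ E') ⊔
      IntermediateField.adjoin k (Set.range T))) hx

variable [Algebra K M] [IsScalarTower k K M]

/-- **The lifting step.** -/
theorem lstep [CharZero k] {n : ℕ} {φ : K →ₐ[k] RF n K} (hφ : PMove φ) (hM : Realizable k M) :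
    ∃ M₁ : IntermediateField K M, Realizable k M₁ ∧ (M₁ = ⊤ → Lifts φ M) := by
  classical
  obtain ⟨E₀, _, _, Ω, y, hΩ, hyΩ, hcl⟩ := hM
  let E' := RF n E₀
  let j : E₀ →ₐ[k] E' := IsScalarTower.toAlgHom k E₀ E'
  let Y : RF n M →ₐ[k] E' := chgA y
  let T : Fin n → E' := fun i => algebraMap (MvPolynomial (Fin n) E₀) E' (X i)
  have hT : AlgebraicIndependent E₀ T := ai_frac E₀ (Fin n)
  let φM : K →ₐ[k] RF n M := (chgA (IsScalarTower.toAlgHom k K M)).comp φ
  have hφ' : Sp (φ : K →+* RF n K) (RingHom.id K) := hφ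
  have hφM : Sp (φM : K →+* RF n M) (algebraMap K M) := hφ'.chg (algebraMap K M)
  obtain ⟨ρ, hρ1, hρ2⟩ := hφM.exists
  have hρ1' : ∀ a, a0 n M (ρ a) = φM a := hρ1
  let β : K →ₐ[k] E' := Y.comp φM
  have hYj : ∀ m : M, Y (algebraMap M (RF n M) m) = j (y m) := fun m => chg_C _ m
  have hYT : ∀ i, Y (algebraMap (MvPolynomial (Fin n) M) (RF n M) (X i)) = T i := by
    intro i
    have h1 := chg_map (n := n) (y : M →+* E₀) (X i)
    rw [map_X] at h1
    exact h1
  have hKc : Y.fieldRange = y.fieldRange.map j ⊔ IntermediateField.adjoin k (Set.range T) := by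
    apply le_antisymm
    · rintro _ ⟨z, rfl⟩
      have hz : z ∈ IntermediateField.adjoin M (Set.range fun i : Fin n =>
          algebraMap (MvPolynomial (Fin n) M) (RF n M) (X i)) := by
        rw [adj_frac M (Fin n)]
        trivial
      have hC : z ∈ (y.fieldRange.map j ⊔ IntermediateField.adjoin k (Set.range T)).comap Y := by
        refine adjoin_le_of _ (fun m => ?_) ?_ hz
        · show Y (algebraMap M (RF n M) m) ∈
            y.fieldRange.map j ⊔ IntermediateField.adjoin k (Set.range T)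
          rw [hYj]
          exact (le_sup_left : y.fieldRange.map j ≤ _) ⟨y m, ⟨m, rfl⟩, rfl⟩
        · rintro _ ⟨i, rfl⟩
          show Y (algebraMap (MvPolynomial (Fin n) M) (RF n M) (X i)) ∈
            y.fieldRange.map j ⊔ IntermediateField.adjoin k (Set.range T)
          rw [hYT]
          exact (le_sup_right : IntermediateField.adjoin k (Set.range T) ≤ _)
            (IntermediateField.subset_adjoin _ _ ⟨i, rfl⟩)
      exact hC
    · refine sup_le ?_ ?_
      · rintro _ ⟨_, ⟨m, rfl⟩, rfl⟩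
        exact ⟨algebraMap M (RF n M) m, hYj m⟩
      · rw [IntermediateField.adjoin_le_iff]
        rintro _ ⟨i, rfl⟩
        exact ⟨_, hYT i⟩
  have hpure := pure_sup hΩ hT
  have hrel := rel_T hyΩ hcl hT
  have hle : Y.fieldRange ≤ Ω.map j ⊔ IntermediateField.adjoin k (Set.range T) := by
    rw [hKc]
    exact sup_le_sup_right (IntermediateField.map_mono _ hyΩ) _
  rw [← hKc] at hrel
  have hβY : β.fieldRange ≤ Y.fieldRange := by
    rintro _ ⟨a, rfl⟩
    exact ⟨φM a, rfl⟩
  obtain ⟨Ω', hΩ'⟩ : ∃ Ω', Ω' = Ω.map j ⊔ IntermediateField.adjoin k (Set.range T) := ⟨_, rfl⟩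
  have hpure' : Pure Ω' := by rw [hΩ']; exact hpure
  have hrel' : RelCl Y.fieldRange Ω' := by rw [hΩ']; exact hrel
  have hle' : Y.fieldRange ≤ Ω' := by rw [hΩ']; exact hle
  let N₁ : IntermediateField k E' :=
    ((algebraicClosure β.fieldRange E').restrictScalars k) ⊓ Ω'
  have hN₁ : ∀ z, z ∈ N₁ ↔ IsAlgebraic β.fieldRange z ∧ z ∈ Ω' := by
    intro z
    show z ∈ ((algebraicClosure β.fieldRange E').restrictScalars k) ⊓ Ω' ↔ _
    rw [IntermediateField.mem_inf, IntermediateField.mem_restrictScalars,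
      mem_algebraicClosure_iff]
  have hβN : ∀ a, β a ∈ N₁ := by
    intro a
    refine (hN₁ _).2 ⟨isAlgebraic_algebraMap (⟨β a, ⟨a, rfl⟩⟩ : β.fieldRange), ?_⟩
    exact hle' (hβY ⟨a, rfl⟩)
  have hNrel : RelCl N₁ Ω' := by
    intro x hx hx'
    refine (hN₁ x).2 ⟨?_, hx⟩
    have h1 : IsAlgebraic ((algebraicClosure β.fieldRange E').restrictScalars k) x :=
      isAlgebraic_mono inf_le_left hx'
    have h2 : IsAlgebraic (algebraicClosure β.fieldRange E') x := h1
    exact h2.restrictScalars β.fieldRange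
  have hNr : Realizable k N₁ := by
    refine ⟨E', inferInstance, inferInstance, Ω', N₁.val, hpure', ?_, ?_⟩
    · rw [IntermediateField.fieldRange_val]
      exact inf_le_right
    · rw [IntermediateField.fieldRange_val]
      exact hNrel
  let G : A0 n M →+* E' := (Y : RF n M →+* E').comp (a0 n M)
  have hG : Function.Injective G := Y.injective.comp a0_inj
  have hNG : ∀ z : N₁, ∃ w, G w = (N₁.val : N₁ →+* E') z := by
    rintro ⟨z, hz⟩
    obtain ⟨hz1, hz2⟩ := (hN₁ z).1 hz
    obtain ⟨z', rfl⟩ := hrel' z hz2 (isAlgebraic_mono hβY hz1)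
    obtain ⟨q, hq, hq0⟩ := hz1
    let b : β.fieldRange →+* K := (AlgEquiv.ofInjectiveField β).symm.toRingEquiv.toRingHom
    have hb : ∀ u : β.fieldRange, Y (a0 n M (ρ (b u))) = u := by
      intro u
      rw [hρ1']
      have h1 : (AlgEquiv.ofInjectiveField β) ((AlgEquiv.ofInjectiveField β).symm u) = u :=
        AlgEquiv.apply_symm_apply _ u
      exact congrArg Subtype.val h1
    have h1 : Polynomial.eval₂ ((a0 n M).comp (ρ.comp b)) z' q = 0 := by
      apply Y.injective
      rw [map_zero]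
      have h2 := Polynomial.hom_eval₂ q ((a0 n M).comp (ρ.comp b)) (Y : RF n M →+* E') z'
      have h3 : (Y : RF n M →+* E').comp ((a0 n M).comp (ρ.comp b)) =
          algebraMap β.fieldRange E' := by
        ext u
        exact hb u
      rw [h3] at h2
      exact h2.trans hq0
    obtain ⟨w, hw⟩ := a0_int (ρ.comp b) hq h1
    exact ⟨w, congrArg Y hw⟩
  obtain ⟨θ₀, hθ₀⟩ := fac (N₁.val : N₁ →+* E') G hG hNG
  have hθβ : ∀ a, θ₀ ⟨β a, hβN a⟩ = ρ a := by
    intro a
    apply hG
    rw [hθ₀]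
    show β a = Y (a0 n M (ρ a))
    rw [hρ1']
    rfl
  let βN : K →ₐ[k] N₁ := β.codRestrict N₁.toSubalgebra hβN
  let _ : Algebra K N₁ := (βN : K →+* N₁).toAlgebra
  have : IsScalarTower k K N₁ := IsScalarTower.of_algebraMap_eq fun c => (βN.commutes c).symm
  let θ : N₁ →ₐ[K] M := { (e0 n M).comp θ₀ with
    commutes' := fun a => by
      show e0 n M (θ₀ ⟨β a, hβN a⟩) = _
      rw [hθβ, hρ2] }
  have hθ : ∀ z, θ z = e0 n M (θ₀ z) := fun _ => rfl
  let eq := AlgEquiv.ofInjectiveField θ
  refine ⟨θ.fieldRange, hNr.equiv (eq.symm.restrictScalars k), fun htop => ?_⟩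
  have hsurj : ∀ m : M, ∃ z, θ z = m := by
    intro m
    have h1 : m ∈ θ.fieldRange := by rw [htop]; trivial
    exact h1
  let eM : N₁ ≃ₐ[K] M := AlgEquiv.ofBijective θ ⟨θ.injective, hsurj⟩
  have heM : ∀ m, θ (eM.symm m) = m := fun m => eM.apply_symm_apply m
  let ε₀ : M →+* RF n M := (a0 n M).comp (θ₀.comp (eM.symm.toRingEquiv.toRingHom))
  have hε₀ : ∀ m, ε₀ m = a0 n M (θ₀ (eM.symm m)) := fun _ => rfl
  have hεK : ∀ a : K, ε₀ (algebraMap K M a) = φM a := by
    intro a
    rw [hε₀, eM.symm.commutes]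
    show a0 n M (θ₀ ⟨β a, hβN a⟩) = _
    rw [hθβ, hρ1']
  let ε : M →ₐ[k] RF n M := { ε₀ with
    commutes' := fun c => by
      show ε₀ (algebraMap k M c) = _
      rw [IsScalarTower.algebraMap_apply k K M, hεK]
      exact φM.commutes c }
  refine ⟨ε, fun m => ?_, hεK⟩
  obtain ⟨P, Q, hQ, h1, h2⟩ := a0_surj (θ₀ (eM.symm m))
  refine ⟨P, Q, hQ, h1, ?_⟩
  rw [h2, ← hθ, heM]

end

end Pool.Agent.Q84.UF
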