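import Pool.Agent.Q84.UF.Final

/-! The local ring of the origin of the parameter space. -/

set_option autoImplicit false

namespace Pool.Agent.Q84.UF

open MvPolynomial

section

variable (n : ℕ) (M : Type) [Field M]

/-- the ideal of the origin -/
noncomputable def p0 : Ideal (MvPolynomial (Fin n) M) :=
  RingHom.ker (constantCoeff : MvPolynomial (Fin n) M →+* M)

instance p0_prime : (p0 n M).IsPrime := RingHom.ker_isPrime _

/-- the local ring of the origin -/
abbrev A0 : Type := Localization.AtPrime (p0 n M)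

theorem mem_compl {Q : MvPolynomial (Fin n) M} : Q ∈ (p0 n M).primeCompl ↔ constantCoeff Q ≠ 0 :=
  Iff.rfl

/-- its embedding in the field of rational functions -/
noncomputable def a0 : A0 n M →+* RF n M :=
  IsLocalization.lift (M := (p0 n M).primeCompl)
    (g := algebraMap (MvPolynomial (Fin n) M) (RF n M)) (fun y => by
      apply IsUnit.mk0
      rw [Ne, IsFractionRing.to_map_eq_zero_iff]
      intro h
      have h1 := (mem_compl n M).1 y.2
      rw [h, map_zero] at h1
      exact h1 rfl)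

/-- the value at the origin -/
noncomputable def e0 : A0 n M →+* M :=
  IsLocalization.lift (M := (p0 n M).primeCompl)
    (g := (constantCoeff : MvPolynomial (Fin n) M →+* M)) (fun y =>
      IsUnit.mk0 _ ((mem_compl n M).1 y.2))

variable {n M}

theorem a0_map (P : MvPolynomial (Fin n) M) :
    a0 n M (algebraMap _ (A0 n M) P) = algebraMap _ (RF n M) P := IsLocalization.lift_eq _ _

theorem e0_map (P : MvPolynomial (Fin n) M) :
    e0 n M (algebraMap _ (A0 n M) P) = constantCoeff P := IsLocalization.lift_eq _ _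

theorem a0_surj (w : A0 n M) : ∃ P Q : MvPolynomial (Fin n) M, constantCoeff Q ≠ 0 ∧
    a0 n M w * algebraMap _ (RF n M) Q = algebraMap _ (RF n M) P ∧
    constantCoeff P = e0 n M w * constantCoeff Q := by
  obtain ⟨⟨P, Q⟩, h⟩ := IsLocalization.surj (p0 n M).primeCompl w
  refine ⟨P, Q, (mem_compl n M).1 Q.2, ?_, ?_⟩
  · rw [← a0_map, ← a0_map, ← map_mul, h]
  · rw [← e0_map, ← e0_map, ← map_mul, h]

theorem a0_frac : ∃ _ : Algebra (A0 n M) (RF n M), algebraMap (A0 n M) (RF n M) = a0 n M ∧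
    IsFractionRing (A0 n M) (RF n M) := by
  let _ : Algebra (A0 n M) (RF n M) := (a0 n M).toAlgebra
  have : IsScalarTower (MvPolynomial (Fin n) M) (A0 n M) (RF n M) :=
    IsScalarTower.of_algebraMap_eq fun P => (a0_map P).symm
  exact ⟨inferInstance, rfl,
    IsFractionRing.isFractionRing_of_isDomain_of_isLocalization (p0 n M).primeCompl _ _⟩

instance a0_normal : IsIntegrallyClosed (A0 n M) :=
  isIntegrallyClosed_of_isLocalization _ (p0 n M).primeCompl
    (Ideal.primeCompl_le_nonZeroDivisors _)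

theorem a0_inj : Function.Injective (a0 n M) := by
  obtain ⟨i, h1, h2⟩ := a0_frac (n := n) (M := M)
  rw [← h1]
  exact IsFractionRing.injective _ _

/-- elements algebraic over a field in the local ring are in the local ring -/
theorem a0_int {F : Type} [Field F] (ρ : F →+* A0 n M) {z : RF n M} {q : Polynomial F}
    (hq : q ≠ 0) (h : Polynomial.eval₂ ((a0 n M).comp ρ) z q = 0) : ∃ w, a0 n M w = z := by
  obtain ⟨i, h1, h2⟩ := a0_frac (n := n) (M := M)
  have h3 : IsIntegral (A0 n M) z := by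
    refine ⟨(q * Polynomial.C q.leadingCoeff⁻¹).map ρ,
      (Polynomial.monic_mul_leadingCoeff_inv hq).map ρ, ?_⟩
    rw [Polynomial.eval₂_map, h1, Polynomial.eval₂_mul, h, zero_mul]
  obtain ⟨w, hw⟩ := (IsIntegrallyClosed.isIntegral_iff (R := A0 n M) (K := RF n M)).1 h3
  exact ⟨w, by rw [← h1, hw]⟩

theorem a0_irr {F : Type} [Field F] (ρ : F →+* A0 n M) {f : Polynomial F} (hf : f.Monic)
    (h : Irreducible (f.map ((e0 n M).comp ρ))) : Irreducible (f.map ((a0 n M).comp ρ)) := by
  obtain ⟨i, h1, h2⟩ := a0_frac (n := n) (M := M)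
  rw [← Polynomial.map_map] at h ⊢
  have h3 : Irreducible (f.map ρ) :=
    Polynomial.Monic.irreducible_of_irreducible_map _ _ (hf.map ρ) h
  have h4 := (Polynomial.Monic.irreducible_iff_irreducible_map_fraction_map (K := RF n M)
    (hf.map ρ)).1 h3
  rwa [h1] at h4

/-- `ρ` specializes to `ρ₀` at the origin. -/
def Sp {A : Type} [Semiring A] (ρ : A →+* RF n M) (ρ₀ : A →+* M) : Prop :=
  ∀ a, ∃ P Q : MvPolynomial (Fin n) M, constantCoeff Q ≠ 0 ∧
    ρ a * algebraMap _ (RF n M) Q = algebraMap _ (RF n M) P ∧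
    constantCoeff P = ρ₀ a * constantCoeff Q

/-- factorization through an injective homomorphism -/
theorem fac {N A E : Type} [Ring N] [Ring A] [Ring E] (f : N →+* E) (G : A →+* E)
    (hG : Function.Injective G) (h : ∀ z, ∃ w, G w = f z) :
    ∃ θ : N →+* A, ∀ z, G (θ z) = f z := by
  choose θ hθ using h
  refine ⟨{ toFun := θ, map_one' := ?_, map_mul' := ?_, map_zero' := ?_, map_add' := ?_ }, hθ⟩
  · apply hG; rw [hθ, map_one, map_one]
  · intro x y; apply hG; rw [hθ, map_mul, map_mul, hθ, hθ]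
  · apply hG; rw [hθ, map_zero, map_zero]
  · intro x y; apply hG; rw [hθ, map_add, map_add, hθ, hθ]

theorem Sp.exists {A : Type} [Ring A] {ρ : A →+* RF n M} {ρ₀ : A →+* M} (h : Sp ρ ρ₀) :
    ∃ r : A →+* A0 n M, (∀ a, a0 n M (r a) = ρ a) ∧ ∀ a, e0 n M (r a) = ρ₀ a := by
  have h1 : ∀ a, ∃ w, a0 n M w = ρ a ∧ e0 n M w = ρ₀ a := by
    intro a
    obtain ⟨P, Q, hQ, h1, h2⟩ := h a
    refine ⟨IsLocalization.mk' (A0 n M) P (⟨Q, hQ⟩ : (p0 n M).primeCompl), ?_, ?_⟩
    · have h3 := IsLocalization.mk'_spec (A0 n M) P (⟨Q, hQ⟩ : (p0 n M).primeCompl)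
      have h4 := congrArg (a0 n M) h3
      rw [map_mul, a0_map, a0_map, ← h1] at h4
      refine mul_right_cancel₀ ?_ h4
      rw [Ne, IsFractionRing.to_map_eq_zero_iff]
      rintro rfl
      rw [map_zero] at hQ
      exact hQ rfl
    · have h3 := IsLocalization.mk'_spec (A0 n M) P (⟨Q, hQ⟩ : (p0 n M).primeCompl)
      have h4 := congrArg (e0 n M) h3
      rw [map_mul, e0_map, e0_map, h2] at h4
      exact mul_right_cancel₀ hQ h4
  obtain ⟨r, hr⟩ := fac ρ (a0 n M) a0_inj (fun a => ⟨(h1 a).choose, (h1 a).choose_spec.1⟩)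
  refine ⟨r, hr, fun a => ?_⟩
  obtain ⟨w, hw1, hw2⟩ := h1 a
  rw [← hw2]
  congr 1
  apply a0_inj
  rw [hr, hw1]

end

section

variable {n : ℕ} {K M : Type} [Field K] [Field M]

/-- extension of the scalars in the field of rational functions -/
noncomputable def chg (ψ : K →+* M) : RF n K →+* RF n M :=
  IsFractionRing.lift (A := MvPolynomial (Fin n) K)
    (g := (algebraMap (MvPolynomial (Fin n) M) (RF n M)).comp (MvPolynomial.map ψ))
    ((IsFractionRing.injective _ _).comp (MvPolynomial.map_injective ψ ψ.injective))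

theorem chg_map (ψ : K →+* M) (P : MvPolynomial (Fin n) K) :
    chg ψ (algebraMap _ (RF n K) P) = algebraMap _ (RF n M) (MvPolynomial.map ψ P) :=
  IsFractionRing.lift_algebraMap _ _

theorem chg_C (ψ : K →+* M) (a : K) :
    chg (n := n) ψ (algebraMap K (RF n K) a) = algebraMap M (RF n M) (ψ a) := by
  have h1 := chg_map (n := n) ψ (C a)
  rw [map_C] at h1
  exact h1

theorem chg_comp {M' : Type} [Field M'] (ψ : K →+* M) (ψ' : M →+* M') (z : RF n K) :
    chg ψ' (chg ψ z) = chg (ψ'.comp ψ) z := by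
  obtain ⟨P, Q, hQ, rfl⟩ := IsFractionRing.div_surjective (A := MvPolynomial (Fin n) K) z
  simp only [map_div₀, chg_map, MvPolynomial.map_map]

theorem Sp.chg {A : Type} [Semiring A] {ρ : A →+* RF n K} {ρ₀ : A →+* K} (h : Sp ρ ρ₀)
    (ψ : K →+* M) : Sp ((Pool.Agent.Q84.UF.chg ψ).comp ρ) (ψ.comp ρ₀) := by
  intro a
  obtain ⟨P, Q, hQ, h1, h2⟩ := h a
  refine ⟨MvPolynomial.map ψ P, MvPolynomial.map ψ Q, ?_, ?_, ?_⟩
  · rw [constantCoeff_map, Ne, map_eq_zero]
    exact hQ
  · rw [← chg_map, ← chg_map, ← h1, map_mul]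
    rfl
  · rw [constantCoeff_map, constantCoeff_map, h2, map_mul]
    rfl

end

end Pool.Agent.Q84.UF
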