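import Pool.Agent.Q84.UF.Moves
import Pool.Agent.H135R2.VS.Der

/-! Moves given by hypersurfaces with a point of high multiplicity. -/

set_option autoImplicit false

namespace Pool.Agent.Q84.UF

open MvPolynomial

/-- the rational root theorem -/
theorem root_dvd {R F : Type} [CommRing R] [IsDomain R] [DecompositionMonoid R] [Field F]
    [Algebra R F] [IsFractionRing R F] {A B : R} (hAB : IsRelPrime A B) (hB : B ≠ 0)
    (h : Polynomial R)
    (hr : Polynomial.aeval (-(algebraMap R F A) / algebraMap R F B) h = 0) : A ∣ h.coeff 0 := by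
  have hB' : algebraMap R F B ≠ 0 := by
    rw [Ne, IsFractionRing.to_map_eq_zero_iff]
    exact hB
  have h1 : ∑ e ∈ Finset.range (h.natDegree + 1),
      h.coeff e * (-A) ^ e * B ^ (h.natDegree - e) = 0 := by
    apply IsFractionRing.injective R F
    rw [map_zero, map_sum]
    rw [Polynomial.aeval_eq_sum_range] at hr
    have h2 := congrArg (fun z => algebraMap R F B ^ h.natDegree * z) hr
    simp only [mul_zero] at h2
    rw [← h2, Finset.mul_sum]
    refine Finset.sum_congr rfl fun e he => ?_
    have he' : e ≤ h.natDegree := Nat.lt_succ_iff.1 (Finset.mem_range.1 he)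
    obtain ⟨d, hd⟩ : ∃ d, h.natDegree = e + d := ⟨h.natDegree - e, by omega⟩
    rw [hd, Nat.add_sub_cancel_left, map_mul, map_mul, map_pow, map_pow, map_neg,
      Algebra.smul_def, div_pow, pow_add]
    field_simp
  rw [Finset.sum_range_succ'] at h1
  have h2 : A ∣ h.coeff 0 * B ^ h.natDegree := by
    have h3 : h.coeff 0 * B ^ h.natDegree = - ∑ e ∈ Finset.range h.natDegree,
        h.coeff (e + 1) * (-A) ^ (e + 1) * B ^ (h.natDegree - (e + 1)) := by
      rw [pow_zero, mul_one, Nat.sub_zero] at h1
      exact eq_neg_of_add_eq_zero_right h1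
    rw [h3, dvd_neg]
    refine Finset.dvd_sum fun e _ => ?_
    refine Dvd.dvd.mul_right (Dvd.dvd.mul_left ?_ _) _
    rw [pow_succ]
    exact Dvd.dvd.mul_left (dvd_neg.2 dvd_rfl) _
  exact (hAB.pow_right (n := h.natDegree)).dvd_of_dvd_mul_right h2

section

variable {K : Type} [Field K] {r : ℕ}

/-- the field of rational functions -/
abbrev RF (r : ℕ) (K : Type) [Field K] : Type := FractionRing (MvPolynomial (Fin r) K)

/-- grading -/
noncomputable def sig (r : ℕ) (K : Type) [Field K] :
    MvPolynomial (Fin r) K →ₐ[K] Polynomial (MvPolynomial (Fin r) K) :=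
  aeval (fun j => Polynomial.C (X j) * Polynomial.X)

/-- substitution of `s v` for `v` -/
noncomputable def th (s : RF r K) : MvPolynomial (Fin r) K →ₐ[K] RF r K :=
  aeval (fun j => algebraMap (MvPolynomial (Fin r) K) (RF r K) (X j) * s)

theorem th_eq (s : RF r K) (H : MvPolynomial (Fin r) K) :
    th s H = Polynomial.aeval s (sig r K H) := by
  induction H using MvPolynomial.induction_on with
  | C a =>
    unfold th sig
    rw [aeval_C, aeval_C, Polynomial.algebraMap_apply, Polynomial.aeval_C,
      MvPolynomial.algebraMap_eq,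
      IsScalarTower.algebraMap_apply K (MvPolynomial (Fin r) K) (RF r K),
      MvPolynomial.algebraMap_eq]
  | add p q hp hq => rw [map_add, map_add, map_add, hp, hq]
  | mul_X p j hp =>
    rw [map_mul, map_mul, map_mul, hp]
    congr 1
    unfold th sig
    rw [aeval_X, aeval_X, map_mul, Polynomial.aeval_C, Polynomial.aeval_X]

theorem sig_hom (H : MvPolynomial (Fin r) K) (e : ℕ) :
    ((sig r K H).coeff e).IsHomogeneous e := by
  induction H using MvPolynomial.induction_on generalizing e with
  | C a =>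
    unfold sig
    rw [aeval_C, Polynomial.algebraMap_apply, Polynomial.coeff_C]
    split_ifs with h
    · subst h
      rw [MvPolynomial.algebraMap_eq]
      exact isHomogeneous_C _ _
    · exact isHomogeneous_zero _ _ _
  | add p q hp hq =>
    rw [map_add, Polynomial.coeff_add]
    exact (hp e).add (hq e)
  | mul_X p j hp =>
    rw [map_mul]
    have h1 : sig r K (X j) = Polynomial.C (X j) * Polynomial.X := by
      unfold sig
      rw [aeval_X]
    rw [h1, ← mul_assoc]
    rcases e with _ | e
    · rw [Polynomial.mul_coeff_zero, Polynomial.coeff_X_zero, mul_zero]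
      exact isHomogeneous_zero _ _ _
    · rw [Polynomial.coeff_mul_X, Polynomial.coeff_mul_C]
      exact (hp e).mul (isHomogeneous_X _ _)

/-- evaluation of the homogeneous parts -/
theorem sig_map (v : Fin r → K) (H : MvPolynomial (Fin r) K) :
    (sig r K H).map (eval v) = aeval (fun j => Polynomial.C (v j) * Polynomial.X) H := by
  induction H using MvPolynomial.induction_on with
  | C a =>
    unfold sig
    rw [aeval_C, aeval_C, Polynomial.algebraMap_apply, Polynomial.map_C,
      MvPolynomial.algebraMap_eq, eval_C]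
    rfl
  | add p q hp hq => rw [map_add, Polynomial.map_add, hp, hq, map_add]
  | mul_X p j hp =>
    rw [map_mul, Polynomial.map_mul, hp, map_mul]
    congr 1
    unfold sig
    rw [aeval_X, aeval_X, Polynomial.map_mul, Polynomial.map_C, Polynomial.map_X, eval_X]

theorem sig_zero (H : MvPolynomial (Fin r) K) :
    (sig r K H).coeff 0 = C (constantCoeff H) := by
  induction H using MvPolynomial.induction_on with
  | C a =>
    unfold sig
    rw [aeval_C, Polynomial.algebraMap_apply, Polynomial.coeff_C_zero, constantCoeff_C,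
      MvPolynomial.algebraMap_eq]
  | add p q hp hq => rw [map_add, Polynomial.coeff_add, hp, hq, map_add, C_add]
  | mul_X p j hp =>
    rw [map_mul, Polynomial.mul_coeff_zero, hp, map_mul, constantCoeff_X, mul_zero, C_0]
    unfold sig
    rw [aeval_X, Polynomial.mul_coeff_zero, Polynomial.coeff_X_zero, mul_zero, mul_zero]

/-- the homogeneous parts -/
theorem sig_of_hom {e : ℕ} {A : MvPolynomial (Fin r) K} (hA : A.IsHomogeneous e) :
    sig r K A = Polynomial.C A * Polynomial.X ^ e := by
  classical
  have h1 : ∀ m : Fin r →₀ ℕ, ∀ a : K, sig r K (monomial m a) =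
      Polynomial.C (monomial m a) * Polynomial.X ^ m.degree := by
    intro m a
    unfold sig
    rw [aeval_monomial, Finsupp.prod, monomial_eq (s := m), Polynomial.algebraMap_apply,
      MvPolynomial.algebraMap_eq, Finsupp.prod, Polynomial.C_mul, map_prod]
    simp only [mul_pow, Finset.prod_mul_distrib, map_pow]
    rw [Finset.prod_pow_eq_pow_sum, mul_assoc]
    rfl
  conv_lhs => rw [A.as_sum]
  rw [map_sum]
  have h2 : Polynomial.C A * Polynomial.X ^ e = ∑ m ∈ A.support,
      Polynomial.C (monomial m (coeff m A)) * Polynomial.X ^ e := by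
    rw [← Finset.sum_mul, ← map_sum, ← A.as_sum]
  rw [h2]
  refine Finset.sum_congr rfl fun m hm => ?_
  rw [h1]
  congr 2
  rw [mem_support_iff] at hm
  have := hA hm
  rw [← this]
  rw [Finsupp.degree_eq_weight_one]
  rfl

theorem hom_dvd {m e : ℕ} {A P : MvPolynomial (Fin r) K} (hA : A.IsHomogeneous m)
    (hP : P.IsHomogeneous e) (hem : e < m) (h : A ∣ P) : P = 0 := by
  by_contra hP0
  obtain ⟨Q, rfl⟩ := h
  have hA0 : A ≠ 0 := left_ne_zero_of_mul hP0
  have hQ0 : Q ≠ 0 := right_ne_zero_of_mul hP0
  have h1 := hP.totalDegree hP0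
  rw [totalDegree_mul_of_isDomain hA0 hQ0, hA.totalDegree hA0] at h1
  omega

end

/-- extension of a homomorphism from the generic point -/
theorem ext_gen {L K E : Type} [Field L] [Field K] [Algebra L K] [Field E] {N : ℕ}
    (x : Fin N → K) (hx : IntermediateField.adjoin L (Set.range x) = ⊤)
    (ψ : MvPolynomial (Fin N) L →+* E) (hψ : ∀ P, ψ P = 0 ↔ aeval x P = 0) :
    ∃ φ : K →+* E, ∀ P, φ (aeval x P) = ψ P := by
  let R : Subalgebra L K := (aeval x : MvPolynomial (Fin N) L →ₐ[L] K).range
  have hRF : IsFractionRing R K := by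
    refine IsFractionRing.of_field R K (fun z => ?_)
    have hz : z ∈ IntermediateField.adjoin L (Set.range x) := by rw [hx]; trivial
    rw [IntermediateField.mem_adjoin_range_iff] at hz
    obtain ⟨r, s, hrs⟩ := hz
    exact ⟨⟨aeval x r, r, rfl⟩, ⟨aeval x s, s, rfl⟩, hrs⟩
  let ρ : MvPolynomial (Fin N) L →ₐ[L] R := (aeval x : MvPolynomial (Fin N) L →ₐ[L] K).rangeRestrict
  have hρs : Function.Surjective ρ := AlgHom.rangeRestrict_surjective _
  obtain ⟨σ, hσ⟩ : ∃ σ : R →+* E, ∀ P, σ (ρ P) = ψ P := by
    have hker : RingHom.ker (ρ : MvPolynomial (Fin N) L →+* R) ≤ RingHom.ker ψ := by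
      intro P hP
      rw [RingHom.mem_ker] at hP ⊢
      exact (hψ P).2 (congrArg Subtype.val hP)
    exact ⟨(ρ : MvPolynomial (Fin N) L →+* R).liftOfRightInverse _
      (Function.rightInverse_surjInv hρs) ⟨_, hker⟩, fun P =>
      (ρ : MvPolynomial (Fin N) L →+* R).liftOfRightInverse_comp_apply _
        (Function.rightInverse_surjInv hρs) ⟨_, hker⟩ P⟩
  have hσi : Function.Injective σ := by
    rw [injective_iff_map_eq_zero]
    intro a ha
    obtain ⟨P, rfl⟩ := hρs a
    rw [hσ, hψ] at ha
    exact Subtype.ext ha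
  refine ⟨IsFractionRing.lift hσi, fun P => ?_⟩
  have h1 : aeval x P = algebraMap R K (ρ P) := rfl
  rw [h1, IsFractionRing.lift_algebraMap, hσ]

/-- common denominators of elements of the field of fractions -/
theorem common {L K : Type} [Field L] [Field K] [Algebra L K] {N : ℕ}
    (x : Fin N → K) (hx : IntermediateField.adjoin L (Set.range x) = ⊤) {ι : Type} [Fintype ι]
    (a : ι → K) : ∃ (Q : MvPolynomial (Fin N) L) (P : ι → MvPolynomial (Fin N) L),
      aeval x Q ≠ 0 ∧ ∀ j, a j * aeval x Q = aeval x (P j) := by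
  classical
  have h1 : ∀ j, ∃ p q : MvPolynomial (Fin N) L, aeval x q ≠ 0 ∧ a j * aeval x q = aeval x p := by
    intro j
    have hz : a j ∈ IntermediateField.adjoin L (Set.range x) := by rw [hx]; trivial
    rw [IntermediateField.mem_adjoin_range_iff] at hz
    obtain ⟨r, s, hrs⟩ := hz
    by_cases hs : aeval x s = 0
    · refine ⟨0, 1, by rw [map_one]; exact one_ne_zero, ?_⟩
      rw [hrs, hs, div_zero, zero_mul, map_zero]
    · exact ⟨r, s, hs, by rw [hrs, div_mul_cancel₀ _ hs]⟩
  choose p q hq hpq using h1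
  refine ⟨∏ j, q j, fun j => p j * ∏ l ∈ Finset.univ.erase j, q l, ?_, fun j => ?_⟩
  · rw [map_prod]
    exact Finset.prod_ne_zero_iff.2 fun j _ => hq j
  · rw [← Finset.mul_prod_erase Finset.univ q (Finset.mem_univ j), map_mul, ← mul_assoc, hpq,
      map_mul]

section move

variable {L K : Type} [Field L] [Field K] [Algebra L K] {N r : ℕ}

theorem lin_part (x : Fin N → K) (g : Fin N → MvPolynomial (Fin r) K)
    (hg0 : ∀ i, constantCoeff (g i) = x i) (D : Derivation L K K) (v : Fin r → K)
    (hv : ∀ i, ((sig r K (g i)).map (eval v)).coeff 1 = D (x i)) (P : MvPolynomial (Fin N) L) :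
    ((sig r K (aeval g P)).map (eval v)).coeff 0 = aeval x P ∧
    ((sig r K (aeval g P)).map (eval v)).coeff 1 = D (aeval x P) := by
  induction P using MvPolynomial.induction_on with
  | C a =>
    rw [aeval_C, aeval_C, D.map_algebraMap]
    have h1 : algebraMap L (MvPolynomial (Fin r) K) a = C (algebraMap L K a) := rfl
    have h2 : sig r K (C (algebraMap L K a)) = Polynomial.C (C (algebraMap L K a)) := by
      unfold sig
      rw [aeval_C, Polynomial.algebraMap_apply, MvPolynomial.algebraMap_eq]
    rw [h1, h2, Polynomial.map_C, eval_C, Polynomial.coeff_C_zero, Polynomial.coeff_C]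
    exact ⟨rfl, rfl⟩
  | add p q hp hq =>
    simp only [map_add, Polynomial.map_add, Polynomial.coeff_add]
    rw [hp.1, hp.2, hq.1, hq.2]
    exact ⟨rfl, rfl⟩
  | mul_X p j hp =>
    have h0 : ((sig r K (g j)).map (eval v)).coeff 0 = x j := by
      rw [Polynomial.coeff_map, sig_zero, eval_C, hg0]
    rw [map_mul, map_mul, aeval_X, Polynomial.map_mul,
      Polynomial.mul_coeff_zero, Polynomial.mul_coeff_one, map_mul, aeval_X, hp.1, hp.2, h0, hv j,
      Derivation.leibniz, smul_eq_mul, smul_eq_mul]
    exact ⟨rfl, by ring⟩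

/-- **Moves along hypersurfaces with a point of multiplicity `m` and degree `m + 1`.** -/
theorem mono_move (x : Fin N → K) (hx : IntermediateField.adjoin L (Set.range x) = ⊤)
    (g : Fin N → MvPolynomial (Fin r) K) (hg0 : ∀ i, constantCoeff (g i) = x i) {m : ℕ}
    (hm : 1 ≤ m) {A B : MvPolynomial (Fin r) K} (hA : A.IsHomogeneous m)
    (hB : B.IsHomogeneous (m + 1)) (hAB : IsRelPrime A B)
    (hS : ∀ P : MvPolynomial (Fin N) L, aeval x P = 0 → (A + B) ∣ aeval g P) :
    ∃ φ : K →+* RF r K, (∀ a : L, φ (algebraMap L K a) = algebraMap K _ (algebraMap L K a)) ∧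
      Dg (RF r K) φ ∧
      ∀ c, φ c = algebraMap K _ c → ∀ D : Derivation L K K, (∃ v : Fin r → K,
        (∀ i, ((sig r K (g i)).map (eval v)).coeff 1 = D (x i)) ∧ (2 ≤ m ∨ eval v A = 0)) →
        D c = 0 := by
  classical
  have hB0 : B ≠ 0 := by
    rintro rfl
    have h1 : IsUnit A := hAB dvd_rfl (dvd_zero A)
    have h2 := hom_dvd hA (isHomogeneous_one (Fin r) K) hm (h1.dvd)
    exact one_ne_zero h2
  have hA0 : A ≠ 0 := by
    rintro rfl
    have h1 : IsUnit B := hAB (dvd_zero B) dvd_rfl
    have h2 := hom_dvd hB (isHomogeneous_one (Fin r) K) (Nat.succ_pos m) (h1.dvd)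
    exact one_ne_zero h2
  obtain ⟨s, hs⟩ : ∃ s : RF r K, s = -(algebraMap (MvPolynomial (Fin r) K) (RF r K) A) /
    algebraMap (MvPolynomial (Fin r) K) (RF r K) B := ⟨_, rfl⟩
  have hB' : algebraMap (MvPolynomial (Fin r) K) (RF r K) B ≠ 0 := by
    rw [Ne, IsFractionRing.to_map_eq_zero_iff]
    exact hB0
  have hA' : algebraMap (MvPolynomial (Fin r) K) (RF r K) A ≠ 0 := by
    rw [Ne, IsFractionRing.to_map_eq_zero_iff]
    exact hA0
  have hs0 : s ≠ 0 := by
    rw [hs]
    exact div_ne_zero (neg_ne_zero.2 hA') hB'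
  -- the basic facts
  have d0 : ∀ H, th s H = 0 → constantCoeff H = 0 := by
    intro H hH
    rw [th_eq, hs] at hH
    have h1 := root_dvd hAB hB0 _ hH
    rw [sig_zero] at h1
    have h2 := hom_dvd hA (isHomogeneous_C _ _) hm h1
    exact C_injective _ _ (h2.trans C_0.symm)
  have d1 : ∀ H, th s H = 0 → A ∣ (sig r K H).coeff 1 := by
    intro H hH
    have h0 := d0 H hH
    rw [th_eq] at hH
    have h1 : (sig r K H).coeff 0 = 0 := by rw [sig_zero, h0, C_0]
    have h2 : sig r K H = (sig r K H).divX * Polynomial.X := by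
      conv_lhs => rw [← Polynomial.divX_mul_X_add (sig r K H), h1, Polynomial.C_0, add_zero]
    rw [h2, map_mul, Polynomial.aeval_X] at hH
    have h3 := (mul_eq_zero.1 hH).resolve_right hs0
    rw [hs] at h3
    have h4 := root_dvd hAB hB0 _ h3
    rwa [Polynomial.coeff_divX, zero_add] at h4
  have hroot : th s (A + B) = 0 := by
    rw [map_add, th_eq, th_eq, sig_of_hom hA, sig_of_hom hB, map_mul, map_mul, map_pow, map_pow,
      Polynomial.aeval_C, Polynomial.aeval_C, Polynomial.aeval_X, pow_succ]
    have h1 : algebraMap (MvPolynomial (Fin r) K) (RF r K) A +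
        algebraMap (MvPolynomial (Fin r) K) (RF r K) B * s = 0 := by
      rw [hs]
      field_simp
      ring
    linear_combination s ^ m * h1
  have hc : ∀ P : MvPolynomial (Fin N) L, constantCoeff (aeval g P) = aeval x P := by
    intro P
    induction P using MvPolynomial.induction_on with
    | C a =>
      rw [aeval_C, aeval_C]
      have h1 : algebraMap L (MvPolynomial (Fin r) K) a = C (algebraMap L K a) := rfl
      rw [h1, constantCoeff_C]
    | add p q hp hq => rw [map_add, map_add, map_add, hp, hq]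
    | mul_X p j hp => rw [map_mul, map_mul, map_mul, hp, aeval_X, aeval_X, hg0]
  let ψ : MvPolynomial (Fin N) L →+* RF r K :=
    (th s : MvPolynomial (Fin r) K →+* RF r K).comp
      ((aeval g : MvPolynomial (Fin N) L →ₐ[L] MvPolynomial (Fin r) K) :
        MvPolynomial (Fin N) L →+* MvPolynomial (Fin r) K)
  have hψ' : ∀ P, ψ P = th s (aeval g P) := fun _ => rfl
  have hψ : ∀ P, ψ P = 0 ↔ aeval x P = 0 := by
    intro P
    rw [hψ']
    constructor
    · intro h
      rw [← hc]
      exact d0 _ h
    · intro h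
      obtain ⟨Q, hQ⟩ := hS P h
      rw [hQ, map_mul, hroot, zero_mul]
  obtain ⟨φ, hφ⟩ := ext_gen x hx ψ hψ
  refine ⟨φ, fun a => ?_, ?_, ?_⟩
  · have h1 := hφ (C a)
    rw [aeval_C, hψ', aeval_C] at h1
    rw [h1]
    exact (th s).commutes (algebraMap L K a)
  · intro ι _ c a h
    obtain ⟨Q, P, hQ, hP⟩ := common x hx a
    have h1 : ∀ j, φ (a j) * th s (aeval g Q) = th s (aeval g (P j)) := by
      intro j
      rw [← hψ', ← hψ', ← hφ, ← hφ, ← hP, map_mul]
    have h2 : th s (∑ j, C (c j) * aeval g (P j)) = 0 := by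
      rw [map_sum]
      have h3 : ∀ j, th s (C (c j) * aeval g (P j)) = (c j • φ (a j)) * th s (aeval g Q) := by
        intro j
        rw [map_mul, ← h1]
        have h4 : th s (C (c j)) = algebraMap K _ (c j) := (th s).commutes (c j)
        rw [h4, Algebra.smul_def, mul_assoc]
      rw [Finset.sum_congr rfl fun j _ => h3 j, ← Finset.sum_mul, h, zero_mul]
    have h3 := d0 _ h2
    rw [map_sum] at h3
    have h4 : ∀ j, constantCoeff (C (c j) * aeval g (P j)) = c j * a j * aeval x Q := by
      intro j
      rw [map_mul, constantCoeff_C, hc, ← hP, mul_assoc]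
    rw [Finset.sum_congr rfl fun j _ => h4 j, ← Finset.sum_mul] at h3
    exact (mul_eq_zero.1 h3).resolve_right hQ
  · rintro c hcφ D ⟨v, hv, hmv⟩
    obtain ⟨Q, P, hQ, hP⟩ := common x hx (fun _ : Unit => c)
    obtain ⟨H, hH⟩ : ∃ H, H = aeval g (P ()) - C c * aeval g Q := ⟨_, rfl⟩
    have h1 : th s H = 0 := by
      rw [hH, map_sub, map_mul, ← hψ', ← hψ', ← hφ, ← hφ, ← hP, map_mul, hcφ]
      have h4 : th s (C c) = algebraMap K _ c := (th s).commutes c
      rw [h4, sub_self]
    have h2 := d1 H h1
    have h3 : ((sig r K H).map (eval v)).coeff 1 = 0 := by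
      rw [Polynomial.coeff_map]
      rcases hmv with hm2 | hv0
      · rw [hom_dvd hA (sig_hom H 1) (by omega) h2, map_zero]
      · obtain ⟨Z, hZ⟩ := h2
        rw [hZ, map_mul, hv0, zero_mul]
    have e1 := lin_part x g hg0 D v hv (P ())
    have e2 := lin_part x g hg0 D v hv Q
    have h5 : sig r K (C c) = Polynomial.C (C c) := by
      unfold sig
      rw [aeval_C, Polynomial.algebraMap_apply, MvPolynomial.algebraMap_eq]
    rw [hH, map_sub, map_mul, Polynomial.map_sub, Polynomial.map_mul, Polynomial.coeff_sub, e1.2,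
      h5, Polynomial.map_C, eval_C, Polynomial.coeff_C_mul, e2.2, ← hP, Derivation.leibniz,
      smul_eq_mul, smul_eq_mul] at h3
    have h6 : aeval x Q * D c = 0 := by linear_combination h3
    exact (mul_eq_zero.1 h6).resolve_left hQ

end move

end Pool.Agent.Q84.UF
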