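import Pool.Agent.Q84.UF.Main

/-! Families of unirational subvarieties through the generic point. -/

set_option autoImplicit false

namespace Pool.Agent.Q84.UF

open MvPolynomial

variable {k K : Type} [Field k] [Field K] [Algebra k K]

/-- **The theorem on moves.** Let `φ i : K → E i` be homomorphisms to fields of rational functions
over `K` with the diagonal condition and let `M` be the field of the common invariants. Then `K` is
unirational over itself over `M`. -/
theorem moves {N : ℕ} (hN : ∀ (r : ℕ) (a : Fin r → K), AlgebraicIndependent k a → r ≤ N)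
    (M : IntermediateField k K) {I : Type} (Ei : I → Type) [∀ i, Field (Ei i)]
    [∀ i, Algebra K (Ei i)] (φi : ∀ i, K →+* Ei i) (hP : ∀ i, Pur K (Ei i))
    (hD : ∀ i, Dg (Ei i) (φi i)) (hM : ∀ c, c ∈ M ↔ ∀ i, φi i c = algebraMap K (Ei i) c) :
    Uni M := by
  classical
  have h0 : Rk M 0 := ⟨K, inferInstance, inferInstance, RingHom.id K,
    ⟨pur_self K, fun _ _ => rfl, fun ι _ c a h => h⟩, Fin.elim0,
    algebraicIndependent_empty_type⟩
  have hb : ∀ r, Rk M r → r ≤ N := by
    intro r hr
    obtain ⟨a, ha⟩ := rk_bound hr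
    exact hN r a ha
  obtain ⟨r, hr⟩ : ∃ r, r = Nat.findGreatest (Rk M) N := ⟨_, rfl⟩
  have hrr : Rk M r := by
    rw [hr]
    exact Nat.findGreatest_spec (Nat.zero_le N) h0
  have hmax : ∀ r', Rk M r' → r' ≤ r := by
    intro r' h
    rw [hr]
    exact Nat.le_findGreatest (hb r' h) h
  obtain ⟨E, _, _, φ, hg, a, ha⟩ := hrr
  have hgP := hg.1
  have hgF := hg.2.1
  have hgD := hg.2.2
  -- the key statement
  have key : ∀ i, ∃ (E1 : Type) (_ : Field E1) (_ : Algebra (Ei i) E1) (_ : Algebra K E1)
      (Φ : E →+* E1),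
      (∀ c : K, algebraMap K E1 c = algebraMap (Ei i) E1 (algebraMap K (Ei i) c)) ∧
      (∀ c, Φ (algebraMap K E c) = algebraMap (Ei i) E1 (φi i c)) ∧
      (∀ (n : ℕ) (b : Fin n → E), LinearIndependent K b → LinearIndependent (Ei i) (Φ ∘ b)) ∧
      RelLe φ (Φ.comp φ) := by
    intro i
    obtain ⟨E1, _, _, Φ, hΦ, hP1, hbc⟩ := bc hgP (φi i)
    let _ : Algebra K E1 := ((algebraMap (Ei i) E1).comp (algebraMap K (Ei i))).toAlgebra
    have hT1 : IsScalarTower K (Ei i) E1 := IsScalarTower.of_algebraMap_eq fun _ => rfl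
    have hsm : ∀ (c : K) (x : E1), c • x = (algebraMap K (Ei i) c) • x := by
      intro c x
      rw [Algebra.smul_def, Algebra.smul_def]
      rfl
    have hχ : Good M E1 (Φ.comp φ) := by
      refine ⟨(hP i).trans hP1, fun m hm => ?_, ?_⟩
      · show Φ (φ m) = algebraMap (Ei i) E1 (algebraMap K (Ei i) m)
        rw [hgF m hm, hΦ, (hM m).1 hm i]
      · intro ι _ c b h
        have h1 := del_right (φi i) φ hgD Φ hΦ hbc (fun j => algebraMap K (Ei i) (c j)) b (by
          rw [← h]
          exact Finset.sum_congr rfl fun j _ => (hsm _ _).symm)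
        apply hD i ι c b
        rw [← h1]
        exact Finset.sum_congr rfl fun j _ => Algebra.smul_def _ _
    obtain ⟨E2, _, _, Φ2, hΦ2, hP2, hbc2⟩ := bc hχ.1 φ
    let _ : Algebra K E2 := ((algebraMap E E2).comp (algebraMap K E)).toAlgebra
    have hT2 : IsScalarTower K E E2 := IsScalarTower.of_algebraMap_eq fun _ => rfl
    have hsm2 : ∀ (c : K) (x : E2), c • x = (algebraMap K E c) • x := by
      intro c x
      rw [Algebra.smul_def, Algebra.smul_def]
      rfl
    have hdel : RelLe (Φ2.comp (Φ.comp φ)) φ := by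
      intro ι _ c b h
      have h1 := del_right φ (Φ.comp φ) hχ.2.2 Φ2 hΦ2 hbc2 (fun j => algebraMap K E (c j)) b (by
        rw [← h]
        exact Finset.sum_congr rfl fun j _ => (hsm2 _ _).symm)
      rw [← h1]
      exact Finset.sum_congr rfl fun j _ => Algebra.smul_def _ _
    have hχ2 : Good M E2 (Φ2.comp (Φ.comp φ)) := by
      refine ⟨hgP.trans hP2, fun m hm => ?_, fun ι _ c b h => hgD ι c b (hdel ι c b h)⟩
      show Φ2 ((Φ.comp φ) m) = algebraMap E E2 (algebraMap K E m)
      rw [hχ.2.1 m hm, hΦ2, hgF m hm]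
    have h1 : RelLe φ (Φ2.comp (Φ.comp φ)) := back a ha hmax hχ2 hdel
    have h2 : RelLe (Φ2.comp (Φ.comp φ)) (Φ.comp φ) := by
      intro ι _ c b h
      refine del_left φ hgD (Φ.comp φ) Φ2 hΦ2 hbc2 c b ?_
      rw [← h]
      exact Finset.sum_congr rfl fun j _ => (hsm2 _ _).symm
    exact ⟨E1, inferInstance, inferInstance, inferInstance,
      Φ, fun c => rfl, hΦ, hbc,
      fun ι _ c b h => h2 ι c b (h1 ι c b h)⟩
  refine ⟨E, inferInstance, inferInstance, φ, hgP, hgF, fun n b hbM => ?_⟩
  obtain ⟨r', s, c, hs, hind, hc⟩ := pivot (K := K) (fun l => φ (b l))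
  have hcM : ∀ l j, c l j ∈ M := by
    intro l j
    rw [hM]
    intro i
    obtain ⟨E1, _, _, _, Φ, halg, hΦ, hbc, hrel⟩ := key i
    have h1 := hrel (Option (Fin r')) (fun o => o.elim (-1) (c l))
      (fun o => o.elim (b l) (fun j => b (s j))) (by
        rw [Fintype.sum_option]
        simp only [Option.elim]
        rw [hc l, neg_smul, one_smul, neg_add_cancel])
    rw [Fintype.sum_option] at h1
    simp only [Option.elim] at h1
    have h2 : Φ (φ (b l)) = ∑ j, (φi i (c l j)) • Φ (φ (b (s j))) := by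
      rw [hc l, map_sum]
      refine Finset.sum_congr rfl fun j _ => ?_
      rw [Algebra.smul_def, map_mul, hΦ, ← Algebra.smul_def]
    have h3 : ∑ j, (φi i (c l j) - algebraMap K (Ei i) (c l j)) •
        (Φ ∘ ((fun l => φ (b l)) ∘ s)) j = 0 := by
      simp only [sub_smul, Finset.sum_sub_distrib]
      rw [sub_eq_zero]
      have h4 : ∑ j, (algebraMap K (Ei i) (c l j)) • (Φ ∘ ((fun l => φ (b l)) ∘ s)) j =
          ∑ j, c l j • (Φ.comp φ) (b (s j)) := by
        refine Finset.sum_congr rfl fun j _ => ?_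
        rw [Algebra.smul_def, Algebra.smul_def, halg]
        rfl
      rw [h4]
      have h5 : ∑ j, (φi i (c l j)) • (Φ ∘ ((fun l => φ (b l)) ∘ s)) j = Φ (φ (b l)) := h2.symm
      rw [h5]
      have h6 : (-1 : K) • (Φ.comp φ) (b l) = - Φ (φ (b l)) := by
        rw [neg_smul, one_smul]
        rfl
      rw [h6] at h1
      linear_combination -h1
    have h7 := Fintype.linearIndependent_iff.1 (hbc r' _ hind) _ h3 j
    exact sub_eq_zero.1 h7
  have hbl : ∀ l, b l = ∑ j, c l j * b (s j) := by
    intro l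
    apply φ.injective
    rw [hc l, map_sum]
    refine Finset.sum_congr rfl fun j _ => ?_
    rw [map_mul, hgF _ (hcM l j), Algebra.smul_def]
  have hsurj : Function.Surjective s := by
    intro l
    by_contra hl
    have h1 : l ∉ Set.range s := hl
    apply hbM.notMem_span_image h1
    rw [hbl l]
    refine Submodule.sum_mem _ fun j _ => ?_
    have h2 : c l j * b (s j) = (⟨c l j, hcM l j⟩ : M) • b (s j) := by
      rw [Algebra.smul_def]
      rfl
    rw [h2]
    exact Submodule.smul_mem _ _ (Submodule.subset_span ⟨s j, ⟨j, rfl⟩, rfl⟩)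
  let e := Equiv.ofBijective s ⟨hs, hsurj⟩
  have h8 := hind.comp e.symm e.symm.injective
  have h9 : φ ∘ b = ((fun l => φ (b l)) ∘ s) ∘ e.symm := by
    funext l
    show φ (b l) = φ (b (s (e.symm l)))
    rw [show s (e.symm l) = l from e.apply_symm_apply l]
  rw [h9]
  exact h8

end Pool.Agent.Q84.UF
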