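import Pool.Agent.Q84.UF.LD

/-! Algebraic independence in towers. -/

set_option autoImplicit false

namespace Pool.Agent.Q84.UF

open MvPolynomial Pool.Agent.TH178.HI

theorem pure_supT {k E₀ E' : Type} [Field k] [Field E₀] [Algebra k E₀] [Field E'] [Algebra k E']
    [Algebra E₀ E'] [IsScalarTower k E₀ E'] {Ω : IntermediateField k E₀} (hΩ : Pure Ω) {n : ℕ}
    {T : Fin n → E'} (hT : AlgebraicIndependent E₀ T) :
    Pure (Ω.map (IsScalarTower.toAlgHom k E₀ E') ⊔ IntermediateField.adjoin k (Set.range T)) := by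
  obtain ⟨ι, hι, X, hX, rfl⟩ := hΩ
  have h1 : AlgebraicIndependent k (Sum.elim T (algebraMap E₀ E' ∘ X)) := hX.sumElim_comp hT
  refine ⟨Fin n ⊕ ι, inferInstance, _, h1, ?_⟩
  rw [Set.Sum.elim_range, IntermediateField.adjoin_union, IntermediateField.adjoin_map, sup_comm,
    Set.range_comp]
  rfl

theorem ind_tower {K E₀ E' : Type} [Field K] [Field E₀] [Field E'] [Algebra K E₀] [Algebra E₀ E']
    [Algebra K E'] [IsScalarTower K E₀ E'] {n : ℕ} {T : Fin n → E'}
    (hT : AlgebraicIndependent E₀ T) {u : Set E'}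
    (hu1 : AlgebraicIndependent K (fun a : u => (a : E')))
    (hu : ∀ a ∈ u, a ∈ Set.range (algebraMap E₀ E')) :
    AlgebraicIndependent (IntermediateField.adjoin K (Set.range T)) (fun a : u => (a : E')) := by
  have h1 : AlgebraicIndependent K (Sum.elim T (fun a : u => (a : E'))) := by
    refine AlgebraicIndependent.sumElim_of_tower (S := E₀) hu1 ?_ hT
    rintro _ ⟨a, rfl⟩
    exact hu a a.2
  have h2 : AlgebraicIndependent K (Sum.elim (fun a : u => (a : E')) T) := by
    have h3 := h1.comp Sum.swap Sum.swap_leftInverse.injective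
    convert h3 using 1
    funext s
    rcases s with s | s <;> rfl
  have h3 := (AlgebraicIndependent.sumElim_iff.1 h2).2
  exact IntermediateField.algebraicIndependent_adjoin_iff.2 h3

end Pool.Agent.Q84.UF
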