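import Pool.Agent.Q84.UF.Mono

/-! Fibrations in quadrics, cubic hypersurfaces and quartic double spaces. -/

set_option autoImplicit false

namespace Pool.Agent.Q84.UF

open MvPolynomial

section parts

variable {K : Type} [Field K] {r : ℕ}

theorem sig_eq (H : MvPolynomial (Fin r) K) (e : ℕ) :
    (sig r K H).coeff e = homogeneousComponent e H := by
  classical
  conv_lhs => rw [← sum_homogeneousComponent H]
  rw [map_sum, Polynomial.finsetSum_coeff]
  have h1 : ∀ i ∈ Finset.range (H.totalDegree + 1),
      (sig r K (homogeneousComponent i H)).coeff e = if e = i then homogeneousComponent i H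
        else 0 := by
    intro i _
    rw [sig_of_hom (homogeneousComponent_isHomogeneous i H), Polynomial.coeff_C_mul_X_pow]
  rw [Finset.sum_congr rfl h1, Finset.sum_ite_eq]
  split_ifs with h
  · rfl
  · rw [homogeneousComponent_eq_zero]
    rw [Finset.mem_range] at h
    omega

theorem natDegree_sig {L : Type} [Field L] [Algebra L K] {N d s : ℕ} (F : MvPolynomial (Fin N) L)
    (hF : F.totalDegree ≤ d) (g : Fin N → MvPolynomial (Fin r) K)
    (hg : ∀ i, (g i).totalDegree ≤ s) (e : ℕ) (he : d * s < e) :
    homogeneousComponent e (aeval g F) = 0 := by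
  apply homogeneousComponent_eq_zero
  refine lt_of_le_of_lt ?_ he
  rw [aeval_def, eval₂_eq]
  refine totalDegree_finsetSum_le fun m hm => ?_
  have h1 : algebraMap L (MvPolynomial (Fin r) K) (coeff m F) = C (algebraMap L K (coeff m F)) :=
    rfl
  rw [h1]
  refine (totalDegree_mul _ _).trans ?_
  rw [totalDegree_C, zero_add]
  refine (totalDegree_finsetProd _ _).trans ?_
  have h2 : ∑ i ∈ m.support, m i ≤ d := (le_totalDegree hm).trans hF
  calc ∑ i ∈ m.support, (g i ^ m i).totalDegree ≤ ∑ i ∈ m.support, m i * s := by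
        refine Finset.sum_le_sum fun i _ => (totalDegree_pow _ _).trans ?_
        exact Nat.mul_le_mul_left _ (hg i)
    _ = (∑ i ∈ m.support, m i) * s := (Finset.sum_mul _ _ _).symm
    _ ≤ d * s := Nat.mul_le_mul_right _ h2

/-- the chain rule -/
theorem chain {L : Type} [Field L] [Algebra L K] {N : ℕ} (x : Fin N → K)
    (g : Fin N → MvPolynomial (Fin r) K) (hg0 : ∀ i, constantCoeff (g i) = x i)
    (P : MvPolynomial (Fin N) L) :
    homogeneousComponent 0 (aeval g P) = C (aeval x P) ∧
    homogeneousComponent 1 (aeval g P) =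
      ∑ i, C (aeval x (pderiv i P)) * homogeneousComponent 1 (g i) := by
  simp only [← sig_eq]
  induction P using MvPolynomial.induction_on with
  | C a =>
    have h1 : aeval g (C a) = C (algebraMap L K a) := by rw [aeval_C]; rfl
    have h2 : sig r K (C (algebraMap L K a)) = Polynomial.C (C (algebraMap L K a)) := by
      unfold sig
      rw [aeval_C, Polynomial.algebraMap_apply, MvPolynomial.algebraMap_eq]
    rw [h1, h2, Polynomial.coeff_C_zero, Polynomial.coeff_C, aeval_C]
    refine ⟨rfl, ?_⟩
    simp
  | add p q hp hq =>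
    simp only [map_add, Polynomial.coeff_add]
    rw [hp.1, hp.2, hq.1, hq.2]
    refine ⟨rfl, ?_⟩
    simp only [add_mul, Finset.sum_add_distrib]
  | mul_X p j hp =>
    have h0 : (sig r K (g j)).coeff 0 = C (x j) := by
      rw [sig_zero, hg0]
    rw [map_mul, map_mul, aeval_X, Polynomial.mul_coeff_zero, Polynomial.mul_coeff_one, map_mul,
      aeval_X, hp.1, hp.2, h0]
    refine ⟨(C_mul ..).symm, ?_⟩
    have h3 : ∀ i, C (aeval x (pderiv i (p * X j))) * (sig r K (g i)).coeff 1 =
        C (aeval x (pderiv i p)) * (sig r K (g i)).coeff 1 * C (x j) +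
        if i = j then C (aeval x p) * (sig r K (g j)).coeff 1 else 0 := by
      intro i
      rw [Derivation.leibniz, pderiv_X, smul_eq_mul, smul_eq_mul, map_add, map_mul, map_mul,
        aeval_X, C_add, C_mul, C_mul]
      by_cases h : i = j
      · subst h
        rw [Pi.single_eq_same, if_pos rfl, map_one, C_1]
        ring
      · rw [Pi.single_eq_of_ne (Ne.symm h), if_neg h, map_zero, C_0]
        ring
    rw [Finset.sum_congr rfl fun i _ => h3 i, Finset.sum_add_distrib, Finset.sum_ite_eq',
      if_pos (Finset.mem_univ j), ← Finset.sum_mul]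
    ring

theorem der_chain {L : Type} [Field L] [Algebra L K] {N : ℕ} (x : Fin N → K)
    (D : Derivation L K K) (P : MvPolynomial (Fin N) L) :
    D (aeval x P) = ∑ i, aeval x (pderiv i P) * D (x i) := by
  induction P using MvPolynomial.induction_on with
  | C a => rw [aeval_C, D.map_algebraMap]; simp
  | add p q hp hq => simp only [map_add, hp, hq, add_mul, Finset.sum_add_distrib]
  | mul_X p j hp =>
    have h3 : ∀ i, aeval x (pderiv i (p * X j)) * D (x i) =
        aeval x (pderiv i p) * D (x i) * x j +
        if i = j then aeval x p * D (x j) else 0 := by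
      intro i
      rw [Derivation.leibniz, pderiv_X, smul_eq_mul, smul_eq_mul, map_add, map_mul, map_mul,
        aeval_X]
      by_cases h : i = j
      · subst h
        rw [Pi.single_eq_same, if_pos rfl, map_one]
        ring
      · rw [Pi.single_eq_of_ne (Ne.symm h), if_neg h, map_zero]
        ring
    rw [map_mul, aeval_X, Derivation.leibniz, hp, Finset.sum_congr rfl fun i _ => h3 i,
      Finset.sum_add_distrib, Finset.sum_ite_eq', if_pos (Finset.mem_univ j), ← Finset.sum_mul,
      smul_eq_mul, smul_eq_mul]
    ring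

theorem hc_eval {H : MvPolynomial (Fin r) K} (v : Fin r → K) (e : ℕ) :
    ((sig r K H).map (eval v)).coeff e = eval v (homogeneousComponent e H) := by
  rw [Polynomial.coeff_map, sig_eq]

end parts

section types

variable (L K : Type) [Field L] [Field K] [Algebra L K]

/-- `K` is the function field of an affine quadric over `L` (of any dimension) which, in the
coordinates centred at its generic point `x`, has the equation `A + B = 0` with `A` the linear form
of the tangent hyperplane, `B` a quadratic form and `A`, `B` without common factor. -/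
def QuadricOver : Prop :=
  ∃ (n : ℕ) (x : Fin n → K) (F : MvPolynomial (Fin n) L),
    IntermediateField.adjoin L (Set.range x) = ⊤ ∧ F.totalDegree ≤ 2 ∧
    (∀ P : MvPolynomial (Fin n) L, aeval x P = 0 ↔ F ∣ P) ∧
    IsRelPrime
      (homogeneousComponent 1 (aeval (fun i => C (x i) + X i : Fin n → MvPolynomial (Fin n) K) F))
      (homogeneousComponent 2 (aeval (fun i => C (x i) + X i : Fin n → MvPolynomial (Fin n) K) F))

variable {K} in
/-- the parametrization `v ↦ x + v_1 w_1 + ... + v_r w_r` of an affine subspace -/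
noncomputable def aff {n r : ℕ} (x : Fin n → K) (w : Fin r → Fin n → K) (i : Fin n) :
    MvPolynomial (Fin r) K := C (x i) + ∑ j, C (w j i) * X j

/-- `K` is the function field of an affine cubic hypersurface over `L` whose section with the
tangent hyperplane at its generic point `x` is irreducible with a double point at `x`: in
coordinates of the hyperplane centred at `x` the section has the equation `A + B = 0`, with `A` a
quadratic form, `B` a cubic form and `A`, `B` without common factor. -/
def CubicOver : Prop :=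
  ∃ (n r : ℕ) (x : Fin n → K) (F : MvPolynomial (Fin n) L) (w : Fin r → Fin n → K),
    IntermediateField.adjoin L (Set.range x) = ⊤ ∧ F.totalDegree ≤ 3 ∧
    (∀ P : MvPolynomial (Fin n) L, aeval x P = 0 ↔ F ∣ P) ∧
    (∀ u : Fin n → K, ∑ i, aeval x (pderiv i F) * u i = 0 ↔
      u ∈ Submodule.span K (Set.range w)) ∧
    IsRelPrime (homogeneousComponent 2 (aeval (aff x w) F))
      (homogeneousComponent 3 (aeval (aff x w) F))

/-- `K` is the function field of a double cover `y ^ 2 = f(x_1, ..., x_n)` over `L` with `f` of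
degree at most 4: the `x_i` are algebraically independent over `L`, `y` is not in `L(x)` and
`K = L(x, y)`. With the Taylor polynomial `T` of degree 2 of the root `y` of `f` at the generic
point the terms of degree 3 and 4 of `f(x + v) - T(v) ^ 2` have no common factor. -/
def QuarticDoubleOver : Prop :=
  ∃ (n : ℕ) (x : Fin n → K) (y : K) (f : MvPolynomial (Fin n) L) (T : MvPolynomial (Fin n) K),
    AlgebraicIndependent L x ∧ y ∉ IntermediateField.adjoin L (Set.range x) ∧
    y ^ 2 = aeval x f ∧
    IntermediateField.adjoin L (Set.range (Fin.snoc x y : Fin (n + 1) → K)) = ⊤ ∧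
    f.totalDegree ≤ 4 ∧ T.totalDegree ≤ 2 ∧ constantCoeff T = y ∧
    homogeneousComponent 1
      (aeval (fun i => C (x i) + X i : Fin n → MvPolynomial (Fin n) K) f - T ^ 2) = 0 ∧
    homogeneousComponent 2
      (aeval (fun i => C (x i) + X i : Fin n → MvPolynomial (Fin n) K) f - T ^ 2) = 0 ∧
    IsRelPrime
      (homogeneousComponent 3
        (aeval (fun i => C (x i) + X i : Fin n → MvPolynomial (Fin n) K) f - T ^ 2))
      (homogeneousComponent 4
        (aeval (fun i => C (x i) + X i : Fin n → MvPolynomial (Fin n) K) f - T ^ 2))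

/-- a move over `L` whose invariants are algebraic over `L` -/
def HasMove : Prop :=
  ∃ (E : Type) (_ : Field E) (_ : Algebra K E) (φ : K →+* E), Pur K E ∧
    (∀ a : L, φ (algebraMap L K a) = algebraMap K E (algebraMap L K a)) ∧ Dg E φ ∧
    ∀ c, φ c = algebraMap K E c → IsAlgebraic L c

variable {L K}

/-- An element killed by all derivations is algebraic. -/
theorem alg_of_killed [CharZero L] {u : K} (h : ∀ D : Derivation L K K, D u = 0) :
    IsAlgebraic L u := by
  by_contra hcon
  have htr : Transcendental L u := hcon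
  have hind : AlgebraicIndependent L (fun _ : Unit => u) :=
    (algebraicIndependent_unique_type_iff).2 htr
  obtain ⟨D, hD⟩ := Pool.Agent.H135R2.VS.exists_der hind (fun _ => (1 : K))
  have h1 := hD ()
  rw [h D] at h1
  exact zero_ne_one h1

theorem move_of_mono [CharZero L] {N r : ℕ} (x : Fin N → K)
    (hx : IntermediateField.adjoin L (Set.range x) = ⊤)
    (g : Fin N → MvPolynomial (Fin r) K) (hg0 : ∀ i, constantCoeff (g i) = x i) {m : ℕ}
    (hm : 1 ≤ m) {A B : MvPolynomial (Fin r) K} (hA : A.IsHomogeneous m)
    (hB : B.IsHomogeneous (m + 1)) (hAB : IsRelPrime A B)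
    (hS : ∀ P : MvPolynomial (Fin N) L, aeval x P = 0 → (A + B) ∣ aeval g P)
    (hD : ∀ D : Derivation L K K, ∃ v : Fin r → K,
      (∀ i, eval v (homogeneousComponent 1 (g i)) = D (x i)) ∧ (2 ≤ m ∨ eval v A = 0)) :
    HasMove L K := by
  obtain ⟨φ, h1, h2, h3⟩ := mono_move x hx g hg0 hm hA hB hAB hS
  refine ⟨_, inferInstance, inferInstance, φ, pur_frac K (Fin r), h1, h2, fun c hc => ?_⟩
  refine alg_of_killed fun D => h3 c hc D ?_
  obtain ⟨v, hv, hv'⟩ := hD D
  exact ⟨v, fun i => by rw [hc_eval, hv], hv'⟩

theorem sum_parts {r : ℕ} (G : MvPolynomial (Fin r) K) (d : ℕ)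
    (h : ∀ e, d < e → homogeneousComponent e G = 0) :
    G = ∑ e ∈ Finset.range (d + 1), homogeneousComponent e G := by
  classical
  conv_lhs => rw [← sum_homogeneousComponent G]
  rcases le_total G.totalDegree d with h1 | h1
  · refine Finset.sum_subset (Finset.range_subset_range.2 (by omega)) fun e _ he => ?_
    apply homogeneousComponent_eq_zero
    rw [Finset.mem_range] at he
    omega
  · refine (Finset.sum_subset (Finset.range_subset_range.2 (by omega)) fun e _ he => ?_).symm
    apply h
    rw [Finset.mem_range] at he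
    omega

theorem HasMove.quadric [CharZero L] (h : QuadricOver L K) : HasMove L K := by
  classical
  obtain ⟨n, x, F, hx, hF, hI, hrel⟩ := h
  obtain ⟨g, hg⟩ : ∃ g : Fin n → MvPolynomial (Fin n) K, g = fun i => C (x i) + X i := ⟨_, rfl⟩
  rw [← hg] at hrel
  have hg0 : ∀ i, constantCoeff (g i) = x i := by
    intro i
    rw [hg]
    simp
  have hg1 : ∀ i, homogeneousComponent 1 (g i) = X i := by
    intro i
    rw [hg, map_add, homogeneousComponent_eq_zero 1 (C (x i)) (by rw [totalDegree_C]; exact
      Nat.one_pos), zero_add]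
    exact homogeneousComponent_of_mem (isHomogeneous_X K i) |>.trans (if_pos rfl)
  have hgt : ∀ i, (g i).totalDegree ≤ 1 := by
    intro i
    rw [hg]
    refine (totalDegree_add _ _).trans (max_le ?_ ?_)
    · rw [totalDegree_C]; exact Nat.zero_le _
    · exact (totalDegree_X i).le
  have hch := chain x g hg0 F
  have hF0 : aeval x F = 0 := (hI F).2 dvd_rfl
  have hG := sum_parts (aeval g F) 2 (fun e he => natDegree_sig F hF g hgt e (by omega))
  rw [Finset.sum_range_succ, Finset.sum_range_succ, Finset.sum_range_one, hch.1, hF0, C_0,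
    zero_add] at hG
  refine move_of_mono x hx g hg0 le_rfl (homogeneousComponent_isHomogeneous 1 (aeval g F))
    (homogeneousComponent_isHomogeneous 2 (aeval g F)) hrel ?_ ?_
  · intro P hP
    obtain ⟨Q, rfl⟩ := (hI P).1 hP
    rw [← hG, map_mul]
    exact dvd_mul_right _ _
  · intro D
    refine ⟨fun i => D (x i), fun i => by rw [hg1, eval_X], Or.inr ?_⟩
    rw [hch.2, map_sum, ← map_zero D, ← hF0, der_chain]
    refine Finset.sum_congr rfl fun i _ => ?_
    rw [map_mul, eval_C, hg1, eval_X]

theorem HasMove.cubic [CharZero L] (h : CubicOver L K) : HasMove L K := by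
  classical
  obtain ⟨n, r, x, F, w, hx, hF, hI, hw, hrel⟩ := h
  obtain ⟨g, hg⟩ : ∃ g : Fin n → MvPolynomial (Fin r) K, g = aff x w := ⟨_, rfl⟩
  rw [← hg] at hrel
  have hg0 : ∀ i, constantCoeff (g i) = x i := by
    intro i
    rw [hg]
    simp [aff]
  have hsum : ∀ i, (∑ j, C (w j i) * X j : MvPolynomial (Fin r) K).IsHomogeneous 1 := by
    intro i
    refine IsHomogeneous.sum _ _ _ fun j _ => ?_
    have := (isHomogeneous_C (Fin r) (w j i)).mul (isHomogeneous_X K j)
    rwa [zero_add] at this
  have hg1 : ∀ i, homogeneousComponent 1 (g i) = ∑ j, C (w j i) * X j := by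
    intro i
    rw [hg]
    unfold aff
    rw [map_add, homogeneousComponent_eq_zero 1 (C (x i)) (by rw [totalDegree_C]; exact
      Nat.one_pos), zero_add]
    exact homogeneousComponent_of_mem (hsum i) |>.trans (if_pos rfl)
  have hgt : ∀ i, (g i).totalDegree ≤ 1 := by
    intro i
    rw [hg]
    unfold aff
    refine (totalDegree_add _ _).trans (max_le ?_ ?_)
    · rw [totalDegree_C]; exact Nat.zero_le _
    · exact (hsum i).totalDegree_le
  have hch := chain x g hg0 F
  have hF0 : aeval x F = 0 := (hI F).2 dvd_rfl
  have hG := sum_parts (aeval g F) 3 (fun e he => natDegree_sig F hF g hgt e (by omega))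
  have hG1 : homogeneousComponent 1 (aeval g F) = 0 := by
    rw [hch.2]
    have h1 : ∀ i, C (aeval x (pderiv i F)) * homogeneousComponent 1 (g i) =
        ∑ j, C (aeval x (pderiv i F) * w j i) * X j := by
      intro i
      rw [hg1, Finset.mul_sum]
      refine Finset.sum_congr rfl fun j _ => ?_
      rw [C_mul, mul_assoc]
    rw [Finset.sum_congr rfl fun i _ => h1 i, Finset.sum_comm]
    refine Finset.sum_eq_zero fun j _ => ?_
    rw [← Finset.sum_mul, ← map_sum, (hw (w j)).2 (Submodule.subset_span ⟨j, rfl⟩), C_0, zero_mul]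
  rw [Finset.sum_range_succ, Finset.sum_range_succ, Finset.sum_range_succ, Finset.sum_range_one,
    hch.1, hF0, C_0, zero_add, hG1, zero_add] at hG
  refine move_of_mono x hx g hg0 (m := 2) (by norm_num)
    (homogeneousComponent_isHomogeneous 2 (aeval g F))
    (homogeneousComponent_isHomogeneous 3 (aeval g F)) hrel ?_ ?_
  · intro P hP
    obtain ⟨Q, rfl⟩ := (hI P).1 hP
    rw [← hG, map_mul]
    exact dvd_mul_right _ _
  · intro D
    have h1 : (fun i => D (x i)) ∈ Submodule.span K (Set.range w) := by
      rw [← hw, ← der_chain, hF0, map_zero]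
    obtain ⟨v, hv⟩ := (Submodule.mem_span_range_iff_exists_fun K).1 h1
    refine ⟨v, fun i => ?_, Or.inl le_rfl⟩
    rw [hg1, map_sum, ← congrFun hv i, Finset.sum_apply]
    refine Finset.sum_congr rfl fun j _ => ?_
    rw [map_mul, eval_C, eval_X, Pi.smul_apply, smul_eq_mul, mul_comm]

/-- reduction modulo `Y ^ 2 - f` -/
theorem red_sq {n : ℕ} (f : MvPolynomial (Fin n) L) (P : MvPolynomial (Fin (n + 1)) L) :
    ∃ a b : MvPolynomial (Fin n) L, (X (Fin.last n) ^ 2 - rename Fin.castSucc f) ∣
      P - (rename Fin.castSucc a + rename Fin.castSucc b * X (Fin.last n)) := by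
  induction P using MvPolynomial.induction_on with
  | C a =>
    refine ⟨C a, 0, ?_⟩
    rw [rename_C, map_zero, zero_mul, add_zero, sub_self]
    exact dvd_zero _
  | add p q hp hq =>
    obtain ⟨a, b, h1⟩ := hp
    obtain ⟨c, d, h2⟩ := hq
    refine ⟨a + c, b + d, ?_⟩
    have := dvd_add h1 h2
    convert this using 1
    rw [map_add, map_add]
    ring
  | mul_X p j hp =>
    obtain ⟨a, b, Q, hQ⟩ := hp
    refine Fin.lastCases ?_ (fun i => ?_) j
    · refine ⟨b * f, a, Q * X (Fin.last n) + rename Fin.castSucc b, ?_⟩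
      rw [map_mul]
      linear_combination X (Fin.last n) * hQ
    · refine ⟨a * X i, b * X i, Q * X (Fin.castSucc i), ?_⟩
      rw [map_mul, map_mul, rename_X]
      linear_combination X (Fin.castSucc i) * hQ

theorem HasMove.double [CharZero L] (h : QuarticDoubleOver L K) : HasMove L K := by
  classical
  obtain ⟨n, x, y, f, T, hx, hy, hyf, hgen, hf, hT, hT0, hW1, hW2, hrel⟩ := h
  obtain ⟨g', hg'⟩ : ∃ g : Fin n → MvPolynomial (Fin n) K, g = fun i => C (x i) + X i := ⟨_, rfl⟩
  rw [← hg'] at hrel hW1 hW2
  obtain ⟨W, hW⟩ : ∃ W, W = aeval g' f - T ^ 2 := ⟨_, rfl⟩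
  rw [← hW] at hrel hW1 hW2
  have hg0' : ∀ i, constantCoeff (g' i) = x i := by
    intro i
    rw [hg']
    simp
  have hg1 : ∀ i, homogeneousComponent 1 (g' i) = X i := by
    intro i
    rw [hg', map_add, homogeneousComponent_eq_zero 1 (C (x i)) (by rw [totalDegree_C]; exact
      Nat.one_pos), zero_add]
    exact homogeneousComponent_of_mem (isHomogeneous_X K i) |>.trans (if_pos rfl)
  have hgt : ∀ i, (g' i).totalDegree ≤ 1 := by
    intro i
    rw [hg']
    refine (totalDegree_add _ _).trans (max_le ?_ ?_)
    · rw [totalDegree_C]; exact Nat.zero_le _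
    · exact (totalDegree_X i).le
  have hch := chain x g' hg0' f
  have hy0 : y ≠ 0 := by
    rintro rfl
    exact hy (zero_mem _)
  have h2K : (2 : K) ≠ 0 := by
    have : CharZero K := charZero_of_injective_algebraMap (algebraMap L K).injective
    exact two_ne_zero
  have hsT : (sig n K (T ^ 2)).coeff 0 = C (y ^ 2) ∧
      (sig n K (T ^ 2)).coeff 1 = C (2 * y) * homogeneousComponent 1 T := by
    rw [sq, map_mul, Polynomial.mul_coeff_zero, Polynomial.mul_coeff_one, sig_zero, hT0, sig_eq]
    refine ⟨by rw [← C_mul, sq], ?_⟩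
    rw [C_mul]
    have : (C 2 : MvPolynomial (Fin n) K) = 2 := rfl
    rw [this]
    ring
  have hWt : ∀ e, 4 < e → homogeneousComponent e W = 0 := by
    intro e he
    rw [hW, map_sub, natDegree_sig f hf g' hgt e (by omega), zero_sub, neg_eq_zero]
    apply homogeneousComponent_eq_zero
    have := totalDegree_pow T 2
    omega
  have hG := sum_parts W 4 hWt
  have hW0 : homogeneousComponent 0 W = 0 := by
    rw [hW, map_sub, hch.1, ← sig_eq (T ^ 2), hsT.1, hyf, sub_self]
  rw [Finset.sum_range_succ, Finset.sum_range_succ, Finset.sum_range_succ, Finset.sum_range_succ,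
    Finset.sum_range_one, hW0, hW1, hW2, zero_add, zero_add, zero_add] at hG
  refine move_of_mono (Fin.snoc x y : Fin (n + 1) → K) hgen
    (Fin.snoc g' T : Fin (n + 1) → MvPolynomial (Fin n) K) ?_ (m := 3) (by norm_num)
    (homogeneousComponent_isHomogeneous 3 W) (homogeneousComponent_isHomogeneous 4 W) hrel ?_ ?_
  · intro i
    refine Fin.lastCases ?_ (fun i => ?_) i
    · rw [Fin.snoc_last, Fin.snoc_last, hT0]
    · rw [Fin.snoc_castSucc, Fin.snoc_castSucc, hg0']
  · intro P hP
    rw [← hG]
    obtain ⟨a, b, Q, hQ⟩ := red_sq f P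
    have hz : ∀ p : MvPolynomial (Fin n) L,
        aeval (Fin.snoc x y : Fin (n + 1) → K) (rename Fin.castSucc p) = aeval x p := by
      intro p
      rw [aeval_rename]
      congr 2
      funext i
      simp
    have hz' : ∀ p : MvPolynomial (Fin n) L,
        aeval (Fin.snoc g' T : Fin (n + 1) → MvPolynomial (Fin n) K) (rename Fin.castSucc p) =
          aeval g' p := by
      intro p
      rw [aeval_rename]
      congr 2
      funext i
      simp
    have h1 := congrArg (aeval (Fin.snoc x y : Fin (n + 1) → K)) hQ
    rw [map_sub, map_mul, map_sub, map_add, map_mul, map_pow, aeval_X, Fin.snoc_last, hz, hz, hz,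
      hP, hyf, sub_self, zero_mul, zero_sub, neg_eq_zero] at h1
    have hb : aeval x b = 0 := by
      by_contra hb
      apply hy
      have h2 : y = -(aeval x a) / aeval x b := by
        rw [eq_div_iff hb]
        linear_combination h1
      have hmem : ∀ p : MvPolynomial (Fin n) L,
          aeval x p ∈ IntermediateField.adjoin L (Set.range x) := by
        intro p
        have h3 : aeval x p ∈ Algebra.adjoin L (Set.range x) := by
          rw [Algebra.adjoin_range_eq_range_aeval]
          exact ⟨p, rfl⟩
        exact IntermediateField.algebra_adjoin_le_adjoin _ _ h3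
      rw [h2]
      exact div_mem (neg_mem (hmem a)) (hmem b)
    rw [hb, zero_mul, add_zero] at h1
    have ha0 : a = 0 := hx (by rw [h1, map_zero])
    have hb0 : b = 0 := hx (by rw [hb, map_zero])
    rw [ha0, hb0, map_zero, zero_mul, add_zero, sub_zero] at hQ
    rw [hQ, map_mul, map_sub, map_pow, aeval_X, Fin.snoc_last, hz']
    refine Dvd.dvd.mul_right ?_ _
    rw [hW]
    exact ⟨-1, by ring⟩
  · intro D
    refine ⟨fun i => D (x i), fun i => ?_, Or.inl (by norm_num)⟩
    refine Fin.lastCases ?_ (fun i => ?_) i
    · rw [Fin.snoc_last, Fin.snoc_last]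
      have h1 : eval (fun i => D (x i)) (homogeneousComponent 1 W) = 0 := by rw [hW1, map_zero]
      rw [hW, map_sub, ← sig_eq (T ^ 2), hsT.2, hch.2, map_sub, map_mul, eval_C, map_sum] at h1
      have h2 : ∑ i, eval (fun i => D (x i)) (C (aeval x (pderiv i f)) *
          homogeneousComponent 1 (g' i)) = D (aeval x f) := by
        rw [der_chain]
        refine Finset.sum_congr rfl fun i _ => ?_
        rw [map_mul, eval_C, hg1, eval_X]
      rw [h2, ← hyf, sq, Derivation.leibniz, smul_eq_mul] at h1
      have h3 : 2 * y * (eval (fun i => D (x i)) (homogeneousComponent 1 T) - D y) = 0 := by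
        linear_combination -h1
      exact sub_eq_zero.1 ((mul_eq_zero.1 h3).resolve_left (mul_ne_zero h2K hy0))
    · rw [Fin.snoc_castSucc, Fin.snoc_castSucc, hg1, eval_X]

end types

end Pool.Agent.Q84.UF
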