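import Pool.Agent.Q84.UF.HStep
import Pool.Agent.Q84.UF.Types
import Pool.Agent.Y742.HC.Cov

/-! Fibrations in quadrics have the property `UniR`. -/

set_option autoImplicit false

namespace Pool.Agent.Q84.UF

open MvPolynomial

/-- a polynomial with the root `-A / B` is divisible by `A + B T` -/
theorem lin_dvd {R F : Type} [CommRing R] [IsDomain R] [DecompositionMonoid R] [Field F]
    [Algebra R F] [IsFractionRing R F] {A B : R} (hAB : IsRelPrime A B) (hA : A ≠ 0)
    (hB : B ≠ 0) (d : ℕ) : ∀ h : Polynomial R, h.natDegree ≤ d →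
    Polynomial.aeval (-(algebraMap R F A) / algebraMap R F B) h = 0 →
    (Polynomial.C A + Polynomial.C B * Polynomial.X) ∣ h := by
  have hA' : algebraMap R F A ≠ 0 := by
    rw [Ne, IsFractionRing.to_map_eq_zero_iff]
    exact hA
  have hB' : algebraMap R F B ≠ 0 := by
    rw [Ne, IsFractionRing.to_map_eq_zero_iff]
    exact hB
  induction d with
  | zero =>
    intro h hd hr
    obtain ⟨c, rfl⟩ := Polynomial.natDegree_eq_zero.1 (Nat.le_zero.1 hd)
    rw [Polynomial.aeval_C, IsFractionRing.to_map_eq_zero_iff] at hr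
    rw [hr, Polynomial.C_0]
    exact dvd_zero _
  | succ d ih =>
    intro h hd hr
    obtain ⟨c, hc⟩ := root_dvd hAB hB h hr
    obtain ⟨h', hh'⟩ : ∃ h', h' = h - Polynomial.C c *
      (Polynomial.C A + Polynomial.C B * Polynomial.X) := ⟨_, rfl⟩
    have h0 : h'.coeff 0 = 0 := by
      rw [hh', Polynomial.coeff_sub, hc, Polynomial.mul_coeff_zero, Polynomial.coeff_add,
        Polynomial.coeff_C_zero, Polynomial.coeff_C_zero, Polynomial.mul_coeff_zero,
        Polynomial.coeff_X_zero, mul_zero, add_zero, mul_comm, sub_self]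
    have h1 : h' = h'.divX * Polynomial.X := by
      conv_lhs => rw [← Polynomial.divX_mul_X_add h', h0, Polynomial.C_0, add_zero]
    have hs : Polynomial.aeval (-(algebraMap R F A) / algebraMap R F B)
        (Polynomial.C A + Polynomial.C B * Polynomial.X) = 0 := by
      rw [map_add, map_mul, Polynomial.aeval_C, Polynomial.aeval_C, Polynomial.aeval_X]
      field_simp
      ring
    have h2 : Polynomial.aeval (-(algebraMap R F A) / algebraMap R F B) h' = 0 := by
      rw [hh', map_sub, map_mul, hs, hr, mul_zero, sub_zero]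
    rw [h1, map_mul, Polynomial.aeval_X] at h2
    have h3 := (mul_eq_zero.1 h2).resolve_right (div_ne_zero (neg_ne_zero.2 hA') hB')
    have h4 : h'.divX.natDegree ≤ d := by
      rw [Polynomial.natDegree_divX_eq_natDegree_tsub_one]
      have h5 : h'.natDegree ≤ d + 1 := by
        rw [hh']
        refine (Polynomial.natDegree_sub_le _ _).trans (max_le hd ?_)
        refine (Polynomial.natDegree_C_mul_le _ _).trans ?_
        refine (Polynomial.natDegree_add_le _ _).trans (max_le ?_ ?_)
        · rw [Polynomial.natDegree_C]; exact Nat.zero_le _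
        · refine (Polynomial.natDegree_C_mul_le _ _).trans (Polynomial.natDegree_X_le.trans ?_)
          omega
      omega
    obtain ⟨Q, hQ⟩ := ih h'.divX h4 h3
    refine ⟨Polynomial.C c + Q * Polynomial.X, ?_⟩
    have h6 : h = h' + Polynomial.C c * (Polynomial.C A + Polynomial.C B * Polynomial.X) := by
      rw [hh']; ring
    rw [h6, h1, hQ]
    ring

theorem fs1 {F : Type} [Field F] {a b t : F} (hb : b ≠ 0) (ht : t ≠ 0) :
    -(a * t ^ 1) / (b * t ^ 2) = (-a / b) / t := by
  field_simp

theorem fs2 {F : Type} [Field F] {u t s : F} (ht : t ≠ 0) : u * t * (s / t) = u * s := by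
  field_simp

section

variable {K : Type} [Field K] {r : ℕ}

theorem sig_one (H : MvPolynomial (Fin r) K) : Polynomial.eval 1 (sig r K H) = H := by
  induction H using MvPolynomial.induction_on with
  | C a =>
    unfold sig
    rw [aeval_C, Polynomial.algebraMap_apply, Polynomial.eval_C, MvPolynomial.algebraMap_eq]
  | add p q hp hq => rw [map_add, Polynomial.eval_add, hp, hq]
  | mul_X p j hp =>
    rw [map_mul, Polynomial.eval_mul, hp]
    congr 1
    unfold sig
    rw [aeval_X, Polynomial.eval_mul, Polynomial.eval_C, Polynomial.eval_X, mul_one]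

/-- scaling of homogeneous polynomials -/
theorem hom_scale {e : ℕ} {A : MvPolynomial (Fin r) K} (hA : A.IsHomogeneous e) {S : Type}
    [CommRing S] [Algebra K S] (y : Fin r → S) (c : S) :
    aeval (fun j => y j * c) A = aeval y A * c ^ e := by
  have h1 : ∀ H : MvPolynomial (Fin r) K, aeval (fun j => y j * c) H =
      Polynomial.eval₂ ((aeval y : MvPolynomial (Fin r) K →ₐ[K] S) : MvPolynomial (Fin r) K →+* S)
        c (sig r K H) := by
    intro H
    induction H using MvPolynomial.induction_on with
    | C a =>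
      unfold sig
      rw [aeval_C, aeval_C, Polynomial.algebraMap_apply, Polynomial.eval₂_C,
        MvPolynomial.algebraMap_eq]
      exact (aeval_C y a).symm
    | add p q hp hq => rw [map_add, map_add, Polynomial.eval₂_add, hp, hq]
    | mul_X p j hp =>
      rw [map_mul, map_mul, Polynomial.eval₂_mul, hp]
      congr 1
      unfold sig
      rw [aeval_X, aeval_X, Polynomial.eval₂_mul, Polynomial.eval₂_C, Polynomial.eval₂_X]
      congr 1
      exact (aeval_X y j).symm
  rw [h1, sig_of_hom hA, Polynomial.eval₂_mul, Polynomial.eval₂_C, Polynomial.eval₂_pow,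
    Polynomial.eval₂_X]
  rfl

/-- the kernel of the parametrization -/
theorem ker_dvd {A B : MvPolynomial (Fin r) K} (hAB : IsRelPrime A B) (hA : A ≠ 0) (hB : B ≠ 0)
    (H : MvPolynomial (Fin r) K)
    (h : th (-(algebraMap (MvPolynomial (Fin r) K) (RF r K) A) /
      algebraMap (MvPolynomial (Fin r) K) (RF r K) B) H = 0) : (A + B) ∣ H := by
  rw [th_eq] at h
  obtain ⟨Q, hQ⟩ := lin_dvd hAB hA hB _ _ le_rfl h
  have h1 := congrArg (Polynomial.eval 1) hQ
  rw [sig_one, Polynomial.eval_mul, Polynomial.eval_add, Polynomial.eval_mul, Polynomial.eval_C,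
    Polynomial.eval_C, Polynomial.eval_X, mul_one] at h1
  exact ⟨_, h1⟩

theorem exists_coeff {σ L : Type} [Field L] [Algebra L K] (l : K →ₗ[L] L)
    (G : MvPolynomial σ K) : ∃ G' : MvPolynomial σ L, ∀ m, coeff m G' = l (coeff m G) := by
  classical
  refine ⟨∑ m ∈ G.support, monomial m (l (coeff m G)), fun m => ?_⟩
  rw [coeff_sum]
  simp only [coeff_monomial]
  rw [Finset.sum_ite_eq']
  split_ifs with h
  · rfl
  · rw [notMem_support_iff.1 h, map_zero]

/-- divisibility by a polynomial over the smaller field -/
theorem dvd_desc {σ L : Type} [Field L] [Algebra L K] {m : ℕ} (F : MvPolynomial σ L)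
    (P : Fin m → MvPolynomial σ L) (c : Fin m → K)
    (h : MvPolynomial.map (algebraMap L K) F ∣ ∑ j, C (c j) * MvPolynomial.map (algebraMap L K) (P j))
    (l : K →ₗ[L] L) : F ∣ ∑ j, C (l (c j)) * P j := by
  classical
  obtain ⟨G, hG⟩ := h
  obtain ⟨G', hG'⟩ := exists_coeff l G
  refine ⟨G', ?_⟩
  ext d
  have h1 : l (coeff d (∑ j, C (c j) * MvPolynomial.map (algebraMap L K) (P j))) =
      l (coeff d (MvPolynomial.map (algebraMap L K) F * G)) := by rw [hG]
  rw [coeff_sum, map_sum, coeff_mul, map_sum] at h1
  rw [coeff_sum, coeff_mul]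
  have h2 : ∀ j, l (coeff d (C (c j) * MvPolynomial.map (algebraMap L K) (P j))) =
      coeff d (C (l (c j)) * P j) := by
    intro j
    rw [coeff_C_mul, coeff_C_mul, coeff_map, mul_comm, ← Algebra.smul_def, map_smul, smul_eq_mul,
      mul_comm]
  have h3 : ∀ a : (σ →₀ ℕ) × (σ →₀ ℕ),
      l (coeff a.1 (MvPolynomial.map (algebraMap L K) F) * coeff a.2 G) =
      coeff a.1 F * coeff a.2 G' := by
    intro a
    rw [coeff_map, ← Algebra.smul_def, map_smul, smul_eq_mul, hG']
  rw [Finset.sum_congr rfl fun j _ => h2 j, Finset.sum_congr rfl fun a _ => h3 a] at h1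
  exact h1

end

/-- **Quadrics.** -/
theorem UniR.quadric {k K : Type} [Field k] [CharZero k] [Field K] [Algebra k K]
    {L : IntermediateField k K} (h : QuadricOver L K) : UniR L := by
  classical
  obtain ⟨n, x, F, hx, hF, hI, hrel⟩ := h
  obtain ⟨g, hg⟩ : ∃ g : Fin n → MvPolynomial (Fin n) K, g = fun i => C (x i) + X i := ⟨_, rfl⟩
  rw [← hg] at hrel
  have hg0 : ∀ i, constantCoeff (g i) = x i := by
    intro i
    rw [hg]
    simp
  have hgt : ∀ i, (g i).totalDegree ≤ 1 := by
    intro i
    rw [hg]
    refine (totalDegree_add _ _).trans (max_le ?_ ?_)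
    · rw [totalDegree_C]; exact Nat.zero_le _
    · exact (totalDegree_X i).le
  have hch := chain x g hg0 F
  have hF0 : aeval x F = 0 := (hI F).2 dvd_rfl
  have hG := sum_parts (aeval g F) 2 (fun e he => natDegree_sig F hF g hgt e (by omega))
  rw [Finset.sum_range_succ, Finset.sum_range_succ, Finset.sum_range_one, hch.1, hF0, C_0,
    zero_add] at hG
  obtain ⟨A, hAe⟩ : ∃ A, A = homogeneousComponent 1 (aeval g F) := ⟨_, rfl⟩
  obtain ⟨B, hBe⟩ : ∃ B, B = homogeneousComponent 2 (aeval g F) := ⟨_, rfl⟩
  have hA : A.IsHomogeneous 1 := by rw [hAe]; exact homogeneousComponent_isHomogeneous 1 _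
  have hB : B.IsHomogeneous 2 := by rw [hBe]; exact homogeneousComponent_isHomogeneous 2 _
  rw [← hAe, ← hBe] at hrel hG
  have hB0 : B ≠ 0 := by
    rintro rfl
    have h1 : IsUnit A := hrel dvd_rfl (dvd_zero A)
    exact one_ne_zero (hom_dvd hA (isHomogeneous_one (Fin n) K) one_pos h1.dvd)
  have hA0 : A ≠ 0 := by
    rintro rfl
    have h1 : IsUnit B := hrel (dvd_zero B) dvd_rfl
    exact one_ne_zero (hom_dvd hB (isHomogeneous_one (Fin n) K) two_pos h1.dvd)
  obtain ⟨s, hs⟩ : ∃ s : RF n K, s = -(algebraMap (MvPolynomial (Fin n) K) (RF n K) A) /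
    algebraMap (MvPolynomial (Fin n) K) (RF n K) B := ⟨_, rfl⟩
  have hB' : algebraMap (MvPolynomial (Fin n) K) (RF n K) B ≠ 0 := by
    rw [Ne, IsFractionRing.to_map_eq_zero_iff]
    exact hB0
  have hA' : algebraMap (MvPolynomial (Fin n) K) (RF n K) A ≠ 0 := by
    rw [Ne, IsFractionRing.to_map_eq_zero_iff]
    exact hA0
  have hs0 : s ≠ 0 := by
    rw [hs]
    exact div_ne_zero (neg_ne_zero.2 hA') hB'
  have hker : ∀ H, th s H = 0 → (A + B) ∣ H := fun H hH => ker_dvd hrel hA0 hB0 H (hs ▸ hH)
  have hroot : th s (A + B) = 0 := by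
    rw [map_add, th_eq, th_eq, sig_of_hom hA, sig_of_hom hB, map_mul, map_mul, map_pow, map_pow,
      Polynomial.aeval_C, Polynomial.aeval_C, Polynomial.aeval_X, pow_one]
    have h1 : algebraMap (MvPolynomial (Fin n) K) (RF n K) A +
        algebraMap (MvPolynomial (Fin n) K) (RF n K) B * s = 0 := by
      rw [hs]
      field_simp
      ring
    linear_combination s * h1
  have hc : ∀ P : MvPolynomial (Fin n) L, constantCoeff (aeval g P) = aeval x P := by
    intro P
    induction P using MvPolynomial.induction_on with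
    | C a =>
      rw [aeval_C, aeval_C]
      have h1 : algebraMap L (MvPolynomial (Fin n) K) a = C (algebraMap L K a) := rfl
      rw [h1, constantCoeff_C]
    | add p q hp hq => rw [map_add, map_add, map_add, hp, hq]
    | mul_X p j hp => rw [map_mul, map_mul, map_mul, hp, aeval_X, aeval_X, hg0]
  have hAB0 : constantCoeff (A + B) = 0 := by
    rw [hG.symm, hc, hF0]
  let ψ : MvPolynomial (Fin n) L →+* RF n K :=
    (th s : MvPolynomial (Fin n) K →+* RF n K).comp
      ((aeval g : MvPolynomial (Fin n) L →ₐ[L] MvPolynomial (Fin n) K) :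
        MvPolynomial (Fin n) L →+* MvPolynomial (Fin n) K)
  have hψ' : ∀ P, ψ P = th s (aeval g P) := fun _ => rfl
  have hψ : ∀ P, ψ P = 0 ↔ aeval x P = 0 := by
    intro P
    rw [hψ']
    constructor
    · intro h
      obtain ⟨Q, hQ⟩ := hker _ h
      rw [← hc, hQ, map_mul, hAB0, zero_mul]
    · intro h
      obtain ⟨Q, rfl⟩ := (hI P).1 h
      rw [map_mul, map_mul, hG, hroot, zero_mul]
  obtain ⟨φ, hφ⟩ := ext_gen x hx ψ hψ
  have hφL : ∀ a : L, φ (algebraMap L K a) = algebraMap K _ (algebraMap L K a) := by
    intro a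
    have h1 := hφ (C a)
    rw [aeval_C, hψ', aeval_C] at h1
    rw [h1]
    exact (th s).commutes (algebraMap L K a)
  refine ⟨RF n K, inferInstance, inferInstance, φ, pur_frac K (Fin n),
    fun a ha => hφL ⟨a, ha⟩, ?_, ?_⟩
  · intro m b hb
    obtain ⟨Q, P, hQ, hP⟩ := common x hx b
    have h1 : ∀ j, φ (b j) * th s (aeval g Q) = th s (aeval g (P j)) := by
      intro j
      rw [← hψ', ← hψ', ← hφ, ← hφ, ← hP, map_mul]
    rw [Fintype.linearIndependent_iff]
    intro c hsum
    have h2 : th s (∑ j, C (c j) * aeval g (P j)) = 0 := by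
      rw [map_sum]
      have h3 : ∀ j, th s (C (c j) * aeval g (P j)) = (c j • (φ ∘ b) j) * th s (aeval g Q) := by
        intro j
        rw [map_mul, ← h1]
        have h4 : th s (C (c j)) = algebraMap K _ (c j) := (th s).commutes (c j)
        rw [h4, Algebra.smul_def, mul_assoc]
        rfl
      rw [Finset.sum_congr rfl fun j _ => h3 j, ← Finset.sum_mul, hsum, zero_mul]
    have h3 := hker _ h2
    let τ : MvPolynomial (Fin n) K →ₐ[K] MvPolynomial (Fin n) K :=
      aeval fun i => X i - C (x i)
    have hτ : ∀ P : MvPolynomial (Fin n) L, τ (aeval g P) = MvPolynomial.map (algebraMap L K) P := by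
      intro P
      induction P using MvPolynomial.induction_on with
      | C a =>
        rw [aeval_C, map_C]
        exact τ.commutes (algebraMap L K a)
      | add p q hp hq => rw [map_add, map_add, map_add, hp, hq]
      | mul_X p j hp =>
        rw [map_mul, map_mul, map_mul, hp, aeval_X, map_X, hg]
        congr 1
        show τ (C (x j) + X j) = X j
        rw [map_add]
        have h5 : τ (C (x j)) = C (x j) := τ.commutes (x j)
        have h6 : τ (X j) = X j - C (x j) := aeval_X _ _
        rw [h5, h6]
        ring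
    have h4 : MvPolynomial.map (algebraMap L K) F ∣
        ∑ j, C (c j) * MvPolynomial.map (algebraMap L K) (P j) := by
      have h5 := map_dvd τ h3
      have h6 : τ (A + B) = MvPolynomial.map (algebraMap L K) F := by
        rw [← hG]
        exact hτ F
      rw [h6] at h5
      have h7 : τ (∑ j, C (c j) * aeval g (P j)) =
          ∑ j, C (c j) * MvPolynomial.map (algebraMap L K) (P j) := by
        rw [map_sum]
        refine Finset.sum_congr rfl fun j _ => ?_
        rw [map_mul]
        congr 1
        · exact τ.commutes (c j)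
        · exact hτ (P j)
      rwa [h7] at h5
    intro i
    rw [← Module.forall_dual_apply_eq_zero_iff L (c i)]
    intro l
    have h5 := dvd_desc F P c h4 l
    have h6 := (hI _).2 h5
    rw [map_sum] at h6
    have h7 : ∀ j, aeval x (C (l (c j)) * P j) = (l (c j) • b j) * aeval x Q := by
      intro j
      rw [map_mul, aeval_C, ← hP, Algebra.smul_def, mul_assoc]
    rw [Finset.sum_congr rfl fun j _ => h7 j, ← Finset.sum_mul] at h6
    exact Fintype.linearIndependent_iff.1 hb _ ((mul_eq_zero.1 h6).resolve_right hQ) i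
  · intro z hz
    obtain ⟨N, hN⟩ : ∃ N, N = IntermediateField.adjoin K (Set.range φ) := ⟨_, rfl⟩
    rw [← hN] at hz ⊢
    let ξ : Fin n → RF n K := fun i => algebraMap (MvPolynomial (Fin n) K) (RF n K) (X i)
    have hφx : ∀ i, φ (x i) = algebraMap K (RF n K) (x i) + ξ i * s := by
      intro i
      have h1 := hφ (X i)
      rw [aeval_X, hψ', aeval_X, hg] at h1
      rw [h1, map_add]
      congr 1
      · exact (th s).commutes (x i)
      · exact aeval_X _ _
    have hφN : ∀ a, φ a ∈ N := fun a => hN ▸ IntermediateField.subset_adjoin K _ ⟨a, rfl⟩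
    have hξs : ∀ i, ξ i * s ∈ N := by
      intro i
      have h1 : ξ i * s = φ (x i) - algebraMap K (RF n K) (x i) := by rw [hφx]; ring
      rw [h1]
      exact sub_mem (hφN _) (N.algebraMap_mem _)
    obtain ⟨i₀⟩ : Nonempty (Fin n) := by
      by_contra hne
      rw [not_nonempty_iff] at hne
      apply hA0
      obtain ⟨a, ha⟩ := (MvPolynomial.isEmptyRingEquiv K (Fin n)).symm.surjective A
      have h1 := hA.coeff_eq_zero (d := 0) (by simp)
      ext d
      rw [Subsingleton.elim d 0, h1, coeff_zero]
    have hξ0 : ξ i₀ ≠ 0 := by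
      show algebraMap (MvPolynomial (Fin n) K) (RF n K) (X i₀) ≠ 0
      rw [Ne, IsFractionRing.to_map_eq_zero_iff]
      exact X_ne_zero i₀
    have hrat : ∀ i, ξ i / ξ i₀ ∈ N := by
      intro i
      have h1 : ξ i / ξ i₀ = (ξ i * s) / (ξ i₀ * s) := by
        rw [mul_div_mul_right _ _ hs0]
      rw [h1]
      exact div_mem (hξs i) (hξs i₀)
    let E := RF n K
    let σ₁ : MvPolynomial (Fin n) K →ₐ[K] MvPolynomial Unit E := aeval fun i => C (ξ i) * X ()
    let ev : E → (MvPolynomial Unit E →ₐ[E] E) := fun c => aeval fun _ => c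
    have hev : ∀ (c : E) (H : MvPolynomial (Fin n) K), ev c (σ₁ H) =
        aeval (fun i => ξ i * c) H := by
      intro c H
      induction H using MvPolynomial.induction_on with
      | C a =>
        have h1 : σ₁ (C a) = C (algebraMap K E a) := by
          show aeval _ (C a) = _
          rw [aeval_C]
          rfl
        have e1 : ev c (C (algebraMap K E a)) = algebraMap K E a := by
          show aeval _ (C _) = _
          rw [aeval_C]
          rfl
        have e2 : aeval (fun i => ξ i * c) (C a) = algebraMap K E a := aeval_C _ _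
        rw [h1, e1, e2]
      | add p q hp hq => rw [map_add, map_add, map_add, hp, hq]
      | mul_X p j hp =>
        rw [map_mul, map_mul, map_mul, hp]
        congr 1
        have h1 : σ₁ (X j) = C (ξ j) * X () := aeval_X _ _
        have e1 : ev c (C (ξ j)) = ξ j := by
          show aeval _ (C _) = _
          rw [aeval_C]
          rfl
        have e2 : ev c (X ()) = c := aeval_X _ _
        have e3 : aeval (fun i => ξ i * c) (X j : MvPolynomial (Fin n) K) = ξ j * c :=
          aeval_X _ _
        rw [h1, map_mul, e1, e2, e3]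
    have hev1 : ∀ H : MvPolynomial (Fin n) K, ev 1 (σ₁ H) =
        algebraMap (MvPolynomial (Fin n) K) E H := by
      intro H
      rw [hev]
      simp only [mul_one]
      have h1 : (aeval ξ : MvPolynomial (Fin n) K →ₐ[K] E) =
          IsScalarTower.toAlgHom K (MvPolynomial (Fin n) K) E := by
        apply MvPolynomial.algHom_ext
        intro i
        rw [aeval_X]
        rfl
      exact congrArg (fun f : MvPolynomial (Fin n) K →ₐ[K] E => f H) h1
    let E₂ := FractionRing (MvPolynomial Unit E)
    let σ₂ : MvPolynomial (Fin n) K →+* E₂ :=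
      (algebraMap (MvPolynomial Unit E) E₂).comp (σ₁ : MvPolynomial (Fin n) K →+* _)
    have hσ₂ : Function.Injective σ₂ := by
      rw [injective_iff_map_eq_zero]
      intro H hH
      have h1 : algebraMap (MvPolynomial Unit E) E₂ (σ₁ H) = 0 := hH
      rw [IsFractionRing.to_map_eq_zero_iff] at h1
      have h2 := hev1 H
      rw [h1, map_zero] at h2
      exact (IsFractionRing.to_map_eq_zero_iff (K := E)).1 h2.symm
    let σ : E →+* E₂ := IsFractionRing.lift hσ₂
    have hσ : ∀ H, σ (algebraMap (MvPolynomial (Fin n) K) E H) =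
        algebraMap (MvPolynomial Unit E) E₂ (σ₁ H) := by
      intro H
      exact IsFractionRing.lift_algebraMap hσ₂ H
    have hσK : ∀ a : K, σ (algebraMap K E a) = algebraMap E E₂ (algebraMap K E a) := by
      intro a
      have h1 := hσ (C a)
      have h2 : σ₁ (C a) = C (algebraMap K E a) := by
        show aeval _ (C a) = _
        rw [aeval_C]
        rfl
      rw [h2] at h1
      exact h1
    let T : E₂ := algebraMap (MvPolynomial Unit E) E₂ (X ())
    have hT0 : T ≠ 0 := by
      show algebraMap (MvPolynomial Unit E) E₂ (X ()) ≠ 0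
      rw [Ne, IsFractionRing.to_map_eq_zero_iff]
      exact X_ne_zero ()
    have hσξ : ∀ i, σ (ξ i) = algebraMap E E₂ (ξ i) * T := by
      intro i
      have h1 := hσ (X i)
      have h2 : σ₁ (X i) = C (ξ i) * X () := aeval_X _ _
      rw [h2, map_mul] at h1
      exact h1
    have hσhom : ∀ (e : ℕ) (H : MvPolynomial (Fin n) K), H.IsHomogeneous e →
        σ (algebraMap (MvPolynomial (Fin n) K) E H) =
          algebraMap E E₂ (algebraMap (MvPolynomial (Fin n) K) E H) * T ^ e := by
      intro e H hH
      rw [hσ]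
      have h1 := hom_scale hH (fun i => (C (ξ i) : MvPolynomial Unit E)) (X ())
      have h2 : σ₁ H = aeval (fun i => (C (ξ i) : MvPolynomial Unit E)) H * X () ^ e := h1
      rw [h2, map_mul, map_pow]
      congr 1
      have h3 : aeval (fun i => (C (ξ i) : MvPolynomial Unit E)) H = C (aeval ξ H) := by
        have h4 := (aeval_algebraMap_apply (MvPolynomial Unit E) ξ H)
        exact h4
      rw [h3]
      have h5 : aeval ξ H = algebraMap (MvPolynomial (Fin n) K) E H := by
        rw [← hev1, hev]
        simp only [mul_one]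
      rw [h5]
      rfl
    have hσs : σ s = algebraMap E E₂ s / T := by
      rw [hs, map_div₀, map_neg, hσhom 1 A hA, hσhom 2 B hB, map_div₀, map_neg]
      have h1 : algebraMap E E₂ (algebraMap (MvPolynomial (Fin n) K) E B) ≠ 0 := by
        rw [Ne, map_eq_zero]
        exact hB'
      exact fs1 h1 hT0
    have hfixK : ∀ b : K, σ (φ b) = algebraMap E E₂ (φ b) := by
      intro b
      have hb : b ∈ IntermediateField.adjoin L (Set.range x) := by rw [hx]; trivial
      induction hb using IntermediateField.adjoin_induction with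
      | mem b hb =>
        obtain ⟨i, rfl⟩ := hb
        rw [hφx, map_add, map_add, hσK, map_mul, map_mul, hσξ, hσs, fs2 hT0]
      | algebraMap b => rw [hφL, hσK]
      | add b c _ _ hb hc => rw [map_add, map_add, map_add, hb, hc]
      | mul b c _ _ hb hc => rw [map_mul, map_mul, map_mul, hb, hc]
      | inv b _ hb => rw [map_inv₀, map_inv₀, map_inv₀, hb]
    have hfixN : ∀ a : N, σ (algebraMap N E a) ∈ Set.range (algebraMap E E₂) := by
      rintro ⟨a, ha⟩
      show σ a ∈ _
      rw [hN] at ha
      induction ha using IntermediateField.adjoin_induction with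
      | mem a ha =>
        obtain ⟨b, rfl⟩ := ha
        exact ⟨_, (hfixK b).symm⟩
      | algebraMap a => exact ⟨_, (hσK a).symm⟩
      | add a b _ _ ha hb =>
        obtain ⟨a', ha'⟩ := ha
        obtain ⟨b', hb'⟩ := hb
        exact ⟨a' + b', by rw [map_add, map_add, ha', hb']⟩
      | mul a b _ _ ha hb =>
        obtain ⟨a', ha'⟩ := ha
        obtain ⟨b', hb'⟩ := hb
        exact ⟨a' * b', by rw [map_mul, map_mul, ha', hb']⟩
      | inv a _ ha =>
        obtain ⟨a', ha'⟩ := ha
        exact ⟨a'⁻¹, by rw [map_inv₀, map_inv₀, ha']⟩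
    obtain ⟨w, hw⟩ := Pool.Agent.Y742.HC.alg_frac (σ z) (alg_image (F₂ := E) σ hfixN hz)
    obtain ⟨P, Q, hQ, hPQ⟩ := IsFractionRing.div_surjective (A := MvPolynomial (Fin n) K) z
    have hQ0 : Q ≠ 0 := nonZeroDivisors.ne_zero hQ
    have hQ' : algebraMap (MvPolynomial (Fin n) K) E Q ≠ 0 := by
      rw [Ne, IsFractionRing.to_map_eq_zero_iff]
      exact hQ0
    have hid : σ₁ P = C w * σ₁ Q := by
      apply IsFractionRing.injective (MvPolynomial Unit E) E₂
      rw [map_mul, ← hσ, ← hσ]
      have h1 : algebraMap (MvPolynomial Unit E) E₂ (C w) = σ z := hw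
      rw [h1, ← hPQ, map_div₀, div_mul_cancel₀]
      rw [Ne, map_eq_zero]
      exact hQ'
    have hevid : ∀ c : E, aeval (fun i => ξ i * c) P = w * aeval (fun i => ξ i * c) Q := by
      intro c
      rw [← hev, ← hev, hid, map_mul]
      congr 1
      exact aeval_C _ _
    have hzw : z = w := by
      have h1 := congrArg (ev 1) hid
      rw [hev1, map_mul, hev1] at h1
      have h2 : ev 1 (C w) = w := aeval_C _ _
      rw [h2] at h1
      rw [← hPQ, h1, mul_div_assoc, div_self hQ', mul_one]
    obtain ⟨a, ha⟩ : ∃ a : K, aeval (fun i => ξ i * (algebraMap K E a / ξ i₀)) Q ≠ 0 := by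
      by_contra hcon
      push Not at hcon
      let p : Polynomial E := aeval (fun i => Polynomial.C (ξ i) * Polynomial.X) Q
      have hp' : ∀ (c : E) (H : MvPolynomial (Fin n) K),
          (aeval (fun i => Polynomial.C (ξ i) * Polynomial.X : Fin n → Polynomial E) H).eval c =
            aeval (fun i => ξ i * c) H := by
        intro c H
        induction H using MvPolynomial.induction_on with
        | C a =>
          rw [aeval_C, aeval_C, Polynomial.algebraMap_apply, Polynomial.eval_C]
        | add p q hp hq => rw [map_add, map_add, Polynomial.eval_add, hp, hq]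
        | mul_X p j hp =>
          rw [map_mul, map_mul, Polynomial.eval_mul, hp, aeval_X, aeval_X, Polynomial.eval_mul,
            Polynomial.eval_C, Polynomial.eval_X]
      have hp : ∀ c, p.eval c = aeval (fun i => ξ i * c) Q := fun c => hp' c Q
      have hp0 : p ≠ 0 := by
        intro h0
        have h1 := hp 1
        rw [h0, Polynomial.eval_zero, ← hev, hev1] at h1
        exact hQ' h1.symm
      apply hp0
      apply Polynomial.eq_zero_of_infinite_isRoot
      have hinf : (Set.range fun a : K => algebraMap K E a / ξ i₀).Infinite := by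
        have : CharZero K := charZero_of_injective_algebraMap (algebraMap k K).injective
        apply Set.infinite_range_of_injective
        intro a b hab
        have h1 : algebraMap K E a / ξ i₀ = algebraMap K E b / ξ i₀ := hab
        rw [div_left_inj' hξ0] at h1
        exact (algebraMap K E).injective h1
      refine hinf.mono ?_
      rintro _ ⟨a, rfl⟩
      show p.eval _ = 0
      rw [hp]
      exact hcon a
    have hmem : ∀ H : MvPolynomial (Fin n) K,
        aeval (fun i => ξ i * (algebraMap K E a / ξ i₀)) H ∈ N := by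
      intro H
      have h1 : (Algebra.adjoin K (Set.range fun i => ξ i * (algebraMap K E a / ξ i₀))) ≤
          N.toSubalgebra := by
        rw [Algebra.adjoin_le_iff]
        rintro _ ⟨i, rfl⟩
        have h2 : ξ i * (algebraMap K E a / ξ i₀) = algebraMap K E a * (ξ i / ξ i₀) := by
          field_simp
        show ξ i * (algebraMap K E a / ξ i₀) ∈ N
        rw [h2]
        exact mul_mem (N.algebraMap_mem a) (hrat i)
      apply h1
      rw [Algebra.adjoin_range_eq_range_aeval]
      exact ⟨H, rfl⟩
    have hfin : z = aeval (fun i => ξ i * (algebraMap K E a / ξ i₀)) P /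
        aeval (fun i => ξ i * (algebraMap K E a / ξ i₀)) Q := by
      rw [hevid, mul_div_assoc, div_self ha, mul_one, hzw]
    rw [hfin]
    exact div_mem (hmem P) (hmem Q)

end Pool.Agent.Q84.UF
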