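import Pool.Agent.Q84.UF.LStep
import Pool.Agent.H639R3.Z.Gal
import Pool.Agent.Helper386.D5V.Helper399_FF4
import Pool.Agent.Y742.HC.All

/-! Lifting of families and ramification. -/

set_option autoImplicit false

namespace Pool.Agent.Q84.UF

open MvPolynomial Pool.Agent.TH178.HI Pool.Agent.Y742.HC

/-- The general member of the family `φ` meets the prime divisor `P` with multiplicity one: some
prime divisor `Q` of the parameter space over `K` is mapped onto `P` and is not a multiple component
of its inverse image. -/
def Meets {k K : Type} [Field k] [Field K] [Algebra k K] {n : ℕ} (φ : K →ₐ[k] RF n K)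
    (P : FF.Place k K) : Prop :=
  ∃ Q : FF.Place K (RF n K), ∀ a : K, Q.ord (φ a) = P.ord a

/-- Places over a place have the same index in a Galois extension. -/
theorem conj_index {k K N : Type} [Field k] [Field K] [Field N] [Algebra k K] [Algebra k N]
    [Algebra K N] [IsScalarTower k K N] [IsGalois K N] {P : FF.Place k K} {w w' : FF.Place k N}
    {e e' : ℕ} (h : FF.Over w P e) (h' : FF.Over w' P e') : e = e' := by
  have hD : IsDiscreteValuationRing P.O := P.isDVR
  have hc : ∀ {v : FF.Place k N} {m : ℕ}, FF.Over v P m → v.O.comap (algebraMap K N) = P.O := by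
    intro v m hv
    ext a
    exact hv.reg
  obtain ⟨σ, hσ⟩ := Pool.Agent.H639R3.exists_aut (F := K) (L := N) (A := P.O) w.O w'.O (by
      intro a
      have h1 : (a : K) ∈ w.O.comap (algebraMap K N) := by
        rw [hc h]
        exact a.2
      exact h1) (by
      rw [hc h]
      intro htop
      obtain ⟨t, ht0, ht⟩ := P.surj
      have h1 : t⁻¹ ∈ P.O := by rw [htop]; trivial
      have h2 := (P.reg_iff (inv_ne_zero ht0)).1 h1
      rw [P.ord_inv] at h2
      omega) (by rw [hc h, hc h'])
  have h1 : w' = w.comp (σ.restrictScalars k) := by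
    apply FF.Place.eq_of_le
    intro f hf hf'
    have h2 : f ∈ w'.O := Or.inr hf'
    have h3 := (hσ f).1 h2
    exact (w.reg_iff ((map_ne_zero σ).2 hf)).1 h3
  obtain ⟨t, ht0, ht⟩ := P.surj
  have h2 := h.2 t
  have h3 := h'.2 t
  rw [h1, FF.Place.comp_ord] at h3
  have h4 : (σ.restrictScalars k) (algebraMap K N t) = algebraMap K N t := σ.commutes t
  rw [h4, h2, ht] at h3
  omega

theorem gen_chg {n : ℕ} {K N : Type} [Field K] [Field N] [Algebra K N]
    [Algebra (RF n K) (RF n N)]
    (hc : ∀ z, algebraMap (RF n K) (RF n N) z = chg (algebraMap K N) z) {S : Set N}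
    (hS : IntermediateField.adjoin K S = ⊤) :
    IntermediateField.adjoin (RF n K) (algebraMap N (RF n N) '' S) = ⊤ := by
  rw [eq_top_iff]
  rintro z -
  have hz : z ∈ IntermediateField.adjoin N (Set.range fun i : Fin n =>
      algebraMap (MvPolynomial (Fin n) N) (RF n N) (X i)) := by
    rw [adj_frac N (Fin n)]
    trivial
  refine adjoin_le_of _ (fun b => ?_) ?_ hz
  · have hb : b ∈ IntermediateField.adjoin K S := by rw [hS]; trivial
    induction hb using IntermediateField.adjoin_induction with
    | mem x hx => exact IntermediateField.subset_adjoin _ _ ⟨x, hx, rfl⟩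
    | algebraMap c =>
      rw [← chg_C (n := n) (algebraMap K N) c, ← hc]
      exact IntermediateField.algebraMap_mem _ _
    | add x y _ _ hx hy => rw [map_add]; exact add_mem hx hy
    | mul x y _ _ hx hy => rw [map_mul]; exact mul_mem hx hy
    | inv x _ hx => rw [map_inv₀]; exact inv_mem hx
  · rintro _ ⟨i, rfl⟩
    have h1 := chg_map (n := n) (algebraMap K N) (X i)
    rw [map_X, ← hc] at h1
    show algebraMap (MvPolynomial (Fin n) N) (RF n N) (X i) ∈ IntermediateField.adjoin (RF n K)
      (algebraMap N (RF n N) '' S)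
    rw [← h1]
    exact IntermediateField.algebraMap_mem _ _

theorem exists_ext {K N R : Type} [Field K] [Field N] [Algebra K N] [Field R] (f : Polynomial K)
    [Polynomial.IsSplittingField K N f] (χ : K →+* R) (h : (f.map χ).Splits) :
    ∃ δ : N →+* R, ∀ a, δ (algebraMap K N a) = χ a := by
  let _ : Algebra K R := χ.toAlgebra
  exact ⟨(Polynomial.IsSplittingField.lift N f h : N →ₐ[K] R), fun a => AlgHom.commutes _ a⟩

/-- a place over a place -/
theorem exists_over {k K N : Type} [Field k] [CharZero k] [Field K] [Field N] [Algebra k K]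
    [Algebra k N] [Algebra K N] [IsScalarTower k K N] [FiniteDimensional K N]
    (P : FF.Place k K) : ∃ (w : FF.Place k N) (e : ℕ), FF.Over w P e := by
  obtain ⟨S, T, -, h2, h3⟩ := FF.exists_places_over (K' := N) P
  have hne : S.Nonempty := by
    by_contra hcon
    rw [Finset.not_nonempty_iff_eq_empty] at hcon
    rw [hcon, Finset.sum_empty] at h3
    exact (Module.finrank_pos (R := K) (M := N)).ne h3
  obtain ⟨w, hw⟩ := hne
  obtain ⟨e, he, -⟩ := h2 w hw
  exact ⟨w, e, he⟩

/-- the splitting statement -/
theorem splits_chg {n : ℕ} {K N : Type} [Field K] [Field N] [Algebra K N] [Normal K N]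
    [Algebra (RF n K) (RF n N)]
    (hc : ∀ z, algebraMap (RF n K) (RF n N) z = chg (algebraMap K N) z) (x : RF n N) :
    ((minpoly (RF n K) x).map (algebraMap (RF n K) (RF n N))).Splits := by
  have tw : IsScalarTower K (RF n K) (RF n N) := IsScalarTower.of_algebraMap_eq fun c => by
    rw [hc, chg_C]
    rfl
  have hx : x ∈ IntermediateField.adjoin (RF n K) (algebraMap N (RF n N) '' Set.univ) := by
    rw [gen_chg hc (IntermediateField.adjoin_univ K N)]
    trivial
  refine IntermediateField.splits_of_mem_adjoin _ _ ?_ hx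
  rintro _ ⟨a, -, rfl⟩
  have ha : IsIntegral K a := Normal.isIntegral inferInstance a
  have ha' : IsIntegral K (algebraMap N (RF n N) a) := ha.algebraMap
  refine ⟨ha'.tower_top, ?_⟩
  have h1 : ((minpoly K a).map (algebraMap K N)).Splits := Normal.splits inferInstance a
  have h2 : minpoly (RF n K) (algebraMap N (RF n N) a) ∣
      (minpoly K (algebraMap N (RF n N) a)).map (algebraMap K (RF n K)) :=
    minpoly.dvd_map_of_isScalarTower K (RF n K) _
  have h3 : minpoly K (algebraMap N (RF n N) a) = minpoly K a :=
    minpoly.algebraMap_eq (algebraMap N (RF n N)).injective a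
  rw [h3] at h2
  have h4 := Polynomial.map_dvd (algebraMap (RF n K) (RF n N)) h2
  refine Polynomial.Splits.of_dvd ?_ ?_ h4
  · rw [Polynomial.map_map, ← IsScalarTower.algebraMap_eq K (RF n K) (RF n N),
      IsScalarTower.algebraMap_eq K N (RF n N), ← Polynomial.map_map]
    exact h1.map _
  · rw [Polynomial.map_map]
    exact (Polynomial.map_ne_zero (minpoly.ne_zero ha))

section

variable {k K M : Type} [Field k] [CharZero k] [Field K] [Algebra k K] [Field M] [Algebra k M]
  [Algebra K M] [IsScalarTower k K M] [FiniteDimensional K M]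

/-- **A cover to which a family lifts is unramified over the prime divisors which the general member
of the family meets with multiplicity one.** -/
theorem unr_of_lifts {n : ℕ} {φ : K →ₐ[k] RF n K} (hφ : PMove φ) (hl : Lifts φ M)
    {P : FF.Place k K} (hP : Meets φ P) : UnramifiedAt M P := by
  classical
  obtain ⟨ε, hε, hεK⟩ := hl
  obtain ⟨Q, hQ⟩ := hP
  have cK : CharZero K := charZero_of_injective_algebraMap (algebraMap k K).injective
  obtain ⟨α, hα⟩ := Field.exists_primitive_element K M
  have hαi : IsIntegral K α := Algebra.IsIntegral.isIntegral α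
  obtain ⟨f, hf⟩ : ∃ f, f = minpoly K α := ⟨_, rfl⟩
  have hfm : f.Monic := by rw [hf]; exact minpoly.monic hαi
  have hfi : Irreducible f := by rw [hf]; exact minpoly.irreducible hαi
  let N := f.SplittingField
  have hsp : (f.map (algebraMap K N)).Splits := Polynomial.SplittingField.splits f
  obtain ⟨κ⟩ : Nonempty (M →ₐ[K] N) := by
    refine IntermediateField.nonempty_algHom_of_adjoin_splits (S := {α}) ?_ hα
    intro s hs
    rw [Set.mem_singleton_iff] at hs
    rw [hs, ← hf]
    exact ⟨hαi, hsp⟩
  have hgal : IsGalois K N := IsGalois.of_separable_splitting_field (p := f) hfi.separable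
  let _ : Algebra (RF n K) (RF n N) := (chg (algebraMap K N)).toAlgebra
  have hc : ∀ z, algebraMap (RF n K) (RF n N) z = chg (algebraMap K N) z := fun _ => rfl
  have tw : IsScalarTower K (RF n K) (RF n N) := IsScalarTower.of_algebraMap_eq fun c => by
    rw [hc, chg_C]
    rfl
  -- the polynomial is irreducible
  have hφ' : Sp (φ : K →+* RF n K) (RingHom.id K) := hφ
  obtain ⟨r, hr1, hr2⟩ := hφ'.exists
  have hirr : Irreducible (f.map (φ : K →+* RF n K)) := by
    have h1 := a0_irr r hfm (by
      have h2 : (e0 n K).comp r = RingHom.id K := RingHom.ext hr2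
      rw [h2, Polynomial.map_id]
      exact hfi)
    have h3 : (a0 n K).comp r = (φ : K →+* RF n K) := RingHom.ext hr1
    rwa [h3] at h1
  -- its root
  let x : RF n N := chg (κ : M →+* N) (ε α)
  have hroot : Polynomial.aeval x (f.map (φ : K →+* RF n K)) = 0 := by
    rw [Polynomial.aeval_def, Polynomial.eval₂_map]
    have h1 := Polynomial.hom_eval₂ f (algebraMap K M)
      ((chg (κ : M →+* N)).comp (ε : M →+* RF n M)) α
    have h2 : Polynomial.eval₂ (algebraMap K M) α f = 0 := by rw [hf]; exact minpoly.aeval K α
    rw [h2, map_zero] at h1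
    have h3 : ((chg (κ : M →+* N)).comp (ε : M →+* RF n M)).comp (algebraMap K M) =
        (algebraMap (RF n K) (RF n N)).comp (φ : K →+* RF n K) := by
      ext a
      show chg (κ : M →+* N) (ε (algebraMap K M a)) = chg (algebraMap K N) (φ a)
      rw [hεK, chg_comp]
      congr 2
      exact κ.comp_algebraMap
    rw [h3] at h1
    exact h1.symm
  have hmin : f.map (φ : K →+* RF n K) = minpoly (RF n K) x :=
    minpoly.eq_of_irreducible_of_monic hirr hroot (hfm.map _)
  have hnor : Normal K N := inferInstance
  have hsp' := splits_chg hc x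
  rw [← hmin, Polynomial.map_map] at hsp'
  obtain ⟨δ, hδ⟩ := exists_ext (N := N) f _ hsp'
  have hδ' : ∀ a, δ (algebraMap K N a) = algebraMap (RF n K) (RF n N) (φ a) := hδ
  -- the place over `Q`
  have hfd : FiniteDimensional (RF n K) (RF n N) := by
    obtain ⟨S, hS⟩ : ∃ S : Finset N, IntermediateField.adjoin K (S : Set N) = ⊤ := by
      obtain ⟨b, hb⟩ := Field.exists_primitive_element K N
      exact ⟨{b}, by rw [Finset.coe_singleton]; exact hb⟩
    have h1 := gen_chg hc hS
    have h2 : FiniteDimensional (RF n K)
        (IntermediateField.adjoin (RF n K) (algebraMap N (RF n N) '' (S : Set N))) := by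
      have := (S.finite_toSet.image (algebraMap N (RF n N))).to_subtype
      refine IntermediateField.finiteDimensional_adjoin ?_
      rintro _ ⟨a, -, rfl⟩
      have ha : IsIntegral K a := Algebra.IsIntegral.isIntegral a
      have ha' : IsIntegral K (algebraMap N (RF n N) a) := ha.algebraMap
      exact ha'.tower_top
    rw [h1] at h2
    exact (IntermediateField.topEquiv (F := RF n K) (E := RF n N)).toLinearEquiv.finiteDimensional
  obtain ⟨w, e, he⟩ := exists_over (k := K) (N := RF n N) Q
  have he1 : e = 1 := by
    refine Pool.Agent.Y500.HC.sUnr K (RF n K) (RF n N) ⊥ ?_ Q w e ?_ he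
    · rw [eq_top_iff, ← gen_chg hc (IntermediateField.adjoin_univ K N)]
      apply IntermediateField.adjoin.mono
      rintro _ ⟨a, -, rfl⟩
      have ha : IsIntegral K a := Algebra.IsIntegral.isIntegral a
      have ha' : IsIntegral K (algebraMap N (RF n N) a) := ha.algebraMap
      exact ha'.tower_top.isAlgebraic
    · intro a ha ha0
      obtain ⟨c, rfl⟩ := IntermediateField.mem_bot.1 ha
      apply Q.ord_const
      rintro rfl
      exact ha0 (map_zero _)
  rw [he1] at he
  have hwφ : ∀ a : K, w.ord (δ (algebraMap K N a)) = P.ord a := by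
    intro a
    rw [hδ', he.2, hQ, Nat.cast_one, one_mul]
  let w₁ : FF.Place k N :=
    { ord := fun a => w.ord (δ a)
      ord_zero := by rw [map_zero, w.ord_zero]
      ord_mul := by
        intro a b ha hb
        rw [map_mul, w.ord_mul ((map_ne_zero δ).2 ha) ((map_ne_zero δ).2 hb)]
      ord_add := by
        intro a b ha hb hab
        rw [map_add]
        exact w.ord_add ((map_ne_zero δ).2 ha) ((map_ne_zero δ).2 hb)
          (by rw [← map_add]; exact (map_ne_zero δ).2 hab)
      ord_const := by
        intro c hc
        rw [IsScalarTower.algebraMap_apply k K N, hwφ]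
        exact P.ord_const hc
      surj := by
        obtain ⟨t, ht0, ht⟩ := P.surj
        exact ⟨algebraMap K N t, (map_ne_zero _).2 ht0, by rw [hwφ, ht]⟩ }
  have h1 : FF.Over w₁ P 1 := ⟨Nat.one_pos, fun a => by
    show w.ord (δ (algebraMap K N a)) = _
    rw [hwφ, Nat.cast_one, one_mul]⟩
  intro R m hm hR
  let _ : Algebra M N := (κ : M →+* N).toAlgebra
  have tw1 : IsScalarTower K M N := IsScalarTower.of_algebraMap_eq fun c => (κ.commutes c).symm
  have tw2 : IsScalarTower k M N := IsScalarTower.of_algebraMap_eq fun c => by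
    rw [IsScalarTower.algebraMap_apply k K N, IsScalarTower.algebraMap_apply K M N,
      ← IsScalarTower.algebraMap_apply k K M]
  have hfd2 : FiniteDimensional M N := FiniteDimensional.right K M N
  obtain ⟨w₂, e₂, h2⟩ := exists_over (N := N) R
  have h3 : FF.Over w₂ P (e₂ * m) := ⟨Nat.mul_pos h2.1 hm, fun a => by
    rw [IsScalarTower.algebraMap_apply K M N, h2.2, hR]
    push_cast
    ring⟩
  have h4 := conj_index h1 h3
  exact Nat.eq_one_of_mul_eq_one_left h4.symm

end

end Pool.Agent.Q84.UF
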