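import Pool.Agent.Q84.UF.Base

/-! Specialization of the constants of a field of rational functions. -/

set_option autoImplicit false

namespace Pool.Agent.Q84.UF

open MvPolynomial

variable {R K E : Type} [CommRing R] [IsDomain R] [Field K] [Algebra R K] [IsFractionRing R K]
  [Field E] [Algebra K E] {m : ℕ}

/-- clearing denominators -/
theorem clr (p : MvPolynomial (Fin m) K) : ∃ b : R, b ≠ 0 ∧ ∃ p' : MvPolynomial (Fin m) R,
    MvPolynomial.map (algebraMap R K) p' = C (algebraMap R K b) * p := by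
  induction p using MvPolynomial.induction_on with
  | C a =>
    obtain ⟨α, β, hβ, rfl⟩ := IsFractionRing.div_surjective (A := R) a
    refine ⟨β, nonZeroDivisors.ne_zero hβ, C α, ?_⟩
    rw [map_C, ← C_mul]
    congr 1
    have : algebraMap R K β ≠ 0 := by
      rw [Ne, IsFractionRing.to_map_eq_zero_iff]
      exact nonZeroDivisors.ne_zero hβ
    field_simp
  | add p q hp hq =>
    obtain ⟨b, hb, p', hp'⟩ := hp
    obtain ⟨c, hc, q', hq'⟩ := hq
    refine ⟨b * c, mul_ne_zero hb hc, C c * p' + C b * q', ?_⟩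
    rw [map_add, map_mul, map_mul, map_C, map_C, hp', hq', map_mul, C_mul]
    ring
  | mul_X p i hp =>
    obtain ⟨b, hb, p', hp'⟩ := hp
    refine ⟨b, hb, p' * X i, ?_⟩
    rw [map_mul, hp', map_X]
    ring

/-- the value of a polynomial -/
noncomputable def vl (R : Type) [CommRing R] {K E : Type} [Field K] [Algebra R K] [Field E]
    [Algebra K E] {m : ℕ} (t : Fin m → E) : MvPolynomial (Fin m) R →+* E :=
  (aeval t : MvPolynomial (Fin m) K →ₐ[K] E).toRingHom.comp (MvPolynomial.map (algebraMap R K))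

theorem vl_apply (t : Fin m → E) (p : MvPolynomial (Fin m) R) :
    vl R (K := K) t p = aeval t (MvPolynomial.map (algebraMap R K) p) := rfl

theorem vl_inj {t : Fin m → E} (ht : AlgebraicIndependent K t) :
    Function.Injective (vl R (K := K) t) := by
  intro p q h
  exact MvPolynomial.map_injective _ (IsFractionRing.injective R K) (ht h)

theorem frac {t : Fin m → E} (h : IntermediateField.adjoin K (Set.range t) = ⊤) (e : E) :
    ∃ p q : MvPolynomial (Fin m) R, vl R (K := K) t q ≠ 0 ∧
      e * vl R (K := K) t q = vl R (K := K) t p := by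
  have he : e ∈ IntermediateField.adjoin K (Set.range t) := by rw [h]; trivial
  rw [IntermediateField.mem_adjoin_range_iff] at he
  obtain ⟨r, s, hrs⟩ := he
  by_cases hs : aeval t s = 0
  · rw [hs, div_zero] at hrs
    exact ⟨0, 1, by simp, by simp [hrs]⟩
  obtain ⟨b, hb, r', hr'⟩ := clr (R := R) r
  obtain ⟨c, hc, s', hs'⟩ := clr (R := R) s
  have hb' : algebraMap R K b ≠ 0 := by rwa [Ne, IsFractionRing.to_map_eq_zero_iff]
  have hc' : algebraMap R K c ≠ 0 := by rwa [Ne, IsFractionRing.to_map_eq_zero_iff]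
  have e1 : vl R (K := K) t (C b * s') = algebraMap K E (algebraMap R K b) *
      (algebraMap K E (algebraMap R K c) * aeval t s) := by
    rw [vl_apply, map_mul, map_C, hs', map_mul, map_mul, aeval_C, aeval_C]
  have e2 : vl R (K := K) t (C c * r') = algebraMap K E (algebraMap R K c) *
      (algebraMap K E (algebraMap R K b) * aeval t r) := by
    rw [vl_apply, map_mul, map_C, hr', map_mul, map_mul, aeval_C, aeval_C]
  have hb'' : algebraMap K E (algebraMap R K b) ≠ 0 := by
    rwa [Ne, map_eq_zero_iff _ (algebraMap K E).injective]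
  have hc'' : algebraMap K E (algebraMap R K c) ≠ 0 := by
    rwa [Ne, map_eq_zero_iff _ (algebraMap K E).injective]
  refine ⟨C c * r', C b * s', ?_, ?_⟩
  · rw [e1]
    exact mul_ne_zero hb'' (mul_ne_zero hc'' hs)
  · rw [e1, e2, hrs]
    field_simp

/-- **Specialization.** -/
theorem spec {t : Fin m → E} (ht : AlgebraicIndependent K t)
    (h : IntermediateField.adjoin K (Set.range t) = ⊤) (T : Finset E) :
    ∃ g : R, g ≠ 0 ∧ ∀ (L : Type) [Field L] (σ : R →+* L), σ g ≠ 0 →
      ∃ (O : Type) (_ : CommRing O) (j : O →+* E) (α : MvPolynomial (Fin m) R →+* O)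
        (τ : O →+* FractionRing (MvPolynomial (Fin m) L)), Function.Injective j ∧
        (∀ p, j (α p) = vl R (K := K) t p) ∧
        (∀ p, τ (α p) = algebraMap _ _ (MvPolynomial.map σ p)) ∧
        ∀ e ∈ T, ∃ z : O, j z = e ∧ (e ≠ 0 → IsUnit z) := by
  classical
  have hf := fun e => frac (R := R) h e
  choose P Q hQ hPQ using hf
  let w : E → MvPolynomial (Fin m) R := fun e => Q e * (if e = 0 then 1 else P e)
  have hw : ∀ e, w e ≠ 0 := by
    intro e
    have h1 : Q e ≠ 0 := fun h0 => hQ e (by rw [h0, map_zero])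
    by_cases he : e = 0
    · simp only [w, he, if_true, mul_one]
      rw [← he]
      exact h1
    · simp only [w, he, if_false]
      refine mul_ne_zero h1 fun h0 => ?_
      have h2 := hPQ e
      rw [h0, map_zero] at h2
      exact (mul_ne_zero he (hQ e)) h2
  obtain ⟨d, hd⟩ : ∃ d, d = ∏ e ∈ T, w e := ⟨_, rfl⟩
  have hd0 : d ≠ 0 := by
    rw [hd]
    exact Finset.prod_ne_zero_iff.2 fun e _ => hw e
  obtain ⟨μ, hμ⟩ := MvPolynomial.ne_zero_iff.1 hd0
  refine ⟨coeff μ d, hμ, fun L _ σ hσ => ?_⟩
  have hσd : MvPolynomial.map σ d ≠ 0 := by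
    rw [MvPolynomial.ne_zero_iff]
    exact ⟨μ, by rwa [coeff_map]⟩
  have hu1 : IsUnit (vl R (K := K) t d) := by
    rw [isUnit_iff_ne_zero, Ne, map_eq_zero_iff _ (vl_inj ht)]
    exact hd0
  let s : MvPolynomial (Fin m) R →+* FractionRing (MvPolynomial (Fin m) L) :=
    (algebraMap (MvPolynomial (Fin m) L) _).comp (MvPolynomial.map σ)
  have hu2 : IsUnit (s d) := by
    rw [isUnit_iff_ne_zero]
    show algebraMap (MvPolynomial (Fin m) L) (FractionRing (MvPolynomial (Fin m) L)) _ ≠ 0
    rw [Ne, IsFractionRing.to_map_eq_zero_iff]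
    exact hσd
  let j : Localization.Away d →+* E := IsLocalization.Away.lift d hu1
  have hj : ∀ p, j (algebraMap _ _ p) = vl R (K := K) t p := fun p =>
    IsLocalization.Away.lift_eq d hu1 p
  let τ : Localization.Away d →+* FractionRing (MvPolynomial (Fin m) L) :=
    IsLocalization.Away.lift d hu2
  have hτ : ∀ p, τ (algebraMap _ _ p) = s p := fun p => IsLocalization.Away.lift_eq d hu2 p
  have hji : Function.Injective j := by
    rw [injective_iff_map_eq_zero]
    intro z hz
    obtain ⟨⟨a, y⟩, hay⟩ := IsLocalization.surj (Submonoid.powers d) z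
    have h1 := congrArg j hay
    rw [map_mul, hz, zero_mul, hj] at h1
    have h2 : a = 0 := vl_inj ht (by rw [map_zero]; exact h1.symm)
    simp only at hay
    rw [h2, map_zero] at hay
    exact (IsUnit.mul_left_eq_zero (IsLocalization.map_units (Localization.Away d) y)).1 hay
  refine ⟨Localization.Away d, inferInstance, j, algebraMap _ _, τ, hji, hj, hτ, ?_⟩
  intro e he
  by_cases h0 : e = 0
  · exact ⟨0, by rw [map_zero, h0], fun h1 => absurd h0 h1⟩
  have hdvd : w e ∣ d := by
    rw [hd]
    exact Finset.dvd_prod_of_mem _ he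
  have hwe : w e = Q e * P e := by simp only [w, h0, if_false]
  have hQu : IsUnit (algebraMap (MvPolynomial (Fin m) R) (Localization.Away d) (Q e)) :=
    IsLocalization.Away.isUnit_of_dvd d (dvd_trans ⟨P e, hwe⟩ hdvd)
  have hPu : IsUnit (algebraMap (MvPolynomial (Fin m) R) (Localization.Away d) (P e)) :=
    IsLocalization.Away.isUnit_of_dvd d (dvd_trans ⟨Q e, by rw [hwe, mul_comm]⟩ hdvd)
  refine ⟨algebraMap _ _ (P e) * ↑(hQu.unit⁻¹), ?_, fun _ => hPu.mul (Units.isUnit _)⟩
  have h3 : j (algebraMap _ _ (P e) * ↑(hQu.unit⁻¹)) * vl R (K := K) t (Q e) =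
      vl R (K := K) t (P e) := by
    rw [map_mul, mul_assoc]
    have h4 : j ↑(hQu.unit⁻¹) * vl R (K := K) t (Q e) = 1 := by
      rw [← hj, ← map_mul, IsUnit.val_inv_mul, map_one]
    rw [h4, mul_one, hj]
  have h5 := hPQ e
  exact mul_right_cancel₀ (hQ e) (h3.trans h5.symm)

end Pool.Agent.Q84.UF
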